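import Pool.Agent.UW.GDefs

/-!
Circuits: programs without cycles. Their accepting trees are small if the depth is small, and GEN has
circuits of size `N ^ 3 + 1` and depth `2 N - 1` which read no useless pair.
-/

set_option autoImplicit false

namespace Pool.Agent.UW

/-- `B` has depth at most `d` (and no cycles): every edge and every fork lowers the rank, and the
start has rank at most `d`. -/
def HasDepth {E K S : Type} (B : Prog E K S) (d : ℕ) : Prop :=
  ∃ rk : S → ℕ, rk B.start ≤ d ∧ (∀ q l s, B.edge q l s → rk s < rk q) ∧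
    ∀ q s s', B.fork q s s' → rk s < rk q ∧ rk s' < rk q

theorem tsize_lt_of_depth {E K S : Type} (B : Prog E K S) (d : ℕ) (h : HasDepth B d) (x : E → K)
    (T : Tree E K S) (hT : AccTree B x T) : tsize T < 2 ^ d := by
  obtain ⟨rk, h0, h1, h2⟩ := h
  have key : ∀ (T : Tree E K S) (q : S), Run B x q T → tsize T + 1 ≤ 2 ^ rk q := by
    intro T
    induction T with
    | stop =>
      intro q _
      exact Nat.one_le_two_pow
    | step l s T ih =>
      intro q hq
      obtain ⟨h3, h4, h5⟩ := hq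
      have h6 := ih s h5
      have h7 : 2 ^ (rk s + 1) ≤ 2 ^ rk q := Nat.pow_le_pow_right (by norm_num) (h1 q l s h3)
      have h8 : tsize (Tree.step l s T) = tsize T + 1 := rfl
      rw [pow_succ] at h7
      omega
    | fork s s' T T' ih ih' =>
      intro q hq
      obtain ⟨h3, h4, h5⟩ := hq
      have h6 := ih s h4
      have h6' := ih' s' h5
      have h7 : 2 ^ (rk s + 1) ≤ 2 ^ rk q := Nat.pow_le_pow_right (by norm_num) (h2 q s s' h3).1
      have h7' : 2 ^ (rk s' + 1) ≤ 2 ^ rk q := Nat.pow_le_pow_right (by norm_num) (h2 q s s' h3).2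
      have h8 : tsize (Tree.fork s s' T T') = tsize T + tsize T' + 1 := rfl
      rw [pow_succ] at h7 h7'
      omega
  have h3 := key T B.start hT
  have h4 : 2 ^ rk B.start ≤ 2 ^ d := Nat.pow_le_pow_right (by norm_num) h0
  omega

/-- For circuits of small depth the bound on the trees is automatic. -/
theorem rightGen_depth {n : ℕ} {S : Type} (B : Prog (Fin (n + 2) × Fin (n + 2)) (Fin (n + 2)) S)
    {d : ℕ} (hd : HasDepth B d) (r : ℕ) {m : ℕ} (hm : 2 ^ d ≤ m)
    (g : Fin (n + 2) × Fin (n + 2) → Fin (n + 2)) :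
    RightGen B r m g ↔
      ((Gen g 0 1 ∧ ∃ T, AccTree B g T ∧ (treads T ∩ useless g).encard ≤ r) ∨
        (¬ Gen g 0 1 ∧ ∀ T, ¬ AccTree B g T)) := by
  constructor
  · rintro (⟨h1, T, h2, -, h3⟩ | h)
    · exact Or.inl ⟨h1, T, h2, h3⟩
    · exact Or.inr h
  · rintro (⟨h1, T, h2, h3⟩ | h)
    · exact Or.inl ⟨h1, T, h2, (tsize_lt_of_depth B d hd g T h2).trans_le hm, h3⟩
    · exact Or.inr h

/-! ### The circuit for GEN -/

/-- Elements with a derivation of height at most `k`. -/
def lev {X : Type} (g : X × X → X) (b : X) : ℕ → Set X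
  | 0 => {b}
  | k + 1 => {z | z ∈ lev g b k ∨ ∃ x ∈ lev g b k, ∃ y ∈ lev g b k, g (x, y) = z}

theorem lev_succ {X : Type} (g : X × X → X) (b : X) (k : ℕ) : lev g b k ⊆ lev g b (k + 1) :=
  fun _ h => Or.inl h

theorem lev_mono {X : Type} (g : X × X → X) (b : X) {k m : ℕ} (h : k ≤ m) :
    lev g b k ⊆ lev g b m := by
  induction m, h using Nat.le_induction with
  | base => exact subset_rfl
  | succ m _ ih => exact ih.trans (lev_succ g b m)

theorem lev_step {X : Type} (g : X × X → X) (b : X) {k m : ℕ} (h : lev g b m ⊆ lev g b k) :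
    lev g b (m + 1) ⊆ lev g b (k + 1) := by
  rintro z (hz | ⟨x, hx, y, hy, hz⟩)
  · exact Or.inl (h hz)
  · exact Or.inr ⟨x, h hx, y, h hy, hz⟩

theorem lev_gen {X : Type} (g : X × X → X) (b : X) (z : X) (h : Gen g b z) : ∃ m, z ∈ lev g b m := by
  induction h with
  | base => exact ⟨0, rfl⟩
  | op x y _ _ ihx ihy =>
    obtain ⟨m, hm⟩ := ihx
    obtain ⟨m', hm'⟩ := ihy
    exact ⟨max m m' + 1, Or.inr ⟨x, lev_mono g b (le_max_left _ _) hm, y,
      lev_mono g b (le_max_right _ _) hm', rfl⟩⟩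

theorem lev_or {X : Type} [Finite X] (g : X × X → X) (b : X) (k : ℕ) :
    k + 1 ≤ (lev g b k).ncard ∨ ∀ m, lev g b m ⊆ lev g b k := by
  induction k with
  | zero =>
    left
    show 0 + 1 ≤ ({b} : Set X).ncard
    rw [Set.ncard_singleton]
  | succ k ih =>
    by_cases h : lev g b (k + 1) ⊆ lev g b k
    · right
      have h1 : ∀ m, lev g b m ⊆ lev g b k := by
        intro m
        induction m with
        | zero => exact lev_mono g b (Nat.zero_le k)
        | succ m ihm => exact (lev_step g b ihm).trans h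
      exact fun m => (h1 m).trans (lev_succ g b k)
    · rcases ih with ih | ih
      · left
        have h2 : lev g b k ⊂ lev g b (k + 1) := ⟨lev_succ g b k, h⟩
        have h3 := Set.ncard_lt_ncard h2 (Set.toFinite _)
        omega
      · exact absurd (ih (k + 1)) h

theorem lev_last {n : ℕ} (g : Fin (n + 2) × Fin (n + 2) → Fin (n + 2)) (z : Fin (n + 2))
    (h : Gen g 0 z) : z ∈ lev g 0 (n + 1) := by
  obtain ⟨m, hm⟩ := lev_gen g 0 z h
  rcases lev_or g 0 (n + 1) with h1 | h1
  · have h2 : lev g 0 (n + 1) = Set.univ := by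
      refine Set.eq_of_subset_of_ncard_le (Set.subset_univ _) ?_ (Set.toFinite _)
      rw [Set.ncard_univ, Nat.card_eq_fintype_card, Fintype.card_fin]
      exact h1
    rw [h2]
    trivial
  · exact h1 m hm

theorem lev_cases {X : Type} (g : X × X → X) (b : X) (k : ℕ) (z : X) (h : z ∈ lev g b (k + 1)) :
    z = b ∨ ∃ x ∈ lev g b k, ∃ y ∈ lev g b k, g (x, y) = z := by
  induction k with
  | zero =>
    rcases h with h | h
    · exact Or.inl h
    · exact Or.inr h
  | succ k ih =>
    rcases h with h | h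
    · rcases ih h with h1 | ⟨x, hx, y, hy, hz⟩
      · exact Or.inl h1
      · exact Or.inr ⟨x, lev_succ g b k hx, y, lev_succ g b k hy, hz⟩
    · exact Or.inr h

/-- States: accepted; an element with a height; a pair with a height. -/
abbrev AcS (n : ℕ) : Type :=
  Option ((Fin (n + 2) × Fin (n + 2)) ⊕ (Fin (n + 1) × (Fin (n + 2) × Fin (n + 2))))

/-- Its edges. -/
def acEdge {n : ℕ} : AcS n → Option ((Fin (n + 2) × Fin (n + 2)) × Set (Fin (n + 2))) → AcS n → Prop
  | some (Sum.inl (k, z)), l, s => (l = none ∧ z = 0 ∧ s = none) ∨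
      ∃ (j : Fin (n + 1)) (x y : Fin (n + 2)), k = j.succ ∧ l = some ((x, y), {z}) ∧
        s = some (Sum.inr (j, (x, y)))
  | some (Sum.inr _), _, _ => False
  | none, _, _ => False

/-- Its forks. -/
def acFork {n : ℕ} : AcS n → AcS n → AcS n → Prop
  | some (Sum.inr (j, e)), s, s' => s = some (Sum.inl (j.castSucc, e.1)) ∧
      s' = some (Sum.inl (j.castSucc, e.2))
  | some (Sum.inl _), _, _ => False
  | none, _, _ => False

/-- The circuit. -/
def acProg (n : ℕ) : Prog (Fin (n + 2) × Fin (n + 2)) (Fin (n + 2)) (AcS n) where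
  start := some (Sum.inl (Fin.last (n + 1), 1))
  acc := none
  edge := acEdge
  fork := acFork

/-- What acceptance from a state means. -/
def AcInv {n : ℕ} (g : Fin (n + 2) × Fin (n + 2) → Fin (n + 2)) : AcS n → Prop
  | none => True
  | some (Sum.inl (_, z)) => Gen g 0 z
  | some (Sum.inr (_, e)) => Gen g 0 e.1 ∧ Gen g 0 e.2

theorem ac_sound {n : ℕ} (g : Fin (n + 2) × Fin (n + 2) → Fin (n + 2))
    (π : Tree (Fin (n + 2) × Fin (n + 2)) (Fin (n + 2)) (AcS n)) :
    ∀ q, Run (acProg n) g q π → AcInv g q ∧ treads π ∩ useless g ⊆ ∅ := by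
  induction π with
  | stop =>
    intro q h
    have h1 : q = none := h
    subst h1
    exact ⟨trivial, fun _ h => h.1⟩
  | step l s π ih =>
    intro q h
    obtain ⟨h1, h2, h3⟩ := h
    obtain ⟨h4, h5⟩ := ih s h3
    match q, h1 with
    | some (Sum.inl (k, z)), Or.inl ⟨h6, h7, h8⟩ =>
      subst h6
      subst h7
      refine ⟨Gen.base, ?_⟩
      rintro e ⟨he | he, he'⟩
      · exact he
      · exact h5 ⟨he, he'⟩
    | some (Sum.inl (k, z)), Or.inr ⟨j, x, y, _, h6, h7⟩ =>
      subst h6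
      subst h7
      have h8 : g (x, y) = z := h2
      have h4' : Gen g 0 x ∧ Gen g 0 y := h4
      refine ⟨?_, ?_⟩
      · show Gen g 0 z
        rw [← h8]
        exact Gen.op x y h4'.1 h4'.2
      · rintro e ⟨he | he, he'⟩
        · have h9 : e = (x, y) := he
          rw [h9] at he'
          exact he' h4'
        · exact h5 ⟨he, he'⟩
    | some (Sum.inr e), h1 => exact h1.elim
    | none, h1 => exact h1.elim
  | fork s s' π π' ih ih' =>
    intro q h
    obtain ⟨h1, h2, h3⟩ := h
    obtain ⟨h4, h5⟩ := ih s h2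
    obtain ⟨h6, h7⟩ := ih' s' h3
    match q, h1 with
    | some (Sum.inr (j, e)), ⟨h8, h9⟩ =>
      subst h8
      subst h9
      refine ⟨⟨h4, h6⟩, ?_⟩
      rintro e ⟨he | he, he'⟩
      · exact h5 ⟨he, he'⟩
      · exact h7 ⟨he, he'⟩
    | some (Sum.inl z), h1 => exact h1.elim
    | none, h1 => exact h1.elim

theorem ac_complete {n : ℕ} (g : Fin (n + 2) × Fin (n + 2) → Fin (n + 2)) (k : Fin (n + 2)) :
    ∀ z, z ∈ lev g 0 (k : ℕ) → ∃ π, Run (acProg n) g (some (Sum.inl (k, z))) π := by
  induction k using Fin.induction with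
  | zero =>
    intro z hz
    exact ⟨Tree.step none none Tree.stop, Or.inl ⟨rfl, hz, rfl⟩, trivial, rfl⟩
  | succ j ih =>
    intro z hz
    rw [Fin.val_succ] at hz
    rcases lev_cases g 0 j z hz with h1 | ⟨x, hx, y, hy, h1⟩
    · exact ⟨Tree.step none none Tree.stop, Or.inl ⟨rfl, h1, rfl⟩, trivial, rfl⟩
    · obtain ⟨π, hπ⟩ := ih x hx
      obtain ⟨π', hπ'⟩ := ih y hy
      refine ⟨Tree.step (some ((x, y), {z})) (some (Sum.inr (j, (x, y))))
        (Tree.fork (some (Sum.inl (j.castSucc, x))) (some (Sum.inl (j.castSucc, y))) π π'),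
        ?_, ?_, ?_, ?_, ?_⟩
      · exact Or.inr ⟨j, x, y, rfl, rfl, rfl⟩
      · exact h1
      · exact ⟨rfl, rfl⟩
      · exact hπ
      · exact hπ'

/-- The rank. -/
def acRank {n : ℕ} : AcS n → ℕ
  | some (Sum.inl (k, _)) => 2 * (k : ℕ) + 1
  | some (Sum.inr (j, _)) => 2 * (j : ℕ) + 2
  | none => 0

theorem ac_depth (n : ℕ) : HasDepth (acProg n) (2 * n + 3) := by
  refine ⟨acRank, ?_, ?_, ?_⟩
  · show 2 * (n + 1) + 1 ≤ 2 * n + 3
    omega
  · intro q l s h
    match q, h with
    | some (Sum.inl (k, z)), Or.inl ⟨_, _, h3⟩ =>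
      subst h3
      show 0 < 2 * (k : ℕ) + 1
      omega
    | some (Sum.inl (k, z)), Or.inr ⟨j, x, y, h1, _, h3⟩ =>
      subst h3
      subst h1
      show 2 * (j : ℕ) + 2 < 2 * ((j.succ : Fin (n + 2)) : ℕ) + 1
      rw [Fin.val_succ]
      omega
    | some (Sum.inr e), h => exact h.elim
    | none, h => exact h.elim
  · intro q s s' h
    match q, h with
    | some (Sum.inr (j, e)), ⟨h1, h2⟩ =>
      subst h1
      subst h2
      show 2 * ((j.castSucc : Fin (n + 2)) : ℕ) + 1 < 2 * (j : ℕ) + 2 ∧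
        2 * ((j.castSucc : Fin (n + 2)) : ℕ) + 1 < 2 * (j : ℕ) + 2
      rw [Fin.val_castSucc]
      omega
    | some (Sum.inl z), h => exact h.elim
    | none, h => exact h.elim

/-- A circuit of size `N ^ 3 + 1` and depth `2 N - 1` for GEN on `N = n + 2` elements: no accepting
tree reads a useless pair, and it is right on all inputs. -/
theorem gen_up_depth (n : ℕ) :
    ∃ (S : Type) (_ : Fintype S) (B : Prog (Fin (n + 2) × Fin (n + 2)) (Fin (n + 2)) S),
      Fintype.card S ≤ (n + 2) ^ 3 + 1 ∧ HasDepth B (2 * n + 3) ∧ FewUseless B 0 0 ∧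
      ∀ g, RightGen B 0 (2 ^ (2 * n + 3)) g := by
  have key : ∀ (g : Fin (n + 2) × Fin (n + 2) → Fin (n + 2)) (π : Tree _ _ _),
      AccTree (acProg n) g π → (treads π ∩ useless g).encard = 0 := by
    intro g π hπ
    rw [Set.encard_eq_zero, Set.eq_empty_iff_forall_notMem]
    exact fun e he => (ac_sound g π _ hπ).2 he
  refine ⟨AcS n, inferInstance, acProg n, ?_, ac_depth n, ?_, ?_⟩
  · rw [Fintype.card_option, Fintype.card_sum, Fintype.card_prod, Fintype.card_prod,
      Fintype.card_prod, Fintype.card_fin, Fintype.card_fin]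
    nlinarith
  · intro g
    have h : {T | AccTree (acProg n) g T ∧ ((0 : ℕ) : ℕ∞) < (treads T ∩ useless g).encard} = ∅ := by
      ext T
      constructor
      · rintro ⟨h1, h2⟩
        rw [key g T h1] at h2
        exact absurd h2 (by simp)
      · intro h
        exact h.elim
    rw [h, Set.encard_empty]
    exact zero_le
  · intro g
    by_cases hg : Gen g 0 1
    · left
      have h1 := lev_last g 1 hg
      obtain ⟨π, hπ⟩ := ac_complete g (Fin.last (n + 1)) 1 h1
      refine ⟨hg, π, hπ, tsize_lt_of_depth _ _ (ac_depth n) g π hπ, ?_⟩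
      rw [key g π hπ]
      exact zero_le
    · exact Or.inr ⟨hg, fun T hT => hg (ac_sound g T _ hT).1⟩

end Pool.Agent.UW
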