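import Pool.Agent.UW.GNoFork
import Pool.Agent.UW.GDepth

/-!
When the bound on the size of the trees is automatic: circuits of small depth, programs without forks
with few states, or without forks and with short time.
-/

set_option autoImplicit false

namespace Pool.Agent.UW

theorem tsize_le_of_time {E K S : Type} (B : Prog E K S) (hf : ∀ q s s', ¬ B.fork q s s') (d : ℕ)
    (h : HasDepth B d) (x : E → K) (T : Tree E K S) (hT : AccTree B x T) : tsize T ≤ d := by
  obtain ⟨rk, h0, h1, _⟩ := h
  have key : ∀ (T : Tree E K S) (q : S), Run B x q T → tsize T ≤ rk q := by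
    intro T
    induction T with
    | stop =>
      intro q _
      exact Nat.zero_le _
    | step l s T ih =>
      intro q hq
      obtain ⟨h3, h4, h5⟩ := hq
      have h6 := ih s h5
      have h7 := h1 q l s h3
      have h8 : tsize (Tree.step l s T) = tsize T + 1 := rfl
      omega
    | fork s s' T T' ih ih' =>
      intro q hq
      exact absurd hq.1 (hf q s s')
  exact (key T B.start hT).trans h0

/-- The bound on the trees is automatic for circuits of depth `d`, `2 ^ d ≤ m`, and for programs
without forks if they have at most `m` states or time less than `m`. -/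
theorem rightGen_auto {n : ℕ} {S : Type} [Fintype S]
    (B : Prog (Fin (n + 2) × Fin (n + 2)) (Fin (n + 2)) S) {m : ℕ}
    (h : (∃ d, HasDepth B d ∧ 2 ^ d ≤ m) ∨ ((∀ q s s', ¬ B.fork q s s') ∧
      (Fintype.card S ≤ m ∨ ∃ d, HasDepth B d ∧ d < m)))
    (r : ℕ) (g : Fin (n + 2) × Fin (n + 2) → Fin (n + 2)) :
    RightGen B r m g ↔
      ((Gen g 0 1 ∧ ∃ T, AccTree B g T ∧ (treads T ∩ useless g).encard ≤ r) ∨
        (¬ Gen g 0 1 ∧ ∀ T, ¬ AccTree B g T)) := by
  rcases h with ⟨d, h1, h2⟩ | ⟨hf, h1 | ⟨d, h1, h2⟩⟩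
  · exact rightGen_depth B h1 r h2 g
  · exact rightGen_noFork B hf h1 g
  · constructor
    · rintro (⟨h3, T, h4, -, h5⟩ | h)
      · exact Or.inl ⟨h3, T, h4, h5⟩
      · exact Or.inr h
    · rintro (⟨h3, T, h4, h5⟩ | h)
      · exact Or.inl ⟨h3, T, h4, (tsize_le_of_time B hf d h1 g T h4).trans_lt h2, h5⟩
      · exact Or.inr h

end Pool.Agent.UW
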