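import Pool.Agent.UW.Defs

/-!
The Cauchy matrix: entries are not `0`, and square parts are invertible.
-/

namespace Pool.Agent.UW

open Polynomial Finset

theorem cauchy_cast_inj {w p : ℕ} (hp : 2 * w ≤ p) {a b : ℕ} (ha : a < 2 * w) (hb : b < 2 * w)
    (h : (a : ZMod p) = (b : ZMod p)) : a = b := by
  have h' := (ZMod.natCast_eq_natCast_iff a b p).1 h
  exact Nat.ModEq.eq_of_lt_of_lt h' (lt_of_lt_of_le ha hp) (lt_of_lt_of_le hb hp)

theorem cauchy_sub_ne {w p : ℕ} (hp : 2 * w ≤ p) (v u : Fin w) :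
    (((v : ℕ) : ZMod p) - ((w + (u : ℕ) : ℕ) : ZMod p)) ≠ 0 := by
  intro h
  have h1 := sub_eq_zero.1 h
  have h2 := cauchy_cast_inj hp (by have := v.2; omega) (by have := u.2; omega) h1
  have := v.2
  omega

theorem M_ne {w p : ℕ} [Fact p.Prime] (hp : 2 * w ≤ p) (v u : Fin w) : M w p v u ≠ 0 := by
  unfold M
  exact inv_ne_zero (cauchy_sub_ne hp v u)

theorem cauchy {w p : ℕ} [Fact p.Prime] (hp : 2 * w ≤ p) (T Y : Finset (Fin w)) (hTY : Y.card ≤ T.card)
    (c : Fin w → ZMod p) (hc : ∀ u ∉ Y, c u = 0) (h : ∀ v ∈ T, ∑ u, M w p v u * c u = 0) : c = 0 := by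
  classical
  set y : Fin w → ZMod p := fun u => ((w + (u : ℕ) : ℕ) : ZMod p) with hy
  set x : Fin w → ZMod p := fun v => ((v : ℕ) : ZMod p) with hx
  set f : (ZMod p)[X] := ∑ u ∈ Y, C (c u) * Lagrange.nodal (Y.erase u) y with hf
  have hdeg : f.degree < (T.card : ℕ) := by
    rw [← mem_degreeLT]
    refine Submodule.sum_mem _ fun u hu => ?_
    rw [mem_degreeLT]
    have hpos : 0 < Y.card := Finset.card_pos.2 ⟨u, hu⟩
    calc (C (c u) * Lagrange.nodal (Y.erase u) y).degree
        ≤ (C (c u)).degree + (Lagrange.nodal (Y.erase u) y).degree := degree_mul_le _ _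
      _ ≤ 0 + ((Y.erase u).card : ℕ) := add_le_add degree_C_le (le_of_eq Lagrange.degree_nodal)
      _ = ((Y.card - 1 : ℕ) : WithBot ℕ) := by
          rw [zero_add, Finset.card_erase_of_mem hu]
      _ < (T.card : ℕ) := by
          exact_mod_cast (by omega : Y.card - 1 < T.card)
  have hxinj : Set.InjOn x (T : Set (Fin w)) := by
    intro a _ b _ hab
    have := cauchy_cast_inj hp (by have := a.2; omega) (by have := b.2; omega) hab
    exact Fin.ext this
  have heval : ∀ v ∈ T, f.eval (x v) = 0 := by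
    intro v hv
    have hne : ∀ u, x v - y u ≠ 0 := fun u => cauchy_sub_ne hp v u
    have e1 : f.eval (x v) = (∏ u ∈ Y, (x v - y u)) * ∑ u ∈ Y, (x v - y u)⁻¹ * c u := by
      rw [hf, eval_finsetSum, Finset.mul_sum]
      refine Finset.sum_congr rfl fun u hu => ?_
      rw [eval_mul, eval_C, Lagrange.eval_nodal, ← Finset.mul_prod_erase Y _ hu]
      have := hne u
      field_simp
    have e2 : ∑ u ∈ Y, (x v - y u)⁻¹ * c u = ∑ u, M w p v u * c u := by
      refine Finset.sum_subset (Finset.subset_univ Y) fun u _ hu => ?_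
      rw [hc u hu, mul_zero]
    rw [e1, e2, h v hv, mul_zero]
  have hf0 : f = 0 := eq_zero_of_degree_lt_of_eval_index_eq_zero (v := x) T hxinj hdeg heval
  funext u
  by_cases hu : u ∈ Y
  · have h1 : f.eval (y u) = 0 := by rw [hf0, eval_zero]
    rw [hf, eval_finsetSum, Finset.sum_eq_single u] at h1
    · rw [eval_mul, eval_C, Lagrange.eval_nodal] at h1
      rcases mul_eq_zero.1 h1 with h2 | h2
      · exact h2
      · exfalso
        obtain ⟨u', hu', h3⟩ := Finset.prod_eq_zero_iff.1 h2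
        have h4 := sub_eq_zero.1 h3
        have h5 := cauchy_cast_inj hp (by have := u.2; omega) (by have := u'.2; omega) h4
        exact (Finset.ne_of_mem_erase hu') (Fin.ext (by omega))
    · intro u' hu' hne
      rw [eval_mul, Lagrange.eval_nodal]
      have : ∏ i ∈ Y.erase u', (y u - y i) = 0 :=
        Finset.prod_eq_zero (Finset.mem_erase.2 ⟨hne.symm, hu⟩) (sub_self _)
      rw [this, mul_zero]
    · intro hn
      exact absurd hu hn
  · exact hc u hu

end Pool.Agent.UW
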