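import Pool.Agent.UW.Defs

/-! # Where the inputs of two labelings differ -/

set_option autoImplicit false

namespace Pool.Agent.UW

/-- two labelings which agree on the level below give the same arguments -/
theorem argD_eq {l w p : ℕ} (D D' : Lab l w p) (i : Fin l) (Y : Finset (Fin w))
    (hD : ∀ j v, (j = i.castSucc.castSucc → v ∉ Y) → D j v = D' j v) (j : Fin (l + 2)) (v : Fin w)
    (hne : argD D j v ≠ argD D' j v) : j = i.succ.castSucc := by
  induction j using Fin.cases with
  | zero => exact absurd rfl hne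
  | succ k =>
    by_cases hk : k.castSucc = i.castSucc.castSucc
    · have h1 : k = i.castSucc := Fin.castSucc_injective _ hk
      rw [h1, Fin.succ_castSucc]
    · refine absurd ?_ hne
      change ∑ u, M w p v u * (D k.castSucc u : ZMod p) = ∑ u, M w p v u * (D' k.castSucc u : ZMod p)
      refine Finset.sum_congr rfl fun u _ => ?_
      rw [hD k.castSucc u fun h => absurd h hk]

/-- where two inputs differ -/
theorem differ {l w p : ℕ} (D D' : Lab l w p) (i : Fin l) (Y : Finset (Fin w))
    (hD : ∀ j v, (j = i.castSucc.castSucc → v ∉ Y) → D j v = D' j v) (e : Entry l w p)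
    (hne : inp D e ≠ inp D' e) :
    (e.1 = i.castSucc.castSucc ∧ e.2.1 ∈ Y ∧ e.2.2 = argD D e.1 e.2.1) ∨
    (e.1 = i.succ.castSucc ∧ argD D e.1 e.2.1 ≠ argD D' e.1 e.2.1 ∧
      (e.2.2 = argD D e.1 e.2.1 ∨ e.2.2 = argD D' e.1 e.2.1)) := by
  by_cases hA : argD D e.1 e.2.1 = argD D' e.1 e.2.1
  · left
    by_cases h1 : e.2.2 = argD D e.1 e.2.1
    · have h2 : inp D e = (D e.1 e.2.1 : ZMod p) := if_pos h1
      have h3 : inp D' e = (D' e.1 e.2.1 : ZMod p) := if_pos (h1.trans hA)
      by_contra hcon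
      refine hne ?_
      rw [h2, h3, hD e.1 e.2.1 fun h4 h5 => hcon ⟨h4, h5, h1⟩]
    · refine absurd ?_ hne
      have h2 : inp D e = 0 := if_neg h1
      have h3 : inp D' e = 0 := if_neg fun h => h1 (h.trans hA.symm)
      rw [h2, h3]
  · right
    refine ⟨argD_eq D D' i Y hD e.1 e.2.1 hA, hA, ?_⟩
    by_contra hcon
    push Not at hcon
    refine hne ?_
    have h2 : inp D e = 0 := if_neg hcon.1
    have h3 : inp D' e = 0 := if_neg hcon.2
    rw [h2, h3]

end Pool.Agent.UW
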