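import Pool.Agent.UW.Defs

/-! Leaves L8 and L9 of UnambiguousWaste: greedy counting (helper14). -/

open Pool.Agent.UW
namespace Pool.Agent.UW

/-- A finite digraph in which every out-degree is at most `d` has an independent set with at
least `n / (2 d + 1)` vertices. -/
theorem exists_indep {V : Type*} [DecidableEq V] (d : ℕ) (R : V → V → Prop)
    [DecidableRel R] :
    ∀ (n : ℕ) (C : Finset V), C.card = n →
      (∀ x ∈ C, (C.filter (fun y => R x y)).card ≤ d) →
      ∃ I : Finset V, I ⊆ C ∧ C.card ≤ (2 * d + 1) * I.card ∧
        ∀ x ∈ I, ∀ y ∈ I, x ≠ y → ¬ R x y := by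
  intro n
  induction n using Nat.strong_induction_on with
  | _ n ih =>
    intro C hn hout
    rcases C.eq_empty_or_nonempty with h0 | hne
    · subst h0
      exact ⟨∅, by simp, by simp, by simp⟩
    · -- a vertex with small in-degree
      have hsum : ∑ x ∈ C, (C.filter (fun y => R y x)).card ≤ C.card * d := by
        have h1 : ∑ x ∈ C, (C.filter (fun y => R y x)).card
            = ∑ y ∈ C, (C.filter (fun x => R y x)).card := by
          simp only [Finset.card_filter]
          rw [Finset.sum_comm]
        rw [h1]
        calc ∑ y ∈ C, (C.filter (fun x => R y x)).card ≤ ∑ y ∈ C, d :=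
              Finset.sum_le_sum (fun y hy => hout y hy)
          _ = C.card * d := by simp
      obtain ⟨x, hxC, hx⟩ : ∃ x ∈ C, (C.filter (fun y => R y x)).card ≤ d := by
        by_contra hcon
        push Not at hcon
        have : ∑ x ∈ C, d < ∑ x ∈ C, (C.filter (fun y => R y x)).card :=
          Finset.sum_lt_sum_of_nonempty hne (fun x hx => hcon x hx)
        simp only [Finset.sum_const, smul_eq_mul] at this
        omega
      set N : Finset V := {x} ∪ (C.filter (fun y => R x y)) ∪ (C.filter (fun y => R y x)) with hN
      have hNcard : N.card ≤ 2 * d + 1 := by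
        calc N.card ≤ ({x} ∪ (C.filter (fun y => R x y)) : Finset V).card
              + (C.filter (fun y => R y x)).card := Finset.card_union_le _ _
          _ ≤ (({x} : Finset V).card + (C.filter (fun y => R x y)).card)
              + (C.filter (fun y => R y x)).card := by
                gcongr
                exact Finset.card_union_le _ _
          _ ≤ (1 + d) + d := by
                have := hout x hxC
                simp only [Finset.card_singleton]
                omega
          _ = 2 * d + 1 := by ring
      have hxN : x ∈ N := by simp [hN]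
      have hlt : (C \ N).card < n := by
        rw [← hn]
        apply Finset.card_lt_card
        refine ⟨Finset.sdiff_subset, fun h => ?_⟩
        have := h hxC
        exact (Finset.mem_sdiff.mp this).2 hxN
      obtain ⟨I, hI, hcard, hind⟩ := ih _ hlt (C \ N) rfl (by
        intro y hy
        refine le_trans (Finset.card_le_card ?_) (hout y (Finset.mem_sdiff.mp hy).1)
        exact Finset.filter_subset_filter _ Finset.sdiff_subset)
      have hxI : x ∉ I := fun h => (Finset.mem_sdiff.mp (hI h)).2 hxN
      refine ⟨insert x I, ?_, ?_, ?_⟩
      · intro y hy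
        rcases Finset.mem_insert.mp hy with rfl | hy
        · exact hxC
        · exact (Finset.mem_sdiff.mp (hI hy)).1
      · rw [Finset.card_insert_of_notMem hxI]
        have h1 : C.card ≤ (C \ N).card + N.card := by
          have := Finset.card_le_card (show C ⊆ (C \ N) ∪ N by
            intro y hy
            by_cases h : y ∈ N
            · exact Finset.mem_union_right _ h
            · exact Finset.mem_union_left _ (Finset.mem_sdiff.mpr ⟨hy, h⟩))
          exact this.trans (Finset.card_union_le _ _)
        nlinarith [hcard, hNcard, h1]
      · intro y hy z hz hyz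
        have key : ∀ w ∈ I, ¬ R x w ∧ ¬ R w x := by
          intro w hw
          have hw' := Finset.mem_sdiff.mp (hI hw)
          constructor
          · intro h
            apply hw'.2
            simp only [hN, Finset.mem_union, Finset.mem_filter, Finset.mem_singleton]
            exact Or.inl (Or.inr ⟨hw'.1, h⟩)
          · intro h
            apply hw'.2
            simp only [hN, Finset.mem_union, Finset.mem_filter, Finset.mem_singleton]
            exact Or.inr ⟨hw'.1, h⟩
        rcases Finset.mem_insert.mp hy with h1 | h1
        · rcases Finset.mem_insert.mp hz with h2 | h2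
          · exact absurd (h1.trans h2.symm) hyz
          · rw [h1]
            exact (key z h2).1
        · rcases Finset.mem_insert.mp hz with h2 | h2
          · rw [h2]
            exact (key y h1).2
          · exact hind y h1 z h2 hyz

/-! L8, L9 : greedy -/

theorem indep {ι : Type} (C : Finset ι) (R : ι → ι → Prop) [DecidableRel R] [DecidableEq ι]
    (d A : ℕ)
    (hd : ∀ D ∈ C, (C.filter (fun D' => R D D')).card ≤ d)
    (hA : ∀ I ⊆ C, (∀ D ∈ I, ∀ D' ∈ I, D ≠ D' → ¬ R D D') → I.card ≤ A) :
    C.card ≤ A * (2 * d + 1) := by
  obtain ⟨I, hI, hcard, hind⟩ := exists_indep d R C.card C rfl hd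
  have h1 : I.card ≤ A := hA I hI hind
  calc C.card ≤ (2 * d + 1) * I.card := hcard
    _ ≤ (2 * d + 1) * A := by gcongr
    _ = A * (2 * d + 1) := by ring

theorem greedy {ι V K : Type} [DecidableEq V] [DecidableEq K] [Fintype V] (C : Finset ι)
    (a : ι → V → K)
    (L : ι → Finset (V × K)) (r A t : ℕ) (hA : 0 < A) (ht : t ≤ Fintype.card V)
    (hL : ∀ D ∈ C, (L D).card ≤ r) (hself : ∀ D ∈ C, ∀ v, (v, a D v) ∉ L D)
    (hinj : ∀ D ∈ C, ∀ D' ∈ C, ∀ T : Finset V, T.card = t → (∀ v ∈ T, a D v = a D' v) → D = D')
    (hI : ∀ I ⊆ C, (∀ D ∈ I, ∀ D' ∈ I, D ≠ D' → ∀ v, (v, a D' v) ∉ L D) → I.card ≤ A) :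
    C.card ≤ (A * (2 * r + 1)) ^ t := by
  classical
  have _ := ht
  -- induction over the number `s` of coordinates which are still free; `J` is the fixed set
  have main : ∀ (s : ℕ) (J : Finset V) (C' : Finset ι), J.card + s = t → C' ⊆ C →
      (∀ x ∈ C', ∀ y ∈ C', ∀ v ∈ J, a x v = a y v) →
      C'.card ≤ (A * (2 * r + 1)) ^ s := by
    intro s
    induction s with
    | zero =>
      intro J C' hJ hC' hfix
      simp only [pow_zero]
      rw [Finset.card_le_one]
      intro x hx y hy
      exact hinj x (hC' hx) y (hC' hy) J (by omega) (fun v hv => hfix x hx y hy v hv)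
    | succ s ih =>
      intro J C' hJ hC' hfix
      set m : ℕ := (A * (2 * r + 1)) ^ s with hm
      have hmpos : 0 < m := Nat.pow_pos (Nat.mul_pos hA (by omega))
      have hfib : ∀ v, v ∉ J → ∀ α : K, (C'.filter (fun y => a y v = α)).card ≤ m := by
        intro v hv α
        refine ih (insert v J) (C'.filter (fun y => a y v = α)) ?_
          ((Finset.filter_subset _ _).trans hC') ?_
        · rw [Finset.card_insert_of_notMem hv]
          omega
        · intro x hx y hy w hw
          rw [Finset.mem_filter] at hx hy
          rcases Finset.mem_insert.mp hw with h | h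
          · rw [h, hx.2, hy.2]
          · exact hfix x hx.1 y hy.1 w h
      -- out-degrees
      let R : ι → ι → Prop := fun x y => ∃ v, (v, a y v) ∈ L x
      have hout : ∀ x ∈ C', (C'.filter (fun y => R x y)).card ≤ r * m := by
        intro x hx
        have hsub : C'.filter (fun y => R x y) ⊆
            ((L x).filter (fun e => e.1 ∉ J)).biUnion
              (fun e => C'.filter (fun y => a y e.1 = e.2)) := by
          intro y hy
          rw [Finset.mem_filter] at hy
          obtain ⟨hy1, v, hv⟩ := hy
          rw [Finset.mem_biUnion]
          refine ⟨(v, a y v), ?_, ?_⟩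
          · rw [Finset.mem_filter]
            refine ⟨hv, ?_⟩
            intro hvJ
            apply hself x (hC' hx) v
            rw [hfix x hx y hy1 v hvJ]
            exact hv
          · rw [Finset.mem_filter]
            exact ⟨hy1, rfl⟩
        calc (C'.filter (fun y => R x y)).card
            ≤ (((L x).filter (fun e => e.1 ∉ J)).biUnion
              (fun e => C'.filter (fun y => a y e.1 = e.2))).card := Finset.card_le_card hsub
          _ ≤ ((L x).filter (fun e => e.1 ∉ J)).card * m :=
              Finset.card_biUnion_le_card_mul _ _ _ (fun e he =>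
                hfib e.1 (Finset.mem_filter.mp he).2 e.2)
          _ ≤ r * m := by
              gcongr
              exact (Finset.card_le_card (Finset.filter_subset _ _)).trans (hL x (hC' hx))
      have h := indep C' R (r * m) A hout (by
        intro I hIC hind
        refine hI I (hIC.trans hC') ?_
        intro D hD D' hD' hne v hv
        exact hind D hD D' hD' hne ⟨v, hv⟩)
      calc C'.card ≤ A * (2 * (r * m) + 1) := h
        _ ≤ A * (2 * (r * m) + m) := by gcongr; omega
        _ = m * (A * (2 * r + 1)) := by ring
        _ = (A * (2 * r + 1)) ^ (s + 1) := by rw [hm, pow_succ]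
  exact main t ∅ C (by simp) (le_refl _) (by
    intro x _ y _ v hv
    exact absurd hv (Finset.notMem_empty v))

end Pool.Agent.UW
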