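import Pool.Agent.UW.Seg

/-!
Cutting and pasting: the windows of pairwise conflict-free inputs put into one path give as many
accepting paths of one input.
-/

set_option autoImplicit false

namespace Pool.Agent.UW

variable {E K S : Type}

theorem hybrid (B : NBP E K S) (A : ℕ) (hB : FewPaths B A) (q1 q2 : S) (ι : Type) (C : Finset ι)
    (x : ι → E → K) (w1 w2 w3 : ι → List (Option (E × Set K) × S))
    (h1 : ∀ D ∈ C, Seg B (x D) B.start (w1 D) q1) (h2 : ∀ D ∈ C, Seg B (x D) q1 (w2 D) q2)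
    (h3 : ∀ D ∈ C, Seg B (x D) q2 (w3 D) B.acc)
    (hinj : ∀ D ∈ C, ∀ D' ∈ C, w2 D = w2 D' → D = D')
    (hno : ∀ D ∈ C, ∀ D' ∈ C, D ≠ D' → ∀ e ∈ reads (w2 D), e ∈ reads (w1 D' ++ w2 D' ++ w3 D') →
      x D e = x D' e) : C.card ≤ A := by
  classical
  rcases C.eq_empty_or_nonempty with h0 | ⟨D0, hD0⟩
  · simp [h0]
  -- the joint input
  let J : E → K := fun e =>
    if h : ∃ D ∈ C, e ∈ reads (w2 D) then x h.choose e else x D0 e
  -- it agrees with `x D` at all entries read in the window of `D` or, for `D = D0`, anywhere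
  have hJ : ∀ D ∈ C, ∀ e, e ∈ reads (w1 D ++ w2 D ++ w3 D) → (∃ D' ∈ C, e ∈ reads (w2 D')) →
      J e = x D e := by
    intro D hD e he h
    have h' : J e = x h.choose e := dif_pos h
    rw [h']
    obtain ⟨hc1, hc2⟩ := h.choose_spec
    by_cases heq : h.choose = D
    · rw [heq]
    · exact hno _ hc1 D hD heq e hc2 he
  have hJ0 : ∀ e, e ∈ reads (w1 D0 ++ w2 D0 ++ w3 D0) → J e = x D0 e := by
    intro e he
    by_cases h : ∃ D' ∈ C, e ∈ reads (w2 D')
    · exact hJ D0 hD0 e he h
    · exact dif_neg h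
  have hacc : ∀ D ∈ C, AccPath B J (w1 D0 ++ (w2 D ++ w3 D0)) := by
    intro D hD
    refine (seg_append B J _ _ _ _).2 ⟨q1, ?_, (seg_append B J _ _ _ _).2 ⟨q2, ?_, ?_⟩⟩
    · refine seg_congr B (x D0) J _ _ _ (h1 D0 hD0) fun e he => (hJ0 e ?_).symm
      rw [reads_append, reads_append]
      exact Or.inl (Or.inl he)
    · refine seg_congr B (x D) J _ _ _ (h2 D hD) fun e he => (hJ D hD e ?_ ⟨D, hD, he⟩).symm
      rw [reads_append, reads_append]
      exact Or.inl (Or.inr he)
    · refine seg_congr B (x D0) J _ _ _ (h3 D0 hD0) fun e he => (hJ0 e ?_).symm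
      rw [reads_append, reads_append]
      exact Or.inr he
  have hcard : (C.image fun D => w1 D0 ++ (w2 D ++ w3 D0)).card = C.card := by
    refine Finset.card_image_of_injOn fun D hD D' hD' h => hinj D hD D' hD' ?_
    exact List.append_cancel_right (List.append_cancel_left h)
  have hsub : ((C.image fun D => w1 D0 ++ (w2 D ++ w3 D0) : Finset _) : Set _) ⊆
      {w | AccPath B J w} := by
    intro w hw
    obtain ⟨D, hD, rfl⟩ := Finset.mem_image.1 (Finset.mem_coe.1 hw)
    exact hacc D hD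
  have h4 := (Set.encard_le_encard hsub).trans (hB J)
  rw [Set.encard_coe_eq_coe_finsetCard, hcard] at h4
  exact_mod_cast h4

end Pool.Agent.UW
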