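import Pool.Agent.UW.Seg
import Pool.Agent.UW.Cauchy
import Pool.Agent.UW.Differ
import Pool.Agent.UW.Greedy
import Pool.Agent.UW.Hybrid
import Pool.Agent.UW.Values

namespace Pool.Agent.UW

open Finset

variable {S : Type}

/-- The labels of the nodes `Y` of level `i` replaced by `1`. -/
noncomputable def reset {l w p : ℕ} (D : Lab l w p) (i : Fin (l + 2)) (Y : Finset (Fin w)) : Lab l w p :=
  fun j v => if j = i ∧ v ∈ Y then 1 else D j v

/-- Number of labelings with label `1` on `Y`. -/
theorem card_resets {l w p : ℕ} [Fact p.Prime] (i : Fin (l + 2)) (Y : Finset (Fin w)) :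
    (univ.filter (fun D : Lab l w p => ∀ v ∈ Y, D i v = 1)).card * (p - 1) ^ Y.card =
      (p - 1) ^ ((l + 2) * w) := by
  classical
  have hset : (univ.filter (fun D : Lab l w p => ∀ v ∈ Y, D i v = 1)) =
      Fintype.piFinset (fun j => Fintype.piFinset (fun v =>
        if j = i ∧ v ∈ Y then ({1} : Finset (ZMod p)ˣ) else univ)) := by
    ext D
    simp only [mem_filter, mem_univ, true_and, Fintype.mem_piFinset]
    constructor
    · intro h j v
      by_cases hjv : j = i ∧ v ∈ Y
      · rw [if_pos hjv]
        obtain ⟨rfl, hv⟩ := hjv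
        simpa using h v hv
      · rw [if_neg hjv]; exact mem_univ _
    · intro h v hv
      have := h i v
      rw [if_pos ⟨rfl, hv⟩] at this
      simpa using this
  have hcard : Fintype.card (ZMod p)ˣ = p - 1 := ZMod.card_units p
  rw [hset, Fintype.card_piFinset]
  have h1 : ∀ j : Fin (l + 2), (Fintype.piFinset (fun v =>
        if j = i ∧ v ∈ Y then ({1} : Finset (ZMod p)ˣ) else univ)).card =
        if j = i then (p - 1) ^ (w - Y.card) else (p - 1) ^ w := by
    intro j
    rw [Fintype.card_piFinset]
    by_cases hj : j = i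
    · rw [if_pos hj]
      have : ∀ v : Fin w, (if j = i ∧ v ∈ Y then ({1} : Finset (ZMod p)ˣ) else univ).card =
          if v ∈ Y then 1 else (p - 1) := by
        intro v
        by_cases hv : v ∈ Y
        · rw [if_pos ⟨hj, hv⟩, if_pos hv]; rfl
        · rw [if_neg (fun h => hv h.2), if_neg hv, card_univ, hcard]
      rw [prod_congr rfl (fun v _ => this v), prod_ite, prod_const_one, one_mul, prod_const]
      congr 1
      have : (univ.filter (fun v : Fin w => ¬ v ∈ Y)) = Yᶜ := by
        ext v; simp
      rw [this, card_compl, Fintype.card_fin]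
    · rw [if_neg hj]
      have : ∀ v : Fin w, (if j = i ∧ v ∈ Y then ({1} : Finset (ZMod p)ˣ) else univ).card = p - 1 := by
        intro v
        rw [if_neg (fun h => hj h.1), card_univ, hcard]
      rw [prod_congr rfl (fun v _ => this v), prod_const, card_univ, Fintype.card_fin]
  rw [prod_congr rfl (fun j _ => h1 j), prod_ite, prod_const, prod_const]
  have h2 : (univ.filter (fun j : Fin (l + 2) => j = i)).card = 1 := by
    rw [filter_eq' univ i, if_pos (mem_univ i)]; rfl
  have h3 : (univ.filter (fun j : Fin (l + 2) => ¬ j = i)).card = l + 1 := by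
    have h4 := card_filter_add_card_filter_not (s := (univ : Finset (Fin (l + 2)))) (fun j => j = i)
    rw [h2, card_univ, Fintype.card_fin] at h4
    omega
  rw [h2, h3, pow_one]
  have hY : Y.card ≤ w := by
    simpa using card_le_univ Y
  rw [← pow_mul, mul_comm, ← mul_assoc, ← pow_add, ← pow_add]
  congr 1
  have : (l + 2) * w = w + w * (l + 1) := by ring
  omega

/-- The irrelevant entries of level `j` which a path reads. -/
noncomputable def irr {l w p : ℕ} [NeZero p] (D : Lab l w p) (j : Fin (l + 2))
    (π : List (Option (Entry l w p × Set (ZMod p)) × S)) : Finset (Fin w × ZMod p) := by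
  classical
  exact univ.filter (fun vb => (j, vb.1, vb.2) ∈ reads π \ relevant (inp D))

theorem irr_card {l w p : ℕ} [NeZero p] (D : Lab l w p) (j : Fin (l + 2))
    (π : List (Option (Entry l w p × Set (ZMod p)) × S)) (r : ℕ)
    (h : (reads π \ relevant (inp D)).encard ≤ r) : (irr D j π).card ≤ r := by
  classical
  have h1 : ((fun vb : Fin w × ZMod p => ((j, vb.1, vb.2) : Entry l w p)) ''
      (↑(irr D j π) : Set (Fin w × ZMod p))) ⊆ reads π \ relevant (inp D) := by
    rintro e ⟨vb, hvb, rfl⟩
    have : vb ∈ irr D j π := hvb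
    unfold irr at this
    exact (mem_filter.1 this).2
  have hinj : Function.Injective (fun vb : Fin w × ZMod p => ((j, vb.1, vb.2) : Entry l w p)) := by
    rintro ⟨a, b⟩ ⟨a', b'⟩ h
    simp only [Prod.mk.injEq] at h
    exact Prod.ext h.2.1 h.2.2
  have h2 := (Set.encard_le_encard h1).trans h
  rw [hinj.encard_image, Set.encard_coe_eq_coe_finsetCard] at h2
  exact_mod_cast h2

/-- One class has at most `(A (2 r + 1)) ^ t` labelings. -/
theorem class_card {l w p : ℕ} [Fact p.Prime] (hp : 2 * w ≤ p) (B : NBP (Entry l w p) (ZMod p) S)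
    (A r t : ℕ) (hA : 0 < A) (ht : t ≤ w) (hB : FewPaths B A) (q1 q2 : S) (i : Fin l) (Y : Finset (Fin w))
    (hY : Y.card = t)
    (C : Finset (Lab l w p)) (w1 w2 w3 : Lab l w p → List (Option (Entry l w p × Set (ZMod p)) × S))
    (hD : ∀ D ∈ C, ∀ D' ∈ C, ∀ j v, (j = i.castSucc.castSucc → v ∉ Y) → D j v = D' j v)
    (h1 : ∀ D ∈ C, Seg B (inp D) B.start (w1 D) q1) (h2 : ∀ D ∈ C, Seg B (inp D) q1 (w2 D) q2)
    (h3 : ∀ D ∈ C, Seg B (inp D) q2 (w3 D) B.acc)
    (hr : ∀ D ∈ C, (reads (w1 D ++ w2 D ++ w3 D) \ relevant (inp D)).encard ≤ r)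
    (hX : ∀ D ∈ C, ∃ T : Finset (Fin w), T.card = t ∧ ∀ v ∈ T,
      ((i.succ.castSucc, v, argD D i.succ.castSucc v) : Entry l w p) ∈ reads (w2 D))
    (hYn : ∀ D ∈ C, ∀ v ∈ Y,
      ((i.castSucc.castSucc, v, argD D i.castSucc.castSucc v) : Entry l w p) ∉ reads (w2 D)) :
    C.card ≤ (A * (2 * r + 1)) ^ t := by
  classical
  have hp0 : NeZero p := ⟨(Fact.out : p.Prime).ne_zero⟩
  have hlvl : i.succ.castSucc ≠ Fin.last (l + 1) := by
    intro h
    exact absurd h (Fin.castSucc_lt_last _).ne
  -- injectivity from the arguments of `t` nodes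
  have hinj : ∀ D ∈ C, ∀ D' ∈ C, ∀ T : Finset (Fin w), T.card = t →
      (∀ v ∈ T, argD D i.succ.castSucc v = argD D' i.succ.castSucc v) → D = D' := by
    intro D hDC D' hDC' T hT h
    have harg : ∀ (D : Lab l w p) v, argD D i.succ.castSucc v =
        ∑ u, M w p v u * (D i.castSucc.castSucc u : ZMod p) := fun D v => rfl
    have hc := cauchy hp T Y (by rw [hY, hT])
      (fun u => (D i.castSucc.castSucc u : ZMod p) - (D' i.castSucc.castSucc u : ZMod p)) (by
        intro u hu
        rw [hD D hDC D' hDC' _ u (fun _ => hu), sub_self]) (by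
        intro v hv
        have := h v hv
        rw [harg, harg] at this
        simp only [mul_sub, sum_sub_distrib, this, sub_self])
    funext j v
    by_cases hjv : j = i.castSucc.castSucc ∧ v ∈ Y
    · obtain ⟨rfl, hv⟩ := hjv
      have := congrFun hc v
      simp only [Pi.zero_apply, sub_eq_zero] at this
      exact Units.ext this
    · exact hD D hDC D' hDC' j v (fun hj hv => hjv ⟨hj, hv⟩)
  have hrel : ∀ (D : Lab l w p) (v : Fin w) (b : ZMod p),
      ((i.succ.castSucc, v, b) : Entry l w p) ∈ relevant (inp D) ↔ b = argD D i.succ.castSucc v := by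
    intro D v b
    constructor
    · rintro ⟨h, _⟩
      rw [← arg_inp D]
      exact h
    · intro h
      refine ⟨?_, fun h' => absurd h' hlvl⟩
      show b = arg (inp D) i.succ.castSucc v
      rw [arg_inp, h]
  refine greedy C (fun D v => argD D i.succ.castSucc v)
    (fun D => irr D i.succ.castSucc (w1 D ++ w2 D ++ w3 D)) r A t hA (by simpa using ht)
    (fun D hDC => irr_card D _ _ r (hr D hDC)) ?_ hinj ?_
  · intro D hDC v hv
    unfold irr at hv
    exact (mem_filter.1 hv).2.2 ((hrel D v _).2 rfl)
  · intro I hIC hI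
    refine hybrid B A hB q1 q2 (Lab l w p) I inp w1 w2 w3 (fun D h => h1 D (hIC h))
      (fun D h => h2 D (hIC h)) (fun D h => h3 D (hIC h)) ?_ ?_
    · intro D hDI D' hDI' heq
      obtain ⟨T, hT, hTr⟩ := hX D (hIC hDI)
      refine hinj D (hIC hDI) D' (hIC hDI') T hT (fun v hv => ?_)
      by_contra hne
      have hDD : D ≠ D' := by
        rintro rfl
        exact hne rfl
      refine hI D' hDI' D hDI (Ne.symm hDD) v ?_
      unfold irr
      refine mem_filter.2 ⟨mem_univ _, ?_, fun h => hne ((hrel D' v _).1 h)⟩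
      have := hTr v hv
      rw [heq] at this
      rw [reads_append, reads_append]
      exact Or.inl (Or.inr this)
    · intro D hDI D' hDI' hne e he he'
      by_contra hdiff
      rcases differ D D' i Y (hD D (hIC hDI) D' (hIC hDI')) e hdiff with ⟨ha, hb, hc⟩ | ⟨ha, hb, hc | hc⟩
      · obtain ⟨e1, e2, e3⟩ := e
        simp only at ha hb hc
        subst ha
        subst hc
        exact hYn D (hIC hDI) e2 hb he
      · obtain ⟨e1, e2, e3⟩ := e
        simp only at ha hb hc
        subst ha
        subst hc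
        refine hI D' hDI' D hDI (Ne.symm hne) e2 ?_
        unfold irr
        refine mem_filter.2 ⟨mem_univ _, he', fun h => hb ((hrel D' e2 _).1 h)⟩
      · obtain ⟨e1, e2, e3⟩ := e
        simp only at ha hb hc
        subst ha
        subst hc
        refine hI D hDI D' hDI' hne e2 ?_
        unfold irr
        refine mem_filter.2 ⟨mem_univ _, ?_, fun h => hb ((hrel D e2 _).1 h).symm⟩
        rw [reads_append, reads_append]
        exact Or.inl (Or.inr he)

end Pool.Agent.UW
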