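import Pool.Agent.UW.Class

namespace Pool.Agent.UW

open Finset

theorem class_count {l w p : ℕ} [Fact p.Prime] {S : Type} [Fintype S] (hp : 2 * w ≤ p)
    (B : NBP (Entry l w p) (ZMod p) S)
    (A r t : ℕ) (hA : 0 < A) (ht : t ≤ w) (hB : FewPaths B A)
    (G : Finset (Lab l w p)) (w1 w2 w3 : Lab l w p → List (Option (Entry l w p × Set (ZMod p)) × S))
    (q1 q2 : Lab l w p → S) (i : Lab l w p → Fin l) (Y : Lab l w p → Finset (Fin w))
    (hY : ∀ D ∈ G, (Y D).card = t)
    (h1 : ∀ D ∈ G, Seg B (inp D) B.start (w1 D) (q1 D))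
    (h2 : ∀ D ∈ G, Seg B (inp D) (q1 D) (w2 D) (q2 D))
    (h3 : ∀ D ∈ G, Seg B (inp D) (q2 D) (w3 D) B.acc)
    (hr : ∀ D ∈ G, (reads (w1 D ++ w2 D ++ w3 D) \ relevant (inp D)).encard ≤ r)
    (hX : ∀ D ∈ G, ∃ T : Finset (Fin w), T.card = t ∧ ∀ v ∈ T,
      (((i D).succ.castSucc, v, argD D (i D).succ.castSucc v) : Entry l w p) ∈ reads (w2 D))
    (hYn : ∀ D ∈ G, ∀ v ∈ Y D,
      (((i D).castSucc.castSucc, v, argD D (i D).castSucc.castSucc v) : Entry l w p) ∉ reads (w2 D)) :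
    G.card * (p - 1) ^ t ≤
      (Fintype.card S) ^ 2 * (l * w.choose t) * (A * (2 * r + 1)) ^ t * (p - 1) ^ ((l + 2) * w) := by
  classical
  set T0 : Finset (Fin l × Finset (Fin w)) := univ ×ˢ powersetCard t univ with hT0
  set T1 : Finset ((_ : Fin l × Finset (Fin w)) × Lab l w p) := T0.sigma
    (fun iY => univ.filter (fun D : Lab l w p => ∀ v ∈ iY.2, D iY.1.castSucc.castSucc v = 1)) with hT1
  set T : Finset ((S × S) × ((_ : Fin l × Finset (Fin w)) × Lab l w p)) := univ ×ˢ T1 with hT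
  set f : Lab l w p → (S × S) × ((_ : Fin l × Finset (Fin w)) × Lab l w p) := fun D =>
    ((q1 D, q2 D), ⟨(i D, Y D), reset D (i D).castSucc.castSucc (Y D)⟩) with hf
  have hmap : ∀ D ∈ G, f D ∈ T := by
    intro D hD
    refine mem_product.2 ⟨mem_univ _, mem_sigma.2 ⟨mem_product.2 ⟨mem_univ _, ?_⟩, ?_⟩⟩
    · exact mem_powersetCard.2 ⟨subset_univ _, hY D hD⟩
    · refine mem_filter.2 ⟨mem_univ _, fun v hv => ?_⟩
      show reset D (i D).castSucc.castSucc (Y D) (i D).castSucc.castSucc v = 1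
      unfold reset
      rw [if_pos ⟨rfl, hv⟩]
  have hfib : ∀ b ∈ T, (G.filter (fun D => f D = b)).card ≤ (A * (2 * r + 1)) ^ t := by
    rintro ⟨⟨a1, a2⟩, ⟨⟨j, Y0⟩, D0⟩⟩ hb
    have hY0 : Y0.card = t := by
      have := (mem_sigma.1 (mem_product.1 hb).2).1
      exact (mem_powersetCard.1 (mem_product.1 this).2).2
    have key : ∀ D ∈ G.filter (fun D => f D = ((a1, a2), ⟨(j, Y0), D0⟩)), D ∈ G ∧ q1 D = a1 ∧ q2 D = a2 ∧
        i D = j ∧ Y D = Y0 ∧ reset D j.castSucc.castSucc Y0 = D0 := by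
      intro D hD
      obtain ⟨hDG, hDf⟩ := mem_filter.1 hD
      have e1 : q1 D = a1 := congrArg (fun z => z.1.1) hDf
      have e2 : q2 D = a2 := congrArg (fun z => z.1.2) hDf
      have e3 : i D = j := congrArg (fun z => z.2.1.1) hDf
      have e4 : Y D = Y0 := congrArg (fun z => z.2.1.2) hDf
      have e5 : reset D (i D).castSucc.castSucc (Y D) = D0 := congrArg (fun z => z.2.2) hDf
      rw [e3, e4] at e5
      exact ⟨hDG, e1, e2, e3, e4, e5⟩
    refine class_card hp B A r t hA ht hB a1 a2 j Y0 hY0 _ w1 w2 w3 ?_ ?_ ?_ ?_ ?_ ?_ ?_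
    · intro D hD D' hD' k v hk
      obtain ⟨-, -, -, -, -, h⟩ := key D hD
      obtain ⟨-, -, -, -, -, h'⟩ := key D' hD'
      have := congrFun (congrFun (h.trans h'.symm) k) v
      unfold reset at this
      by_cases hkv : k = j.castSucc.castSucc ∧ v ∈ Y0
      · exact absurd hkv.2 (hk hkv.1)
      · rwa [if_neg hkv, if_neg hkv] at this
    · intro D hD
      obtain ⟨hG, e1, e2, e3, e4, -⟩ := key D hD
      rw [← e1]; exact h1 D hG
    · intro D hD
      obtain ⟨hG, e1, e2, e3, e4, -⟩ := key D hD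
      rw [← e1, ← e2]; exact h2 D hG
    · intro D hD
      obtain ⟨hG, e1, e2, e3, e4, -⟩ := key D hD
      rw [← e2]; exact h3 D hG
    · intro D hD
      exact hr D (key D hD).1
    · intro D hD
      obtain ⟨hG, e1, e2, e3, e4, -⟩ := key D hD
      rw [← e3]; exact hX D hG
    · intro D hD
      obtain ⟨hG, e1, e2, e3, e4, -⟩ := key D hD
      rw [← e3, ← e4]; exact hYn D hG
  have hle := card_le_mul_card_image_of_maps_to hmap _ hfib
  -- the number of classes
  have hT1c : T1.card * (p - 1) ^ t = (l * w.choose t) * (p - 1) ^ ((l + 2) * w) := by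
    rw [hT1, card_sigma, sum_mul]
    have : ∀ iY ∈ T0, (univ.filter (fun D : Lab l w p => ∀ v ∈ iY.2,
        D iY.1.castSucc.castSucc v = 1)).card * (p - 1) ^ t = (p - 1) ^ ((l + 2) * w) := by
      intro iY hiY
      have hc : iY.2.card = t := (mem_powersetCard.1 (mem_product.1 hiY).2).2
      have := card_resets (p := p) iY.1.castSucc.castSucc iY.2
      rwa [hc] at this
    rw [sum_congr rfl this, sum_const, smul_eq_mul, hT0, card_product, card_powersetCard, card_univ,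
      card_univ, Fintype.card_fin, Fintype.card_fin]
  have hTc : T.card = (Fintype.card S) ^ 2 * T1.card := by
    rw [hT, card_product, card_univ, Fintype.card_prod, sq]
  calc G.card * (p - 1) ^ t ≤ ((A * (2 * r + 1)) ^ t * T.card) * (p - 1) ^ t :=
        Nat.mul_le_mul_right _ hle
    _ = (Fintype.card S) ^ 2 * (A * (2 * r + 1)) ^ t * (T1.card * (p - 1) ^ t) := by
        rw [hTc]; ring
    _ = _ := by rw [hT1c]; ring

end Pool.Agent.UW
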