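import Pool.Agent.UW.Short

/-!
An accepting path can be shortened: loops are left out, the entries read become fewer.
-/

set_option autoImplicit false

namespace Pool.Agent.UW

variable {E K S : Type}

theorem simple_path [Fintype S] (B : NBP E K S) (x : E → K)
    (w : List (Option (E × Set K) × S)) (hw : AccPath B x w) :
    ∃ w', AccPath B x w' ∧ reads w' ⊆ reads w ∧ w'.length < Fintype.card S := by
  -- strong induction on the length
  suffices H : ∀ (n : ℕ) (w : List (Option (E × Set K) × S)), w.length = n → AccPath B x w →
      ∃ w', AccPath B x w' ∧ reads w' ⊆ reads w ∧ w'.length < Fintype.card S from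
    H _ w rfl hw
  intro n
  induction n using Nat.strong_induction_on with
  | _ n ih =>
    intro w hn hw
    by_cases hlen : w.length < Fintype.card S
    · exact ⟨w, hw, fun _ h => h, hlen⟩
    have hlen : Fintype.card S ≤ w.length := not_lt.1 hlen
    have hex : ∀ k : Fin (w.length + 1), ∃ m, Seg B x B.start (w.take k) m ∧
        Seg B x m (w.drop k) B.acc := by
      intro k
      refine (seg_append B x B.start _ _ B.acc).1 ?_
      rw [List.take_append_drop]
      exact hw
    choose m h1 h2 using hex
    obtain ⟨i, j, hij, hm⟩ := Fintype.exists_ne_map_eq_of_card_lt m (by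
      rw [Fintype.card_fin]
      omega)
    -- leave out the loop
    have key : ∀ i j : Fin (w.length + 1), i < j → m i = m j →
        ∃ w', AccPath B x w' ∧ reads w' ⊆ reads w ∧ w'.length < Fintype.card S := by
      intro i j hij hm
      have hij' : (i : ℕ) < j := hij
      have hj : (j : ℕ) ≤ w.length := Nat.lt_succ_iff.1 j.2
      have hacc : AccPath B x (w.take i ++ w.drop j) :=
        (seg_append B x B.start _ _ B.acc).2 ⟨m i, h1 i, hm ▸ h2 j⟩
      have hl : (w.take i ++ w.drop j).length < n := by
        rw [List.length_append, List.length_take, List.length_drop]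
        omega
      obtain ⟨w', h3, h4, h5⟩ := ih _ hl _ rfl hacc
      refine ⟨w', h3, fun e he => ?_, h5⟩
      obtain ⟨P, s, h⟩ := h4 he
      refine ⟨P, s, ?_⟩
      rcases List.mem_append.1 h with h | h
      · exact List.mem_of_mem_take h
      · exact List.mem_of_mem_drop h
    rcases lt_or_gt_of_ne hij with h | h
    · exact key i j h hm
    · exact key j i h hm.symm

end Pool.Agent.UW
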