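import Pool.Agent.UW.Window

/-!
Window lemma with two parameters: the window reads at least `t'` nodes of a level `i + 1` and misses
at least `t` nodes of the level `i`.
-/

namespace Pool.Agent.UW

theorem window2 {α : Type} {W : ℕ} (c : α → Option (ℕ × Fin W)) (t t' l : ℕ) (ht' : 0 < t')
    (hW : 2 * t' + t ≤ W) (s : List α) (hs : 2 * t' ≤ (seen c l s).card) (hlen : s.length < 2 ^ l) :
    ∃ i < l, ∃ s1 s2 s3, s = s1 ++ s2 ++ s3 ∧ t' ≤ (seen c (i + 1) s2).card ∧
      (seen c i s2).card ≤ W - t := by
  induction l generalizing s with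
  | zero =>
    exfalso
    have : s = [] := by
      have : s.length = 0 := by simpa using hlen
      exact List.length_eq_zero_iff.1 this
    rw [this, seen_nil] at hs
    simp at hs
    omega
  | succ l ih =>
    obtain ⟨a, b, e, ha, hb⟩ := exists_split c (l + 1) t' s hs
    by_cases h1 : (seen c l a).card ≤ W - t
    · exact ⟨l, Nat.lt_succ_self l, [], a, b, by rw [e]; simp, ha, h1⟩
    by_cases h2 : (seen c l b).card ≤ W - t
    · exact ⟨l, Nat.lt_succ_self l, a, b, [], by rw [e]; simp, hb, h2⟩
    have hl : a.length + b.length < 2 ^ (l + 1) := by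
      rw [← List.length_append, ← e]
      exact hlen
    have h2l : 2 ^ (l + 1) = 2 ^ l + 2 ^ l := by ring
    by_cases h3 : a.length < 2 ^ l
    · obtain ⟨i, hi, s1, s2, s3, e', h4, h5⟩ := ih a (by omega) h3
      refine ⟨i, by omega, s1, s2, s3 ++ b, ?_, h4, h5⟩
      rw [e, e']
      simp [List.append_assoc]
    · obtain ⟨i, hi, s1, s2, s3, e', h4, h5⟩ := ih b (by omega) (by omega)
      refine ⟨i, by omega, a ++ s1, s2, s3, ?_, h4, h5⟩
      rw [e, e']
      simp [List.append_assoc]

end Pool.Agent.UW
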