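import Pool.Agent.UW.Heavy
import Pool.Agent.UW.Count2
import Pool.Agent.UW.Window2
import Pool.Agent.UW.Simple

namespace Pool.Agent.UW

open Finset

/-- Accepted by a path of length `< card S` which reads `≤ r` irrelevant entries and `≥ 2 t` nodes of
level `l`. -/
def Heavy2 {l w p : ℕ} {S : Type} [Fintype S] (B : NBP (Entry l w p) (ZMod p) S) (r t : ℕ)
    (D : Lab l w p) : Prop :=
  ∃ π, AccPath B (inp D) π ∧ (reads π \ relevant (inp D)).encard ≤ r ∧
    π.length < Fintype.card S ∧ 2 * t ≤ (readAt D π).card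

theorem heavy_split2 {l w p : ℕ} [Fact p.Prime] {S : Type} [Fintype S]
    (B : NBP (Entry l w p) (ZMod p) S) (R r t : ℕ) (ht : 0 < t) (hw : 2 * (t + R) + t ≤ w)
    (hS : Fintype.card S ≤ 2 ^ l) (D : Lab l w p) (hD : Heavy2 B r (t + R) D) :
    ∃ (w1 w2 w3 : List (Option (Entry l w p × Set (ZMod p)) × S)) (q1 q2 : S) (i : Fin l)
      (Y : Finset (Fin w)), Y.card = t ∧ Seg B (inp D) B.start w1 q1 ∧ Seg B (inp D) q1 w2 q2 ∧
      Seg B (inp D) q2 w3 B.acc ∧ (reads (w1 ++ w2 ++ w3) \ relevant (inp D)).encard ≤ r ∧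
      (∃ T : Finset (Fin w), T.card = t + R ∧ ∀ v ∈ T,
        ((i.succ.castSucc, v, argD D i.succ.castSucc v) : Entry l w p) ∈ reads w2) ∧
      (∀ v ∈ Y, ((i.castSucc.castSucc, v, argD D i.castSucc.castSucc v) : Entry l w p) ∉ reads w2) := by
  classical
  obtain ⟨π, hacc, hr, hlen, hrd⟩ := hD
  have hseen : seen (col D) l π = readAt D π := by
    ext v
    have := mem_seen_col D (Fin.last l).castSucc π v
    have hl : (((Fin.last l).castSucc : Fin (l + 2)) : ℕ) = l := rfl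
    rw [hl] at this
    rw [this]
    unfold readAt
    simp
  obtain ⟨i, hil, s1, s2, s3, hs, h1, h2⟩ := window2 (col D) t (t + R) l (by omega) hw π (by rw [hseen]; exact hrd)
    (lt_of_lt_of_le hlen hS)
  subst hs
  obtain ⟨q2, h12, h3⟩ := (seg_append B (inp D) _ _ _ _).1 hacc
  obtain ⟨q1, hs1, hs2⟩ := (seg_append B (inp D) _ _ _ _).1 h12
  obtain ⟨T, hT, hTc⟩ := exists_subset_card_eq h1
  have hcompl : t ≤ ((seen (col D) i s2)ᶜ).card := by
    rw [card_compl, Fintype.card_fin]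
    omega
  obtain ⟨Y, hYs, hYc⟩ := exists_subset_card_eq hcompl
  refine ⟨s1, s2, s3, q1, q2, ⟨i, hil⟩, Y, hYc, hs1, hs2, h3, hr, ⟨T, hTc, fun v hv => ?_⟩, fun v hv hm => ?_⟩
  · exact (mem_seen_col D (Fin.succ ⟨i, hil⟩).castSucc s2 v).1 (hT hv)
  · have := (mem_seen_col D (Fin.castSucc ⟨i, hil⟩).castSucc s2 v).2 hm
    exact (mem_compl.1 (hYs hv)) this

theorem heavy_card2 {l w p : ℕ} [Fact p.Prime] {S : Type} [Fintype S] (hp : 2 * w ≤ p)
    (B : NBP (Entry l w p) (ZMod p) S) (A R r t : ℕ) (ht : 0 < t) (hw : 2 * (t + R) + t ≤ w)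
    (hB : FewWasteful B A R) (hS : Fintype.card S ≤ 2 ^ l) (G : Finset (Lab l w p))
    (hG : ∀ D ∈ G, Heavy2 B r (t + R) D) :
    G.card * (p - 1) ^ t ≤
      (Fintype.card S) ^ 2 * (l * w.choose t) * ((A + 1) * (2 * r + 1)) ^ t * (p - 1) ^ ((l + 2) * w) := by
  classical
  rcases G.eq_empty_or_nonempty with h0 | ⟨D0, hD0⟩
  · simp [h0]
  have key := fun D (hD : D ∈ G) => heavy_split2 B R r t ht hw hS D (hG D hD)
  obtain ⟨a1, a2, a3, b1, b2, i0, Y0, -⟩ := key D0 hD0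
  have : Nonempty S := ⟨b1⟩
  have : Nonempty (Fin l) := ⟨i0⟩
  choose! w1 w2 w3 q1 q2 i Y hh using key
  exact class_count2 hp B A R r t (by omega) hB G w1 w2 w3 q1 q2 i Y (fun D hD => (hh D hD).1)
    (fun D hD => (hh D hD).2.1) (fun D hD => (hh D hD).2.2.1) (fun D hD => (hh D hD).2.2.2.1)
    (fun D hD => (hh D hD).2.2.2.2.1) (fun D hD => (hh D hD).2.2.2.2.2.1)
    (fun D hD => (hh D hD).2.2.2.2.2.2)

end Pool.Agent.UW
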