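import Pool.Agent.UW.Count2
import Pool.Agent.UW.Heavy2

/-!
The class count with double counting over the sets of unread nodes (no loss of `w.choose t`).
-/

namespace Pool.Agent.UW

open Finset

theorem choose_half (w w' t : ℕ) (h : w ≤ 2 * w' + 1) (ht : 4 * t ≤ w) :
    w.choose t ≤ 3 ^ t * w'.choose t := by
  have h1 : w.descFactorial t ≤ 3 ^ t * w'.descFactorial t := by
    rw [Nat.descFactorial_eq_prod_range, Nat.descFactorial_eq_prod_range]
    calc ∏ i ∈ range t, (w - i) ≤ ∏ i ∈ range t, (3 * (w' - i)) := by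
          refine prod_le_prod' (fun i hi => ?_)
          have := mem_range.1 hi
          omega
      _ = 3 ^ t * ∏ i ∈ range t, (w' - i) := by
          rw [prod_mul_distrib, prod_const, card_range]
  rw [Nat.descFactorial_eq_factorial_mul_choose, Nat.descFactorial_eq_factorial_mul_choose] at h1
  have h2 : t.factorial * w.choose t ≤ t.factorial * (3 ^ t * w'.choose t) := by
    calc t.factorial * w.choose t ≤ 3 ^ t * (t.factorial * w'.choose t) := h1
      _ = _ := by ring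
  exact Nat.le_of_mul_le_mul_left h2 (Nat.factorial_pos t)

theorem class_count3 {l w p : ℕ} [Fact p.Prime] {S : Type} [Fintype S] (hp : 2 * w ≤ p)
    (B : NBP (Entry l w p) (ZMod p) S)
    (A R r t : ℕ) (ht : t ≤ w) (hB : FewWasteful B A R) (Y : Finset (Fin w)) (hY : Y.card = t)
    (G : Finset (Lab l w p)) (w1 w2 w3 : Lab l w p → List (Option (Entry l w p × Set (ZMod p)) × S))
    (q1 q2 : Lab l w p → S) (i : Lab l w p → Fin l)
    (h1 : ∀ D ∈ G, Seg B (inp D) B.start (w1 D) (q1 D))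
    (h2 : ∀ D ∈ G, Seg B (inp D) (q1 D) (w2 D) (q2 D))
    (h3 : ∀ D ∈ G, Seg B (inp D) (q2 D) (w3 D) B.acc)
    (hr : ∀ D ∈ G, (reads (w1 D ++ w2 D ++ w3 D) \ relevant (inp D)).encard ≤ r)
    (hX : ∀ D ∈ G, ∃ T : Finset (Fin w), T.card = t + R ∧ ∀ v ∈ T,
      (((i D).succ.castSucc, v, argD D (i D).succ.castSucc v) : Entry l w p) ∈ reads (w2 D))
    (hYn : ∀ D ∈ G, ∀ v ∈ Y,
      (((i D).castSucc.castSucc, v, argD D (i D).castSucc.castSucc v) : Entry l w p) ∉ reads (w2 D)) :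
    G.card * (p - 1) ^ t ≤
      (Fintype.card S) ^ 2 * l * ((A + 1) * (2 * r + 1)) ^ t * (p - 1) ^ ((l + 2) * w) := by
  classical
  set T1 : Finset ((_ : Fin l) × Lab l w p) := (univ : Finset (Fin l)).sigma
    (fun j => univ.filter (fun D : Lab l w p => ∀ v ∈ Y, D j.castSucc.castSucc v = 1)) with hT1
  set T : Finset ((S × S) × ((_ : Fin l) × Lab l w p)) := univ ×ˢ T1 with hT
  set f : Lab l w p → (S × S) × ((_ : Fin l) × Lab l w p) := fun D =>
    ((q1 D, q2 D), ⟨i D, reset D (i D).castSucc.castSucc Y⟩) with hf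
  have hmap : ∀ D ∈ G, f D ∈ T := by
    intro D hD
    refine mem_product.2 ⟨mem_univ _, mem_sigma.2 ⟨mem_univ _, ?_⟩⟩
    refine mem_filter.2 ⟨mem_univ _, fun v hv => ?_⟩
    show reset D (i D).castSucc.castSucc Y (i D).castSucc.castSucc v = 1
    unfold reset
    rw [if_pos ⟨rfl, hv⟩]
  have hfib : ∀ b ∈ T, (G.filter (fun D => f D = b)).card ≤ ((A + 1) * (2 * r + 1)) ^ t := by
    rintro ⟨⟨a1, a2⟩, ⟨j, D0⟩⟩ hb
    have key : ∀ D ∈ G.filter (fun D => f D = ((a1, a2), ⟨j, D0⟩)), D ∈ G ∧ q1 D = a1 ∧ q2 D = a2 ∧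
        i D = j ∧ reset D j.castSucc.castSucc Y = D0 := by
      intro D hD
      obtain ⟨hDG, hDf⟩ := mem_filter.1 hD
      have e1 : q1 D = a1 := congrArg (fun z => z.1.1) hDf
      have e2 : q2 D = a2 := congrArg (fun z => z.1.2) hDf
      have e3 : i D = j := congrArg (fun z => z.2.1) hDf
      have e5 : reset D (i D).castSucc.castSucc Y = D0 := congrArg (fun z => z.2.2) hDf
      rw [e3] at e5
      exact ⟨hDG, e1, e2, e3, e5⟩
    refine class_card2 hp B A R r t ht hB a1 a2 j Y hY _ w1 w2 w3 ?_ ?_ ?_ ?_ ?_ ?_ ?_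
    · intro D hD D' hD' k v hk
      obtain ⟨-, -, -, -, h⟩ := key D hD
      obtain ⟨-, -, -, -, h'⟩ := key D' hD'
      have := congrFun (congrFun (h.trans h'.symm) k) v
      unfold reset at this
      by_cases hkv : k = j.castSucc.castSucc ∧ v ∈ Y
      · exact absurd hkv.2 (hk hkv.1)
      · rwa [if_neg hkv, if_neg hkv] at this
    · intro D hD
      obtain ⟨hG, e1, e2, e3, -⟩ := key D hD
      rw [← e1]; exact h1 D hG
    · intro D hD
      obtain ⟨hG, e1, e2, e3, -⟩ := key D hD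
      rw [← e1, ← e2]; exact h2 D hG
    · intro D hD
      obtain ⟨hG, e1, e2, e3, -⟩ := key D hD
      rw [← e2]; exact h3 D hG
    · intro D hD
      exact hr D (key D hD).1
    · intro D hD
      obtain ⟨hG, e1, e2, e3, -⟩ := key D hD
      rw [← e3]; exact hX D hG
    · intro D hD
      obtain ⟨hG, e1, e2, e3, -⟩ := key D hD
      rw [← e3]; exact hYn D hG
  have hle := card_le_mul_card_image_of_maps_to hmap _ hfib
  have hT1c : T1.card * (p - 1) ^ t = l * (p - 1) ^ ((l + 2) * w) := by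
    rw [hT1, card_sigma, sum_mul]
    have : ∀ j ∈ (univ : Finset (Fin l)), (univ.filter (fun D : Lab l w p => ∀ v ∈ Y,
        D j.castSucc.castSucc v = 1)).card * (p - 1) ^ t = (p - 1) ^ ((l + 2) * w) := by
      intro j _
      have := card_resets (p := p) j.castSucc.castSucc Y
      rwa [hY] at this
    rw [sum_congr rfl this, sum_const, smul_eq_mul, card_univ, Fintype.card_fin]
  have hTc : T.card = (Fintype.card S) ^ 2 * T1.card := by
    rw [hT, card_product, card_univ, Fintype.card_prod, sq]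
  calc G.card * (p - 1) ^ t ≤ (((A + 1) * (2 * r + 1)) ^ t * T.card) * (p - 1) ^ t :=
        Nat.mul_le_mul_right _ hle
    _ = (Fintype.card S) ^ 2 * ((A + 1) * (2 * r + 1)) ^ t * (T1.card * (p - 1) ^ t) := by
        rw [hTc]; ring
    _ = _ := by rw [hT1c]; ring

theorem heavy_split3 {l w p : ℕ} [Fact p.Prime] {S : Type} [Fintype S]
    (B : NBP (Entry l w p) (ZMod p) S) (R r t : ℕ) (ht : 0 < t) (hw : 4 * (t + R) ≤ w)
    (hS : Fintype.card S ≤ 2 ^ l) (D : Lab l w p) (hD : Heavy2 B r (t + R) D) :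
    ∃ (w1 w2 w3 : List (Option (Entry l w p × Set (ZMod p)) × S)) (q1 q2 : S) (i : Fin l)
      (U : Finset (Fin w)), w ≤ 2 * U.card + 1 ∧ Seg B (inp D) B.start w1 q1 ∧ Seg B (inp D) q1 w2 q2 ∧
      Seg B (inp D) q2 w3 B.acc ∧ (reads (w1 ++ w2 ++ w3) \ relevant (inp D)).encard ≤ r ∧
      (∃ T : Finset (Fin w), T.card = t + R ∧ ∀ v ∈ T,
        ((i.succ.castSucc, v, argD D i.succ.castSucc v) : Entry l w p) ∈ reads w2) ∧
      (∀ v ∈ U, ((i.castSucc.castSucc, v, argD D i.castSucc.castSucc v) : Entry l w p) ∉ reads w2) := by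
  classical
  obtain ⟨π, hacc, hr, hlen, hrd⟩ := hD
  have hseen : seen (col D) l π = readAt D π := by
    ext v
    have := mem_seen_col D (Fin.last l).castSucc π v
    have hl : (((Fin.last l).castSucc : Fin (l + 2)) : ℕ) = l := rfl
    rw [hl] at this
    rw [this]
    unfold readAt
    simp
  obtain ⟨i, hil, s1, s2, s3, hs, h1, h2⟩ := window2 (col D) (w / 2) (t + R) l (by omega) (by omega) π
    (by rw [hseen]; exact hrd) (lt_of_lt_of_le hlen hS)
  subst hs
  obtain ⟨q2, h12, h3⟩ := (seg_append B (inp D) _ _ _ _).1 hacc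
  obtain ⟨q1, hs1, hs2⟩ := (seg_append B (inp D) _ _ _ _).1 h12
  obtain ⟨T, hT, hTc⟩ := exists_subset_card_eq h1
  refine ⟨s1, s2, s3, q1, q2, ⟨i, hil⟩, (seen (col D) i s2)ᶜ, ?_, hs1, hs2, h3, hr,
    ⟨T, hTc, fun v hv => ?_⟩, fun v hv hm => ?_⟩
  · rw [card_compl, Fintype.card_fin]
    omega
  · exact (mem_seen_col D (Fin.succ ⟨i, hil⟩).castSucc s2 v).1 (hT hv)
  · have := (mem_seen_col D (Fin.castSucc ⟨i, hil⟩).castSucc s2 v).2 hm
    exact (mem_compl.1 hv) this

end Pool.Agent.UW
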