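import Mathlib

/-!
Unambiguous nondeterministic branching programs and the evaluation of layered networks of tables.
-/

namespace Pool.Agent.UW

/-- A nondeterministic branching program with states `S` on inputs `x : E → K` (entries `E`, values
`K`): an edge with label `none` is free, an edge with label `some (e, P)` may be used if the value
`x e` of the entry `e` is in `P` (any predicate of one entry, such as one bit of it). -/
structure NBP (E K S : Type) where
  start : S
  acc : S
  edge : S → Option (E × Set K) → S → Prop

variable {E K S : Type}

/-- The label lets the input `x` pass. -/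
def Passes (x : E → K) : Option (E × Set K) → Prop
  | none => True
  | some (e, P) => x e ∈ P

/-- `Seg B x q w q'`: the list `w` (label of the edge, next state) is a path from `q` to `q'`, all of
whose edges may be used on input `x`. -/
def Seg (B : NBP E K S) (x : E → K) : S → List (Option (E × Set K) × S) → S → Prop
  | q, [], q' => q = q'
  | q, (l, s) :: w, q' => B.edge q l s ∧ Passes x l ∧ Seg B x s w q'

/-- `w` is an accepting path on input `x`. -/
def AccPath (B : NBP E K S) (x : E → K) (w : List (Option (E × Set K) × S)) : Prop :=
  Seg B x B.start w B.acc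

/-- Every input has at most `A` accepting paths. -/
def FewPaths (B : NBP E K S) (A : ℕ) : Prop :=
  ∀ x : E → K, {w | AccPath B x w}.encard ≤ A

/-- The entries which a path reads. -/
def reads (w : List (Option (E × Set K) × S)) : Set E :=
  {e | ∃ P s, (some (e, P), s) ∈ w}

/-- An entry: level (`0` at the bottom), node of the level, argument. -/
abbrev Entry (l w p : ℕ) : Type := Fin (l + 2) × Fin w × ZMod p

/-- Coefficients of the network: the Cauchy matrix `1 / (v - (w + u))` over `F_p`. -/
def M (w p : ℕ) (v u : Fin w) : ZMod p := (((v : ℕ) : ZMod p) - ((w + (u : ℕ) : ℕ) : ZMod p))⁻¹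

/-- The values of the nodes for the tables `x`: level `0` takes the entry with argument `0`, level
`i + 1` the entry whose argument is the sum of the values of level `i` with coefficients `M v u`. -/
def out {l w p : ℕ} (x : Entry l w p → ZMod p) (i : Fin (l + 2)) : Fin w → ZMod p :=
  Fin.induction (motive := fun _ => Fin w → ZMod p) (fun v => x (0, v, 0))
    (fun i prev v => x (i.succ, v, ∑ u, M w p v u * prev u)) i

/-- The argument of a node. -/
def arg {l w p : ℕ} (x : Entry l w p → ZMod p) (i : Fin (l + 2)) : Fin w → ZMod p :=
  Fin.cases (fun _ => 0) (fun i v => ∑ u, M w p v u * out x i.castSucc u) i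

/-- The relevant entries: the entries of the nodes of the levels `0, .., l` and of the root (node
`0` of the last level `l + 1`) at their arguments. -/
def relevant {l w p : ℕ} (x : Entry l w p → ZMod p) : Set (Entry l w p) :=
  {e | e.2.2 = arg x e.1 e.2.1 ∧ (e.1 = Fin.last (l + 1) → (e.2.1 : ℕ) = 0)}

/-- Every input has at most `A` accepting paths that read more than `R` different irrelevant
entries (and any number of others). -/
def FewWasteful {l w p : ℕ} {S : Type} (B : NBP (Entry l w p) (ZMod p) S) (A R : ℕ) : Prop :=
  ∀ x : Entry l w p → ZMod p,
    {π | AccPath B x π ∧ (R : ℕ∞) < (reads π \ relevant x).encard}.encard ≤ A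

/-- The value of the root is not `0`. -/
def Yes {l w p : ℕ} (x : Entry l w p → ZMod p) : Prop :=
  ∃ v : Fin w, (v : ℕ) = 0 ∧ out x (Fin.last (l + 1)) v ≠ 0

/-- `B` is right on `x`, reading at most `r` different irrelevant entries on some accepting path if
the value is not `0`. -/
def Right {l w p : ℕ} {S : Type} (B : NBP (Entry l w p) (ZMod p) S) (r : ℕ)
    (x : Entry l w p → ZMod p) : Prop :=
  (Yes x ∧ ∃ π, AccPath B x π ∧ (reads π \ relevant x).encard ≤ r) ∨
  (¬ Yes x ∧ ∀ π, ¬ AccPath B x π)

/-- Labelings of all nodes by elements `≠ 0`. -/
abbrev Lab (l w p : ℕ) : Type := Fin (l + 2) → Fin w → (ZMod p)ˣ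

/-- Argument of a node for a labeling. -/
def argD {l w p : ℕ} (D : Lab l w p) (i : Fin (l + 2)) : Fin w → ZMod p :=
  Fin.cases (fun _ => 0) (fun i v => ∑ u, M w p v u * (D i.castSucc u : ZMod p)) i

/-- The input of a labeling: the entry of every node at its argument is its label, all other entries
are `0`. -/
def inp {l w p : ℕ} (D : Lab l w p) : Entry l w p → ZMod p :=
  fun e => if e.2.2 = argD D e.1 e.2.1 then (D e.1 e.2.1 : ZMod p) else 0

/-- The same input with the table of node `v` of level `l` (below the root) replaced by `0`. -/
def bad {l w p : ℕ} (D : Lab l w p) (v : Fin w) : Entry l w p → ZMod p :=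
  fun e => if e.1 = (Fin.last l).castSucc ∧ e.2.1 = v then 0 else inp D e

end Pool.Agent.UW
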