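import Pool.Agent.UW.Defs

/-! Deterministic branching programs have at most one accepting path (helper14, for
UnambiguousWaste). -/

open Pool.Agent.UW
namespace Pool.Agent.UW
variable {E K S : Type}

private theorem det_seg (B : NBP E K S) (x : E → K)
    (hdet : ∀ q l s l' s', B.edge q l s → Passes x l → B.edge q l' s' → Passes x l' →
      l = l' ∧ s = s')
    (hacc : ∀ l s, ¬ B.edge B.acc l s) :
    ∀ (w w' : List (Option (E × Set K) × S)) (q : S), Seg B x q w B.acc → Seg B x q w' B.acc →
      w = w' := by
  intro w
  induction w with
  | nil =>
    intro w' q h h'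
    have hq : q = B.acc := h
    match w' with
    | [] => rfl
    | (l, s) :: w' =>
      rw [hq] at h'
      exact absurd h'.1 (hacc l s)
  | cons a w ih =>
    intro w' q h h'
    match a, w' with
    | (l, s), [] =>
      have hq : q = B.acc := h'
      rw [hq] at h
      exact absurd h.1 (hacc l s)
    | (l, s), (l', s') :: w' =>
      obtain ⟨h1, h2⟩ := hdet q l s l' s' h.1 h.2.1 h'.1 h'.2.1
      subst h1
      subst h2
      rw [ih w' s h.2.2 h'.2.2]

/-- If on every input every state has at most one edge which may be used, and no edge leaves the
accepting state, then every input has at most one accepting path. -/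
theorem det_few (B : NBP E K S)
    (hdet : ∀ (x : E → K) (q : S) (l : Option (E × Set K)) (s : S) (l' : Option (E × Set K))
      (s' : S), B.edge q l s → Passes x l → B.edge q l' s' → Passes x l' → l = l' ∧ s = s')
    (hacc : ∀ l s, ¬ B.edge B.acc l s) : FewPaths B 1 := by
  intro x
  have h : {w | AccPath B x w}.encard ≤ 1 := by
    rw [Set.encard_le_one_iff]
    intro w w' hw hw'
    exact det_seg B x (hdet x) hacc w w' B.start hw hw'
  exact_mod_cast h

end Pool.Agent.UW
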