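import Mathlib

/-! # The numbers of the counting argument -/

namespace Pool.Agent.UW

theorem choose_le (t : ℕ) : Nat.choose (128 * t) t ≤ 512 ^ t := by
  have h1 : Nat.choose (128 * t) t * (127 ^ 127) ^ t ≤ (128 ^ 128) ^ t := by
    have h := add_pow (1 : ℕ) 127 (128 * t)
    simp only [Nat.cast_id] at h
    have h2 : (1 : ℕ) ^ t * 127 ^ (128 * t - t) * Nat.choose (128 * t) t ≤
        ∑ m ∈ Finset.range (128 * t + 1), (1 : ℕ) ^ m * 127 ^ (128 * t - m) *
          Nat.choose (128 * t) m :=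
      Finset.single_le_sum (f := fun m => (1 : ℕ) ^ m * 127 ^ (128 * t - m) *
        Nat.choose (128 * t) m) (fun _ _ => Nat.zero_le _) (Finset.mem_range.2 (by omega))
    rw [← h] at h2
    have h3 : 128 * t - t = 127 * t := by omega
    rw [h3, one_pow, one_mul, pow_mul, pow_mul] at h2
    rw [mul_comm]
    exact h2
  have h2 : (128 : ℕ) ^ 128 ≤ 512 * 127 ^ 127 := by norm_num
  have h3 : Nat.choose (128 * t) t * (127 ^ 127) ^ t ≤ 512 ^ t * (127 ^ 127) ^ t := by
    rw [← mul_pow]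
    exact h1.trans (Nat.pow_le_pow_left h2 t)
  exact Nat.le_of_mul_le_mul_right h3 (by positivity)

/-- the proportion of the labelings with a bad window is at most `2 ^ (-t)` -/
theorem numbers (t A r p : ℕ) (ht : 0 < t) (h : 2 ^ 14 * A * (2 * r + 1) < p) :
    (t + 2) * 4 ^ t * Nat.choose (128 * t) t * (A * (2 * r + 1)) ^ t * 2 ^ t ≤ (p - 1) ^ t := by
  have h1 : t + 2 ≤ 4 ^ t := by
    obtain ⟨n, rfl⟩ : ∃ n, t = n + 1 := ⟨t - 1, by omega⟩
    clear ht
    induction n with
    | zero => norm_num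
    | succ n ih =>
      rw [pow_succ]
      omega
  calc (t + 2) * 4 ^ t * Nat.choose (128 * t) t * (A * (2 * r + 1)) ^ t * 2 ^ t
      ≤ 4 ^ t * 4 ^ t * 512 ^ t * (A * (2 * r + 1)) ^ t * 2 ^ t := by
        gcongr
        exact choose_le t
    _ = (2 ^ 14 * A * (2 * r + 1)) ^ t := by
        rw [← mul_pow, ← mul_pow, ← mul_pow, ← mul_pow]
        congr 1
        ring
    _ ≤ (p - 1) ^ t := Nat.pow_le_pow_left (by omega) t

end Pool.Agent.UW
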