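import Pool.Agent.UW.Heavy
import Pool.Agent.UW.Numbers
import Pool.Agent.UW.Values

namespace Pool.Agent.UW

open Finset

theorem nums (t A r p : ℕ) (h : 2 ^ 13 * A * (2 * r + 1) < p) :
    2 ^ t * ((2 ^ t) ^ 2 * (t * (128 * t).choose t) * (A * (2 * r + 1)) ^ t) ≤ (p - 1) ^ t := by
  have h1 : (128 * t).choose t ≤ 512 ^ t := choose_le t
  have h2 : t ≤ 2 ^ t := Nat.lt_two_pow_self.le
  calc 2 ^ t * ((2 ^ t) ^ 2 * (t * (128 * t).choose t) * (A * (2 * r + 1)) ^ t)
      ≤ 2 ^ t * ((2 ^ t) ^ 2 * (2 ^ t * 512 ^ t) * (A * (2 * r + 1)) ^ t) := by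
        gcongr
    _ = (2 ^ 13 * A * (2 * r + 1)) ^ t := by
        have : (2 ^ 13 * A * (2 * r + 1)) = 2 * (2 * 2) * (2 * 512) * (A * (2 * r + 1)) := by ring
        rw [this]
        simp only [mul_pow]
        ring
    _ ≤ (p - 1) ^ t := Nat.pow_le_pow_left (by omega) t

theorem card_lab {l w p : ℕ} [Fact p.Prime] : Fintype.card (Lab l w p) = (p - 1) ^ ((l + 2) * w) := by
  have hcard : Fintype.card (ZMod p)ˣ = p - 1 := ZMod.card_units p
  rw [Fintype.card_fun, Fintype.card_fun, hcard, Fintype.card_fin, Fintype.card_fin, ← pow_mul,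
    mul_comm w]

/-- The heavy labelings are at most a `2 ^ (-t)` part. -/
theorem heavy_small {t A r p W : ℕ} (hWdef : W = 128 * t) [Fact p.Prime] {S : Type} [Fintype S]
    (ht : 0 < t) (hp : 256 * t ≤ p) (hr : 2 ^ 13 * A * (2 * r + 1) < p)
    (B : NBP (Entry t W p) (ZMod p) S) (hS : Fintype.card S ≤ 2 ^ t) (hB : FewPaths B A)
    (G : Finset (Lab t W p)) (hG : ∀ D ∈ G, Heavy B r t D) :
    2 ^ t * G.card ≤ Fintype.card (Lab t W p) := by
  subst hWdef
  rcases Nat.eq_zero_or_pos A with hA | hA
  · subst hA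
    have : G = ∅ := by
      rw [eq_empty_iff_forall_notMem]
      intro D hD
      obtain ⟨π, hacc, -⟩ := hG D hD
      have h1 := hB (inp D)
      have h2 : {w | AccPath B (inp D) w} = ∅ := by
        simpa using h1
      have h3 : π ∈ {w | AccPath B (inp D) w} := hacc
      rw [h2] at h3
      exact h3
    simp [this]
  have h := heavy_card (by omega) B A r t hA ht (by omega) hB hS G hG
  have hpp : 0 < p - 1 := by
    have := (Fact.out : p.Prime).one_lt
    omega
  have h2 := nums t A r p hr
  rw [card_lab]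
  have h3 : (2 ^ t * G.card) * (p - 1) ^ t ≤ (p - 1) ^ ((t + 2) * (128 * t)) * (p - 1) ^ t := by
    calc (2 ^ t * G.card) * (p - 1) ^ t = 2 ^ t * (G.card * (p - 1) ^ t) := by ring
      _ ≤ 2 ^ t * ((Fintype.card S) ^ 2 * (t * (128 * t).choose t) * (A * (2 * r + 1)) ^ t *
            (p - 1) ^ ((t + 2) * (128 * t))) := Nat.mul_le_mul_left _ h
      _ ≤ 2 ^ t * ((2 ^ t) ^ 2 * (t * (128 * t).choose t) * (A * (2 * r + 1)) ^ t *
            (p - 1) ^ ((t + 2) * (128 * t))) := by
          gcongr
      _ = (2 ^ t * ((2 ^ t) ^ 2 * (t * (128 * t).choose t) * (A * (2 * r + 1)) ^ t)) *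
            (p - 1) ^ ((t + 2) * (128 * t)) := by ring
      _ ≤ (p - 1) ^ t * (p - 1) ^ ((t + 2) * (128 * t)) := Nat.mul_le_mul_right _ h2
      _ = _ := by ring
  exact Nat.le_of_mul_le_mul_right h3 (pow_pos hpp t)

/-- A path which does not read the relevant entry of node `v` of level `l` accepts `bad D v`. -/
theorem acc_bad {l w p : ℕ} {S : Type} (B : NBP (Entry l w p) (ZMod p) S) (D : Lab l w p)
    (π : List (Option (Entry l w p × Set (ZMod p)) × S)) (hacc : AccPath B (inp D) π) (v : Fin w)
    (hv : v ∉ readAt D π) : AccPath B (bad D v) π := by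
  classical
  refine seg_congr B (inp D) (bad D v) _ _ _ hacc (fun e he => ?_)
  unfold bad
  split_ifs with hif
  · obtain ⟨e1, e2, e3⟩ := e
    simp only at hif
    obtain ⟨h1, h2⟩ := hif
    subst h1
    subst h2
    unfold inp
    rw [if_neg]
    intro h3
    apply hv
    unfold readAt
    refine mem_filter.2 ⟨mem_univ _, ?_⟩
    simp only at h3
    rw [← h3]
    exact he
  · rfl

/-- Labelings accepted with at most `r` irrelevant entries read. -/
def Frugal {l w p : ℕ} {S : Type} (B : NBP (Entry l w p) (ZMod p) S) (r : ℕ) (D : Lab l w p) : Prop :=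
  ∃ π, AccPath B (inp D) π ∧ (reads π \ relevant (inp D)).encard ≤ r

theorem main_gen {t A r p W : ℕ} (hWdef : W = 128 * t) [Fact p.Prime] {S : Type} [Fintype S]
    (ht : 0 < t) (hp : 256 * t ≤ p) (hr : 2 ^ 13 * A * (2 * r + 1) < p)
    (B : NBP (Entry t W p) (ZMod p) S) (hS : Fintype.card S ≤ 2 ^ t) (hB : FewPaths B A) :
    (({ω : Lab t W p × Fin W × Bool |
        Right B r (if ω.2.2 then inp ω.1 else bad ω.1 ω.2.1)}.ncard : ℕ) : ℝ) ≤
      (1 / 2 + 1 / 128 + 1 / 2 ^ (t + 1)) *
        Nat.card (Lab t W p × Fin W × Bool) ∧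
    ((∀ x, ¬ Yes x → ∀ π, ¬ AccPath B x π) →
      (({D : Lab t W p | ∃ π, AccPath B (inp D) π ∧
        (reads π \ relevant (inp D)).encard ≤ r}.ncard : ℕ) : ℝ) ≤
      1 / 2 ^ t * Nat.card (Lab t W p)) := by
  classical
  have hp0 : NeZero p := ⟨(Fact.out : p.Prime).ne_zero⟩
  have hw : 0 < W := by omega
  set acc : Finset (Lab t W p) := univ.filter (fun D => Frugal B r D) with hacc
  set hv : Finset (Lab t W p) := univ.filter (fun D => Heavy B r t D) with hhv
  set lt : Finset (Lab t W p) := acc \ hv with hlt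
  have hheavy : 2 ^ t * hv.card ≤ Fintype.card (Lab t W p) :=
    heavy_small hWdef ht hp hr B hS hB hv (fun D hD => (mem_filter.1 hD).2)
  -- light labelings: the zeroed inputs are accepted
  have hlight : ∀ D ∈ lt, (univ.filter (fun v : Fin W => ∀ π, ¬ AccPath B (bad D v) π)).card ≤ 2 * t := by
    intro D hD
    obtain ⟨hD1, hD2⟩ := mem_sdiff.1 hD
    obtain ⟨π, hπ, hπr⟩ := (mem_filter.1 hD1).2
    have h1 : (readAt D π).card < 2 * t := by
      by_contra hcon
      exact hD2 (mem_filter.2 ⟨mem_univ _, π, hπ, hπr, not_lt.1 hcon⟩)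
    refine le_trans (card_le_card ?_) h1.le
    intro v hvv
    by_contra hvn
    exact (mem_filter.1 hvv).2 π (acc_bad B D π hπ v hvn)
  constructor
  · -- count
    have hset : {ω : Lab t W p × Fin W × Bool | Right B r (if ω.2.2 then inp ω.1 else bad ω.1 ω.2.1)} =
        ↑(univ.filter (fun ω : Lab t W p × Fin W × Bool =>
          Right B r (if ω.2.2 then inp ω.1 else bad ω.1 ω.2.1))) := by
      ext ω; simp
    rw [hset, Set.ncard_coe_finset]
    set R1 : Finset (Lab t W p × Fin W × Bool) := (acc ×ˢ (univ : Finset (Fin W))).image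
      (fun q => (q.1, q.2, true)) with hR1
    set R2 : Finset (Lab t W p × Fin W × Bool) := (ltᶜ ×ˢ (univ : Finset (Fin W))).image
      (fun q => (q.1, q.2, false)) with hR2
    set R3 : Finset (Lab t W p × Fin W × Bool) := (lt.sigma
      (fun D => univ.filter (fun v : Fin W => ∀ π, ¬ AccPath B (bad D v) π))).image
      (fun q => (q.1, q.2, false)) with hR3
    have hsub : (univ.filter (fun ω : Lab t W p × Fin W × Bool =>
          Right B r (if ω.2.2 then inp ω.1 else bad ω.1 ω.2.1))) ⊆ R1 ∪ R2 ∪ R3 := by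
      rintro ⟨D, v, b⟩ hω
      have hR := (mem_filter.1 hω).2
      cases b with
      | true =>
        simp only [if_true] at hR
        refine mem_union_left _ (mem_union_left _ (mem_image.2 ⟨(D, v), mem_product.2 ⟨?_, mem_univ _⟩, rfl⟩))
        rcases hR with ⟨_, h⟩ | ⟨h, _⟩
        · exact mem_filter.2 ⟨mem_univ _, h⟩
        · exact absurd (yes_inp hw D) h
      | false =>
        simp only [Bool.false_eq_true, if_false] at hR
        have hR' : ∀ π, ¬ AccPath B (bad D v) π := by
          rcases hR with ⟨h, _⟩ | ⟨_, h⟩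
          · exact absurd h (not_yes_bad (by omega) D v)
          · exact h
        by_cases hDl : D ∈ lt
        · exact mem_union_right _ (mem_image.2 ⟨⟨D, v⟩, mem_sigma.2 ⟨hDl, mem_filter.2 ⟨mem_univ _, hR'⟩⟩, rfl⟩)
        · exact mem_union_left _ (mem_union_right _ (mem_image.2 ⟨(D, v),
            mem_product.2 ⟨mem_compl.2 hDl, mem_univ _⟩, rfl⟩))
    have hc := card_le_card hsub
    have hc1 : R1.card ≤ acc.card * W := by
      refine card_image_le.trans ?_
      rw [card_product, card_univ, Fintype.card_fin]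
    have hc2 : R2.card ≤ (Fintype.card (Lab t W p) - lt.card) * W := by
      refine card_image_le.trans ?_
      rw [card_product, card_univ, Fintype.card_fin, card_compl]
    have hc3 : R3.card ≤ lt.card * (2 * t) := by
      refine card_image_le.trans ?_
      rw [card_sigma]
      exact (sum_le_card_nsmul _ _ _ hlight)
    have hc4 := (card_union_le (R1 ∪ R2) R3).trans (Nat.add_le_add_right (card_union_le R1 R2) _)
    have hacc2 : acc.card ≤ hv.card + lt.card := by
      have h1 : acc ⊆ hv ∪ lt := by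
        intro D hD
        by_cases h : D ∈ hv
        · exact mem_union_left _ h
        · exact mem_union_right _ (mem_sdiff.2 ⟨hD, h⟩)
      exact (card_le_card h1).trans (card_union_le _ _)
    have hltle : lt.card ≤ Fintype.card (Lab t W p) := card_le_univ lt
    have htot : Nat.card (Lab t W p × Fin W × Bool) = Fintype.card (Lab t W p) * (W * 2) := by
      rw [Nat.card_eq_fintype_card, Fintype.card_prod, Fintype.card_prod, Fintype.card_fin, Fintype.card_bool]
    rw [htot]
    set N := Fintype.card (Lab t W p) with hN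
    set F := univ.filter (fun ω : Lab t W p × Fin W × Bool =>
          Right B r (if ω.2.2 then inp ω.1 else bad ω.1 ω.2.1)) with hF
    have hnat : F.card ≤ (hv.card + lt.card) * W + (N - lt.card) * W + lt.card * (2 * t) := by
      calc F.card ≤ R1.card + R2.card + R3.card := hc.trans hc4
        _ ≤ acc.card * W + (N - lt.card) * W + lt.card * (2 * t) := by omega
        _ ≤ _ := by gcongr
    have hnat2 : F.card ≤ hv.card * W + N * W + N * (2 * t) := by
      have h5 : (hv.card + lt.card) * W + (N - lt.card) * W = hv.card * W + N * W := by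
        have : N = (N - lt.card) + lt.card := by omega
        calc (hv.card + lt.card) * W + (N - lt.card) * W =
            hv.card * W + ((N - lt.card) + lt.card) * W := by ring
          _ = _ := by rw [← this]
      have h6 : lt.card * (2 * t) ≤ N * (2 * t) := Nat.mul_le_mul_right _ hltle
      omega
    have hreal : (F.card : ℝ) ≤ hv.card * W + N * W + N * (2 * t) := by exact_mod_cast hnat2
    have hhr : (2 : ℝ) ^ t * hv.card ≤ N := by exact_mod_cast hheavy
    have hWr : (W : ℝ) = 128 * t := by rw [hWdef]; push_cast; ring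
    have h2t : (0 : ℝ) < 2 ^ t := by positivity
    have hhr' : (hv.card : ℝ) ≤ N / 2 ^ t := by
      rw [le_div_iff₀ h2t]; linarith
    have htr : (0 : ℝ) ≤ t := by positivity
    have hfin : (hv.card : ℝ) * W ≤ N / 2 ^ t * W := by
      apply mul_le_mul_of_nonneg_right hhr'
      rw [hWr]; positivity
    calc (F.card : ℝ) ≤ hv.card * W + N * W + N * (2 * t) := hreal
      _ ≤ N / 2 ^ t * W + N * W + N * (2 * t) := by linarith
      _ = (1 / 2 + 1 / 128 + 1 / 2 ^ (t + 1)) * ((N * (W * 2) : ℕ) : ℝ) := by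
        push_cast
        rw [hWr, pow_succ]
        field_simp
        ring
  · intro hsound
    have hset : {D : Lab t W p | ∃ π, AccPath B (inp D) π ∧
        (reads π \ relevant (inp D)).encard ≤ r} ⊆ ↑hv := by
      rintro D ⟨π, hπ, hπr⟩
      refine mem_coe.2 (mem_filter.2 ⟨mem_univ _, π, hπ, hπr, ?_⟩)
      have : readAt D π = univ := by
        rw [eq_univ_iff_forall]
        intro v
        by_contra hvn
        exact hsound _ (not_yes_bad (by omega) D v) π (acc_bad B D π hπ v hvn)
      rw [this, card_univ, Fintype.card_fin]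
      omega
    have h1 : ({D : Lab t W p | ∃ π, AccPath B (inp D) π ∧
        (reads π \ relevant (inp D)).encard ≤ r}.ncard : ℕ) ≤ hv.card := by
      have := Set.ncard_le_ncard hset (Set.toFinite _)
      rwa [Set.ncard_coe_finset] at this
    have hhr : (2 : ℝ) ^ t * hv.card ≤ Fintype.card (Lab t W p) := by exact_mod_cast hheavy
    have h2t : (0 : ℝ) < 2 ^ t := by positivity
    rw [Nat.card_eq_fintype_card, one_div, inv_mul_eq_div, le_div_iff₀ h2t]
    have h1r : (({D : Lab t W p | ∃ π, AccPath B (inp D) π ∧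
        (reads π \ relevant (inp D)).encard ≤ r}.ncard : ℕ) : ℝ) ≤ hv.card := by exact_mod_cast h1
    nlinarith

end Pool.Agent.UW
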