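import Mathlib

/-! # Numbers for wasteful programs -/

set_option autoImplicit false

namespace Pool.Agent.UW

/-- `C(w, t) t ^ t ≤ (3 w) ^ t` -/
theorem choose_mul_le (w t : ℕ) : w.choose t * t ^ t ≤ (3 * w) ^ t := by
  have h1 : t ^ t ≤ 3 ^ t * t.factorial := by
    have h2 := Real.pow_div_factorial_le_exp (t : ℝ) (Nat.cast_nonneg t) t
    have h3 : Real.exp (t : ℝ) ≤ 3 ^ t := by
      rw [← mul_one (t : ℝ), Real.exp_nat_mul]
      exact pow_le_pow_left₀ (Real.exp_pos _).le (Real.exp_one_lt_d9.le.trans (by norm_num)) t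
    have h4 : (0 : ℝ) < (t.factorial : ℝ) := by exact_mod_cast t.factorial_pos
    have h5 := (div_le_iff₀ h4).1 (h2.trans h3)
    exact_mod_cast h5
  calc w.choose t * t ^ t ≤ w.choose t * (3 ^ t * t.factorial) := Nat.mul_le_mul_left _ h1
    _ = 3 ^ t * w.descFactorial t := by
        rw [Nat.descFactorial_eq_factorial_mul_choose]
        ring
    _ ≤ 3 ^ t * w ^ t := Nat.mul_le_mul_left _ (Nat.descFactorial_le_pow w t)
    _ = (3 * w) ^ t := (mul_pow 3 w t).symm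

theorem numbers2 (t w Q p : ℕ) (ht : 0 < t) (h : 48 * w * Q ≤ t * (p - 1)) :
    2 ^ t * ((2 ^ t) ^ 2 * (t * w.choose t) * Q ^ t) ≤ (p - 1) ^ t := by
  refine Nat.le_of_mul_le_mul_left ?_ (pow_pos ht t)
  calc t ^ t * (2 ^ t * ((2 ^ t) ^ 2 * (t * w.choose t) * Q ^ t))
      = 2 ^ t * (2 ^ t) ^ 2 * t * (w.choose t * t ^ t) * Q ^ t := by ring
    _ ≤ 2 ^ t * (2 ^ t) ^ 2 * 2 ^ t * (3 * w) ^ t * Q ^ t := by
        gcongr
        · exact Nat.lt_two_pow_self.le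
        · exact choose_mul_le w t
    _ = (48 * w * Q) ^ t := by
        rw [show (2 : ℕ) ^ t * (2 ^ t) ^ 2 * 2 ^ t = (2 * 2 ^ 2 * 2) ^ t by
          rw [← pow_mul, mul_comm t 2, pow_mul, ← mul_pow, ← mul_pow]]
        rw [← mul_pow, ← mul_pow]
        congr 1
        ring
    _ ≤ (t * (p - 1)) ^ t := Nat.pow_le_pow_left h t
    _ = t ^ t * (p - 1) ^ t := mul_pow _ _ _

end Pool.Agent.UW
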