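import Pool.Agent.UW.TDefs

/-!
The problem GEN (generation by a binary operation) and the embedding of the networks.
-/

set_option autoImplicit false

namespace Pool.Agent.UW

/-- The elements generated by `b` under the operation `g`. -/
inductive Gen {X : Type} (g : X × X → X) (b : X) : X → Prop
  | base : Gen g b b
  | op (x y : X) : Gen g b x → Gen g b y → Gen g b (g (x, y))

/-- Pairs which do not consist of two generated elements (elements `0, .., n + 1`, base `0`). -/
def useless {n : ℕ} (g : Fin (n + 2) × Fin (n + 2) → Fin (n + 2)) : Set (Fin (n + 2) × Fin (n + 2)) :=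
  {q | ¬ (Gen g 0 q.1 ∧ Gen g 0 q.2)}

/-- On each input `g` at most `A` accepting trees read more than `R` different useless pairs. -/
def FewUseless {n : ℕ} {S : Type} (B : Prog (Fin (n + 2) × Fin (n + 2)) (Fin (n + 2)) S)
    (A R : ℕ) : Prop :=
  ∀ g, {T | AccTree B g T ∧ (R : ℕ∞) < (treads T ∩ useless g).encard}.encard ≤ A

/-- `B` is right on `g`: if `0` generates `1`, some accepting tree with less than `m` steps and forks
reads at most `r` different useless pairs; if not, there is no accepting tree. -/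
def RightGen {n : ℕ} {S : Type} (B : Prog (Fin (n + 2) × Fin (n + 2)) (Fin (n + 2)) S) (r m : ℕ)
    (g : Fin (n + 2) × Fin (n + 2) → Fin (n + 2)) : Prop :=
  (Gen g 0 1 ∧ ∃ T, AccTree B g T ∧ tsize T < m ∧ (treads T ∩ useless g).encard ≤ r) ∨
  (¬ Gen g 0 1 ∧ ∀ T, ¬ AccTree B g T)

/-! ### The embedding -/

/-- Elements: base, numbers of nodes, `lab i v z` = node `(i, v)` has value `z`, `par i v j s` = the
sum over `u ≤ j` for node `(i + 1, v)` is `s`, target. -/
inductive Elem (l w p : ℕ) : Type
  | b : Elem l w p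
  | c (v : Fin w) : Elem l w p
  | lab (i : Fin (l + 2)) (v : Fin w) (z : ZMod p) : Elem l w p
  | par (i : Fin (l + 1)) (v : Fin w) (j : Fin w) (s : ZMod p) : Elem l w p
  | top : Elem l w p
  deriving DecidableEq

open Classical in
/-- The operation of the tables `x`. -/
noncomputable def gop {l w p : ℕ} (x : Entry l w p → ZMod p) : Elem l w p × Elem l w p → Elem l w p
  | (.b, .b) => if h : 0 < w then .c ⟨0, h⟩ else .b
  | (.b, .c v) => if h : (v : ℕ) + 1 < w then .c ⟨v + 1, h⟩ else .b
  | (.c v, .c v') => if v = v' then .lab 0 v (x (0, v, 0)) else .b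
  | (.lab i u z, .c v) =>
      if h : (u : ℕ) = 0 ∧ (i : ℕ) < l + 1 ∧ ((i : ℕ) = l → (v : ℕ) = 0) then
        .par ⟨i, h.2.1⟩ v u (M w p v u * z) else .b
  | (.par i v j s, .lab i' u z) =>
      if (i : ℕ) = (i' : ℕ) ∧ (u : ℕ) = j + 1 then .par i v u (s + M w p v u * z) else .b
  | (.par i v j s, .par i' v' j' s') =>
      if i = i' ∧ v = v' ∧ j = j' ∧ s = s' ∧ (j : ℕ) + 1 = w then .lab i.succ v (x (i.succ, v, s)) else .b
  | (.lab i v z, .b) => if i = Fin.last (l + 1) ∧ (v : ℕ) = 0 ∧ z ≠ 0 then .top else .b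
  | _ => .b

/-- The generated elements. -/
def Good {l w p : ℕ} (x : Entry l w p → ZMod p) : Elem l w p → Prop
  | .b => True
  | .c _ => True
  | .lab i v z => z = out x i v ∧ (i = Fin.last (l + 1) → (v : ℕ) = 0)
  | .par i v j s => s = ∑ u ∈ Finset.univ.filter (fun u : Fin w => (u : ℕ) ≤ j),
      M w p v u * out x i.castSucc u ∧ ((i : ℕ) = l → (v : ℕ) = 0)
  | .top => Yes x

end Pool.Agent.UW
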