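import Pool.Agent.UW.GDefs

/-!
Generated elements are good: they carry right values.
-/

set_option autoImplicit false

namespace Pool.Agent.UW

private theorem outg_succ {l w p : ℕ} (x : Entry l w p → ZMod p) (i : Fin (l + 1)) (v : Fin w) :
    out x i.succ v = x (i.succ, v, ∑ u, M w p v u * out x i.castSucc u) := rfl

private theorem good_step {l w p : ℕ} (x : Entry l w p → ZMod p) (y z : Elem l w p)
    (hy : Good x y) (hz : Good x z) : Good x (gop x (y, z)) := by
  cases y with
  | b =>
    cases z with
    | b => dsimp only [gop]; split_ifs <;> trivial
    | c v => dsimp only [gop]; split_ifs <;> trivial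
    | lab i v z => trivial
    | par i v j s => trivial
    | top => trivial
  | c v =>
    cases z with
    | b => trivial
    | c v' =>
      dsimp only [gop]
      split_ifs
      · refine ⟨rfl, fun h => ?_⟩
        exact absurd (congrArg Fin.val h) (by simp)
      · trivial
    | lab i v z => trivial
    | par i v j s => trivial
    | top => trivial
  | lab i u a =>
    cases z with
    | b =>
      dsimp only [gop]
      split_ifs with h
      · obtain ⟨h1, h2, h3⟩ := h
        obtain ⟨h4, -⟩ := hy
        subst h1
        exact ⟨u, h2, fun h5 => h3 (h4.trans h5)⟩
      · trivial
    | c v =>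
      dsimp only [gop]
      split_ifs with h
      · obtain ⟨h4, -⟩ := hy
        refine ⟨?_, h.2.2⟩
        have h5 : (⟨(i : ℕ), h.2.1⟩ : Fin (l + 1)).castSucc = i := Fin.ext rfl
        have h6 : (Finset.univ.filter fun u' : Fin w => (u' : ℕ) ≤ u) = {u} := by
          ext u'
          simp only [Finset.mem_filter, Finset.mem_univ, true_and, Finset.mem_singleton]
          constructor
          · intro h7
            exact Fin.ext (by have := h.1; omega)
          · rintro rfl
            exact le_rfl
        rw [h6, Finset.sum_singleton, h5, h4]
      · trivial
    | lab i v z => trivial
    | par i v j s => trivial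
    | top => trivial
  | par i v j s =>
    cases z with
    | b => trivial
    | c v => trivial
    | lab i' u a =>
      dsimp only [gop]
      split_ifs with h
      · obtain ⟨h1, h2⟩ := h
        obtain ⟨h3, h4⟩ := hy
        obtain ⟨h5, -⟩ := hz
        have h6 : i.castSucc = i' := Fin.ext h1
        subst h6
        refine ⟨?_, h4⟩
        have h7 : (Finset.univ.filter fun u' : Fin w => (u' : ℕ) ≤ u) =
            insert u (Finset.univ.filter fun u' : Fin w => (u' : ℕ) ≤ j) := by
          ext u'
          simp only [Finset.mem_filter, Finset.mem_univ, true_and, Finset.mem_insert]
          constructor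
          · intro h7
            by_cases h8 : u' = u
            · exact Or.inl h8
            · refine Or.inr ?_
              have : (u' : ℕ) ≠ u := fun h9 => h8 (Fin.ext h9)
              omega
          · rintro (rfl | h7)
            · exact le_rfl
            · omega
        have h8 : u ∉ Finset.univ.filter fun u' : Fin w => (u' : ℕ) ≤ j := by
          simp only [Finset.mem_filter, Finset.mem_univ, true_and]
          omega
        rw [h7, Finset.sum_insert h8, h3, h5, add_comm]
      · trivial
    | par i' v' j' s' =>
      dsimp only [gop]
      split_ifs with h
      · obtain ⟨h1, h2, h3, h4, h5⟩ := h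
        obtain ⟨h6, h7⟩ := hy
        have h8 : (Finset.univ.filter fun u' : Fin w => (u' : ℕ) ≤ j) = Finset.univ := by
          ext u'
          simp only [Finset.mem_filter, Finset.mem_univ, true_and, iff_true]
          have := u'.isLt
          omega
        rw [h8] at h6
        refine ⟨?_, fun h9 => h7 ?_⟩
        · rw [outg_succ, h6]
        · have := congrArg Fin.val h9
          simp at this
          exact this
      · trivial
    | top => trivial
  | top =>
    cases z <;> trivial

/-- G2: every generated element is good. -/
theorem good_of_gen {l w p : ℕ} (x : Entry l w p → ZMod p) (y : Elem l w p)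
    (h : Gen (gop x) .b y) : Good x y := by
  induction h with
  | base => trivial
  | op y z _ _ hy hz => exact good_step x y z hy hz

end Pool.Agent.UW
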