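import Pool.Agent.UW.GDefs

set_option autoImplicit false

namespace Pool.Agent.UW

/-- An operation moved along a map. -/
noncomputable def push {X Y : Type} (e : X → Y) (g : X × X → X) (d : Y) : Y × Y → Y := by
  classical
  exact fun q => if h : ∃ ab : X × X, e ab.1 = q.1 ∧ e ab.2 = q.2 then e (g h.choose) else d

theorem push_apply {X Y : Type} (e : X → Y) (he : Function.Injective e) (g : X × X → X) (d : Y)
    (a b : X) : push e g d (e a, e b) = e (g (a, b)) := by
  have h : ∃ ab : X × X, e ab.1 = (e a, e b).1 ∧ e ab.2 = (e a, e b).2 := ⟨(a, b), rfl, rfl⟩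
  have h1 : push e g d (e a, e b) = e (g h.choose) := by
    unfold push
    exact dif_pos h
  have h2 : h.choose = (a, b) :=
    Prod.ext (he h.choose_spec.1) (he h.choose_spec.2)
  rw [h1, h2]

theorem push_of_not {X Y : Type} (e : X → Y) (g : X × X → X) (d : Y) (q : Y × Y)
    (h : ¬ ∃ ab : X × X, e ab.1 = q.1 ∧ e ab.2 = q.2) : push e g d q = d := by
  unfold push
  exact dif_neg h

theorem gen_push {X Y : Type} (e : X → Y) (he : Function.Injective e) (g : X × X → X) (b : X) (y : Y) :
    Gen (push e g (e b)) (e b) y ↔ ∃ a, e a = y ∧ Gen g b a := by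
  constructor
  · intro h
    induction h with
    | base => exact ⟨b, rfl, Gen.base⟩
    | op x y _ _ ih1 ih2 =>
      obtain ⟨a, rfl, ha⟩ := ih1
      obtain ⟨a', rfl, ha'⟩ := ih2
      exact ⟨g (a, a'), (push_apply e he g (e b) a a').symm, Gen.op a a' ha ha'⟩
  · rintro ⟨a, rfl, h⟩
    induction h with
    | base => exact Gen.base
    | op x y _ _ ih1 ih2 =>
      rw [← push_apply e he g (e b) x y]
      exact Gen.op _ _ ih1 ih2

end Pool.Agent.UW
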