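import Pool.Agent.UW.GFinal

set_option autoImplicit false

namespace Pool.Agent.UW

open Finset

theorem choose_params (t R A r n : ℕ) (ht : 0 < t)
    (hn : 2 ^ 25 * t * (t + R) ^ 2 * (t + R + (A + 1) * (r + 1)) ≤ n + 2) :
    ∃ w p : ℕ, p.Prime ∧ 128 * (t + R) ≤ w ∧ 2 * w ≤ p ∧ 48 * ((A + 1) * (2 * r + 1)) < p ∧
      2 + w + (t + 2) * w * p + (t + 1) * w * w * p ≤ n + 2 := by
  set T := t + R with hT
  set Q := T + (A + 1) * (r + 1) with hQ
  have hT1 : 1 ≤ T := by omega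
  have hQ1 : 1 ≤ Q := by omega
  obtain ⟨p, hp, hp1, hp2⟩ := Nat.exists_prime_lt_and_le_two_mul (256 * T + 96 * ((A + 1) * (r + 1)))
    (by omega)
  have hpQ : p ≤ 512 * Q := by
    rw [hQ]; omega
  refine ⟨128 * T, p, hp, le_refl _, by omega, ?_, ?_⟩
  · have : (A + 1) * (2 * r + 1) ≤ 2 * ((A + 1) * (r + 1)) := by
      have : (A + 1) * (2 * r + 1) ≤ (A + 1) * (2 * (r + 1)) := Nat.mul_le_mul_left _ (by omega)
      calc (A + 1) * (2 * r + 1) ≤ (A + 1) * (2 * (r + 1)) := this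
        _ = 2 * ((A + 1) * (r + 1)) := by ring
    omega
  · refine le_trans ?_ hn
    have e1 : (t + 2) * (128 * T) * p ≤ (3 * t) * (128 * T) * (512 * Q) := by
      gcongr
      omega
    have e2 : (t + 1) * (128 * T) * (128 * T) * p ≤ (2 * t) * (128 * T) * (128 * T) * (512 * Q) := by
      gcongr
      omega
    have h1 : t * T * Q ≤ t * T ^ 2 * Q := by
      have : T ≤ T ^ 2 := by nlinarith
      gcongr
    have h2 : T ≤ t * T * Q := by
      calc T = 1 * T * 1 := by ring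
        _ ≤ t * T * Q := by gcongr <;> omega
    have h3 : 2 ^ 25 * t * T ^ 2 * Q = 33554432 * (t * T ^ 2 * Q) := by ring
    have h4 : (3 * t) * (128 * T) * (512 * Q) = 196608 * (t * T * Q) := by ring
    have h5 : (2 * t) * (128 * T) * (128 * T) * (512 * Q) = 16777216 * (t * T ^ 2 * Q) := by ring
    rw [h3]
    rw [h4] at e1
    rw [h5] at e2
    omega

theorem gmain (t R A r n : ℕ) (ht : 0 < t)
    (hn : 2 ^ 25 * t * (t + R) ^ 2 * (t + R + (A + 1) * (r + 1)) ≤ n + 2) :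
    (∃ (Ω : Type) (_ : Fintype Ω) (_ : Nonempty Ω)
      (G : Ω → Fin (n + 2) × Fin (n + 2) → Fin (n + 2)),
      ∀ (S : Type) [Fintype S] (B : Prog (Fin (n + 2) × Fin (n + 2)) (Fin (n + 2)) S),
        Fintype.card S ≤ 2 ^ t → FewUseless B A R →
        (({ω | RightGen B r (2 ^ t) (G ω)}.ncard : ℕ) : ℝ) ≤
          (1 / 2 + 1 / 128 + 1 / 2 ^ (t + 1)) * Nat.card Ω) ∧
    (∃ (Ω : Type) (_ : Fintype Ω) (_ : Nonempty Ω)
      (G : Ω → Fin (n + 2) × Fin (n + 2) → Fin (n + 2)), (∀ ω, Gen (G ω) 0 1) ∧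
      ∀ (S : Type) [Fintype S] (B : Prog (Fin (n + 2) × Fin (n + 2)) (Fin (n + 2)) S),
        Fintype.card S ≤ 2 ^ t → FewUseless B A R →
        (∀ g, ¬ Gen g 0 1 → ∀ T, ¬ AccTree B g T) →
        (({ω | RightGen B r (2 ^ t) (G ω)}.ncard : ℕ) : ℝ) ≤ 1 / 2 ^ t * Nat.card Ω) := by
  classical
  obtain ⟨w, p, hp, hw, hpw, hr, hcard⟩ := choose_params t R A r n ht hn
  have hfact : Fact p.Prime := ⟨hp⟩
  have hp0 : NeZero p := ⟨hp.ne_zero⟩
  have hw0 : 0 < w := by omega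
  obtain ⟨e, he, h0, h1⟩ := exists_embed t w p n hcard
  refine ⟨⟨Lab t w p × Fin w × Bool, inferInstance, ⟨(fun _ _ => 1, ⟨0, hw0⟩, true)⟩,
    fun ω => ginst e (if ω.2.2 then inp ω.1 else bad ω.1 ω.2.1), ?_⟩,
    ⟨Lab t w p, inferInstance, ⟨fun _ _ => 1⟩, fun D => ginst e (inp D), ?_, ?_⟩⟩
  · intro S _ B hS hB
    have hm := (tmain ht hw hpw hr (pull e (ginst e) B) hS
      (fewWasteful_pull e he h0 B A R hB)).1
    refine le_trans ?_ hm
    have : {ω : Lab t w p × Fin w × Bool |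
        RightGen B r (2 ^ t) (ginst e (if ω.2.2 then inp ω.1 else bad ω.1 ω.2.1))} ⊆
        {ω : Lab t w p × Fin w × Bool |
        RightTree (pull e (ginst e) B) r (2 ^ t) (if ω.2.2 then inp ω.1 else bad ω.1 ω.2.1)} :=
      fun ω hω => right_pull e he h0 h1 B r (2 ^ t) _ hω
    exact_mod_cast Set.ncard_le_ncard this (Set.toFinite _)
  · intro D
    exact (gen_one e he h0 h1 _).2 (yes_inp hw0 D)
  · intro S _ B hS hB hsound
    have hm := (tmain ht hw hpw hr (pull e (ginst e) B) hS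
      (fewWasteful_pull e he h0 B A R hB)).2 (by
        intro x hx T' hT'
        obtain ⟨T, hT, _⟩ := run_pull (inst_ginst e he) B x _ T' hT'
        exact hsound _ (fun hg => hx ((gen_one e he h0 h1 x).1 hg)) T hT)
    refine le_trans ?_ hm
    have : {D : Lab t w p | RightGen B r (2 ^ t) (ginst e (inp D))} ⊆
        {D : Lab t w p | ∃ T, AccTree (pull e (ginst e) B) (inp D) T ∧ tsize T < 2 ^ t ∧
          (treads T \ relevant (inp D)).encard ≤ r} := by
      intro D hD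
      rcases right_pull e he h0 h1 B r (2 ^ t) _ hD with ⟨_, h⟩ | ⟨h, _⟩
      · exact h
      · exact absurd (yes_inp hw0 D) h
    exact_mod_cast Set.ncard_le_ncard this (Set.toFinite _)

end Pool.Agent.UW
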