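import Pool.Agent.UW.Seg
import Pool.Agent.UW.Values

/-!
A deterministic program which evaluates the network level by level: it reads relevant entries only,
has at most one accepting path for each input and `(l + 2) (w + 1) p ^ (2 w) + 1` states.
-/

namespace Pool.Agent.UW

variable {l w p : ℕ}

/-- The states of the program: level, number of nodes of the level which are done, values of the
level below, values of the nodes which are done; `none` is accepting. -/
abbrev TS (l w p : ℕ) : Type :=
  Option (Fin (l + 2) × Fin (w + 1) × (Fin w → ZMod p) × (Fin w → ZMod p))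

/-- Argument of the node `v` if the values of the level below are `f`. -/
def targ (f : Fin w → ZMod p) (v : Fin w) : ZMod p := ∑ u, M w p v u * f u

/-- The edges of the program. -/
def tedge : TS l w p → Option (Entry l w p × Set (ZMod p)) → TS l w p → Prop
  | none, _, _ => False
  | some (i, j, f, g), lab, s =>
    (∃ k : Fin (l + 1), i = k.castSucc ∧ ∃ v : Fin w, j = v.castSucc ∧ ∃ z : ZMod p,
      lab = some ((i, v, targ f v), {z}) ∧ s = some (i, v.succ, f, Function.update g v z)) ∨
    (∃ k : Fin (l + 1), i = k.castSucc ∧ j = Fin.last w ∧ lab = none ∧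
      s = some (k.succ, 0, g, fun _ => 0)) ∨
    (i = Fin.last (l + 1) ∧ j = 0 ∧ ∃ v : Fin w, (v : ℕ) = 0 ∧
      lab = some ((i, v, targ f v), {z | z ≠ 0}) ∧ s = none)

/-- The program. -/
def tprog (l w p : ℕ) : NBP (Entry l w p) (ZMod p) (TS l w p) where
  start := some (0, 0, fun _ => 0, fun _ => 0)
  acc := none
  edge := tedge

/-- The values of the level below. -/
def below (x : Entry l w p → ZMod p) (i : Fin (l + 2)) : Fin w → ZMod p :=
  Fin.cases (fun _ => 0) (fun i v => out x i.castSucc v) i

/-- The values of the first `j` nodes. -/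
def firsts (x : Entry l w p → ZMod p) (i : Fin (l + 2)) (j : Fin (w + 1)) : Fin w → ZMod p :=
  fun v => if (v : ℕ) < (j : ℕ) then out x i v else 0

theorem targ_below (x : Entry l w p → ZMod p) (i : Fin (l + 2)) (v : Fin w) :
    targ (below x i) v = arg x i v := by
  refine Fin.cases ?_ (fun i => ?_) i
  · simp [targ, below, arg]
  · simp [targ, below, arg]

theorem below_succ (x : Entry l w p → ZMod p) (k : Fin (l + 1)) :
    below x k.succ = firsts x k.castSucc (Fin.last w) := by
  funext v
  simp [below, firsts]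

theorem firsts_zero (x : Entry l w p → ZMod p) (i : Fin (l + 2)) : firsts x i 0 = fun _ => 0 := by
  funext v
  simp [firsts]

theorem firsts_succ (x : Entry l w p → ZMod p) (i : Fin (l + 2)) (v : Fin w) :
    Function.update (firsts x i v.castSucc) v (out x i v) = firsts x i v.succ := by
  funext u
  by_cases h : u = v
  · subst h
    simp [firsts]
  · rw [Function.update_of_ne h]
    have h1 : (u : ℕ) ≠ (v : ℕ) := fun h2 => h (Fin.ext h2)
    simp only [firsts, Fin.val_castSucc, Fin.val_succ]
    by_cases h2 : (u : ℕ) < v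
    · rw [if_pos h2, if_pos (by omega)]
    · rw [if_neg h2, if_neg (by omega)]

/-- The invariant: the state holds the true values. -/
def TInv (x : Entry l w p → ZMod p) : TS l w p → Prop
  | none => Yes x
  | some (i, j, f, g) => f = below x i ∧ g = firsts x i j

theorem inv_step (x : Entry l w p → ZMod p) (q : TS l w p)
    (lab : Option (Entry l w p × Set (ZMod p))) (s : TS l w p) (hq : TInv x q)
    (he : (tprog l w p).edge q lab s) (hp : Passes x lab) :
    TInv x s ∧ ∀ e P, lab = some (e, P) → e ∈ relevant x := by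
  rcases q with _ | ⟨i, j, f, g⟩
  · exact he.elim
  · obtain ⟨rfl, rfl⟩ := hq
    rcases he with ⟨k, rfl, v, rfl, z, rfl, rfl⟩ | ⟨k, rfl, rfl, rfl, rfl⟩ | ⟨rfl, rfl, v, hv, rfl, rfl⟩
    · have h1 : x (k.castSucc, v, targ (below x k.castSucc) v) = z := hp
      rw [targ_below, ← out_eq x] at h1
      subst h1
      refine ⟨⟨rfl, firsts_succ x _ v⟩, ?_⟩
      intro e P h
      have h2 : (k.castSucc, v, targ (below x k.castSucc) v) = e :=
        congrArg Prod.fst (Option.some.inj h)
      subst h2
      refine ⟨targ_below x _ v, fun h3 => ?_⟩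
      exact absurd h3 (Fin.castSucc_lt_last k).ne
    · refine ⟨⟨(below_succ x k).symm, (firsts_zero x _).symm⟩, ?_⟩
      intro e P h
      exact absurd h (by simp)
    · have h1 : x (Fin.last (l + 1), v, targ (below x (Fin.last (l + 1))) v) ≠ 0 := hp
      rw [targ_below, ← out_eq x] at h1
      refine ⟨⟨v, hv, h1⟩, ?_⟩
      intro e P h
      have h2 : (Fin.last (l + 1), v, targ (below x (Fin.last (l + 1))) v) = e :=
        congrArg Prod.fst (Option.some.inj h)
      subst h2
      exact ⟨targ_below x _ v, fun _ => hv⟩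

theorem inv_seg (x : Entry l w p → ZMod p) (π : List (Option (Entry l w p × Set (ZMod p)) × TS l w p))
    (q q' : TS l w p) (hq : TInv x q) (h : Seg (tprog l w p) x q π q') :
    TInv x q' ∧ reads π ⊆ relevant x := by
  induction π generalizing q with
  | nil =>
    have h1 : q = q' := h
    subst h1
    refine ⟨hq, ?_⟩
    rintro e ⟨P, s, hm⟩
    simp at hm
  | cons a π ih =>
    obtain ⟨lab, s⟩ := a
    obtain ⟨he, hp, h⟩ := h
    obtain ⟨h1, h2⟩ := inv_step x q lab s hq he hp
    obtain ⟨h3, h4⟩ := ih s h1 h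
    refine ⟨h3, ?_⟩
    rintro e ⟨P, s', hm⟩
    rcases List.mem_cons.1 hm with h5 | h5
    · exact h2 e P (congrArg Prod.fst h5).symm
    · exact h4 ⟨P, s', h5⟩

/-- The state with the true values. -/
def tst (x : Entry l w p → ZMod p) (i : Fin (l + 2)) (j : Fin (w + 1)) : TS l w p :=
  some (i, j, below x i, firsts x i j)

theorem level_seg (x : Entry l w p → ZMod p) (k : Fin (l + 1)) (j : Fin (w + 1)) :
    ∃ π, Seg (tprog l w p) x (tst x k.castSucc 0) π (tst x k.castSucc j) := by
  induction j using Fin.induction with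
  | zero => exact ⟨[], rfl⟩
  | succ v ih =>
    obtain ⟨π, h⟩ := ih
    refine ⟨π ++ [(some ((k.castSucc, v, targ (below x k.castSucc) v), {out x k.castSucc v}),
      tst x k.castSucc v.succ)], (seg_append _ _ _ _ _ _).2 ⟨_, h, ?_, ?_, rfl⟩⟩
    · refine Or.inl ⟨k, rfl, v, rfl, out x k.castSucc v, rfl, ?_⟩
      rw [firsts_succ]
      rfl
    · show x (k.castSucc, v, targ (below x k.castSucc) v) ∈ ({out x k.castSucc v} : Set (ZMod p))
      rw [targ_below, ← out_eq x]
      rfl

theorem levels_seg (x : Entry l w p → ZMod p) (i : Fin (l + 2)) :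
    ∃ π, Seg (tprog l w p) x (tst x 0 0) π (tst x i 0) := by
  induction i using Fin.induction with
  | zero => exact ⟨[], rfl⟩
  | succ k ih =>
    obtain ⟨π, h⟩ := ih
    obtain ⟨π', h'⟩ := level_seg x k (Fin.last w)
    refine ⟨(π ++ π') ++ [(none, tst x k.succ 0)], (seg_append _ _ _ _ _ _).2
      ⟨_, (seg_append _ _ _ _ _ _).2 ⟨_, h, h'⟩, ?_, trivial, rfl⟩⟩
    refine Or.inr (Or.inl ⟨k, rfl, rfl, rfl, ?_⟩)
    rw [tst, below_succ, firsts_zero]

theorem acc_exists (x : Entry l w p → ZMod p) (h : Yes x) : ∃ π, AccPath (tprog l w p) x π := by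
  obtain ⟨v, hv, h0⟩ := h
  obtain ⟨π, hπ⟩ := levels_seg x (Fin.last (l + 1))
  have hs : (tprog l w p).start = tst x 0 0 := by
    show some _ = some _
    rw [firsts_zero]
    rfl
  refine ⟨π ++ [(some ((Fin.last (l + 1), v, targ (below x (Fin.last (l + 1))) v), {z | z ≠ 0}), none)],
    ?_⟩
  unfold AccPath
  rw [hs]
  refine (seg_append _ _ _ _ _ _).2 ⟨_, hπ, ?_, ?_, rfl⟩
  · exact Or.inr (Or.inr ⟨rfl, rfl, v, hv, rfl, rfl⟩)
  · show x (Fin.last (l + 1), v, targ (below x (Fin.last (l + 1))) v) ∈ {z : ZMod p | z ≠ 0}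
    rw [targ_below, ← out_eq x]
    exact h0

theorem tdet (x : Entry l w p → ZMod p) (q : TS l w p) (lab lab' : Option (Entry l w p × Set (ZMod p)))
    (s s' : TS l w p) (h : (tprog l w p).edge q lab s) (hp : Passes x lab)
    (h' : (tprog l w p).edge q lab' s') (hp' : Passes x lab') : lab = lab' ∧ s = s' := by
  rcases q with _ | ⟨i, j, f, g⟩
  · exact h.elim
  · rcases h with ⟨k, rfl, v, rfl, z, rfl, rfl⟩ | ⟨k, rfl, rfl, rfl, rfl⟩ | ⟨rfl, rfl, v, hv, rfl, rfl⟩
    · rcases h' with ⟨k', hk, v', hv', z', rfl, rfl⟩ | ⟨k', hk, hj, rfl, rfl⟩ | ⟨hk, hj, v', hv', rfl, rfl⟩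
      · have e1 : v = v' := Fin.castSucc_injective _ hv'
        subst e1
        have e2 : x (k.castSucc, v, targ f v) = z := hp
        have e3 : x (k.castSucc, v, targ f v) = z' := hp'
        have e4 : z = z' := e2.symm.trans e3
        subst e4
        exact ⟨rfl, rfl⟩
      · exact absurd hj (Fin.castSucc_lt_last v).ne
      · exact absurd hk (Fin.castSucc_lt_last k).ne
    · rcases h' with ⟨k', hk, v', hv', z', rfl, rfl⟩ | ⟨k', hk, hj, rfl, rfl⟩ | ⟨hk, hj, v', hv', rfl, rfl⟩
      · exact absurd hv'.symm (Fin.castSucc_lt_last v').ne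
      · have e1 : k = k' := Fin.castSucc_injective _ hk
        subst e1
        exact ⟨rfl, rfl⟩
      · exact absurd hk (Fin.castSucc_lt_last k).ne
    · rcases h' with ⟨k', hk, v', hv', z', rfl, rfl⟩ | ⟨k', hk, hj, rfl, rfl⟩ | ⟨hk, hj, v', hv', rfl, rfl⟩
      · exact absurd hk.symm (Fin.castSucc_lt_last k').ne
      · exact absurd hk.symm (Fin.castSucc_lt_last k').ne
      · have e1 : v = v' := Fin.ext (hv.trans hv'.symm)
        subst e1
        exact ⟨rfl, rfl⟩

theorem tuniq (x : Entry l w p → ZMod p) (π π' : List (Option (Entry l w p × Set (ZMod p)) × TS l w p))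
    (q : TS l w p) (h : Seg (tprog l w p) x q π none) (h' : Seg (tprog l w p) x q π' none) :
    π = π' := by
  induction π generalizing q π' with
  | nil =>
    have h1 : q = none := h
    subst h1
    cases π' with
    | nil => rfl
    | cons a π' => exact h'.1.elim
  | cons a π ih =>
    obtain ⟨lab, s⟩ := a
    cases π' with
    | nil =>
      have h1 : q = none := h'
      subst h1
      exact h.1.elim
    | cons b π' =>
      obtain ⟨lab', s'⟩ := b
      obtain ⟨he, hp, h⟩ := h
      obtain ⟨he', hp', h'⟩ := h'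
      obtain ⟨rfl, rfl⟩ := tdet x q lab lab' s s' he hp he' hp'
      rw [ih π' s h h']

theorem tcard (l w p : ℕ) [NeZero p] :
    Fintype.card (TS l w p) = (l + 2) * (w + 1) * p ^ (2 * w) + 1 := by
  rw [Fintype.card_option, Fintype.card_prod, Fintype.card_prod, Fintype.card_prod, Fintype.card_fin,
    Fintype.card_fin, Fintype.card_fun, Fintype.card_fin, ZMod.card]
  ring

/-- Nothing need be wasted if the number of states is `(l + 2) (w + 1) p ^ (2 w) + 1`. -/
theorem thrifty (l w p : ℕ) [Fact p.Prime] (_hw : 0 < w) :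
    ∃ (S : Type) (_ : Fintype S) (B : NBP (Entry l w p) (ZMod p) S),
      Fintype.card S ≤ (l + 2) * (w + 1) * p ^ (2 * w) + 1 ∧ FewPaths B 1 ∧
      ∀ x, (Yes x → ∃ π, AccPath B x π ∧ reads π ⊆ relevant x) ∧ (¬ Yes x → ∀ π, ¬ AccPath B x π) := by
  have h0 : ∀ x : Entry l w p → ZMod p, TInv x (tprog l w p).start := by
    intro x
    exact ⟨rfl, (firsts_zero x 0).symm⟩
  refine ⟨TS l w p, inferInstance, tprog l w p, (tcard l w p).le, ?_, ?_⟩
  · intro x
    have h1 : {π | AccPath (tprog l w p) x π}.encard ≤ 1 :=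
      Set.encard_le_one_iff.2 fun a b ha hb => tuniq x a b _ ha hb
    simpa using h1
  · intro x
    constructor
    · intro h
      obtain ⟨π, hπ⟩ := acc_exists x h
      exact ⟨π, hπ, (inv_seg x π _ _ (h0 x) hπ).2⟩
    · intro h π hπ
      exact h (inv_seg x π _ _ (h0 x) hπ).1

end Pool.Agent.UW
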