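import Pool.Agent.UW.TDefs
import Pool.Agent.UW.Thrifty

/-!
Programs without forks: their accepting trees are the accepting paths.
-/

set_option autoImplicit false

namespace Pool.Agent.UW

variable {E K S : Type}

/-- A program without forks. -/
def ofNBP (B : NBP E K S) : Prog E K S := ⟨B.start, B.acc, B.edge, fun _ _ _ => False⟩

/-- The tree of a path. -/
def ofPath (w : List (Option (E × Set K) × S)) : Tree E K S :=
  w.foldr (fun a T => .step a.1 a.2 T) .stop

@[simp] theorem ofPath_nil : ofPath ([] : List (Option (E × Set K) × S)) = .stop := rfl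

@[simp] theorem ofPath_cons (a : Option (E × Set K) × S) (w : List (Option (E × Set K) × S)) :
    ofPath (a :: w) = .step a.1 a.2 (ofPath w) := rfl

theorem run_ofPath (B : NBP E K S) (x : E → K) (q : S) (w : List (Option (E × Set K) × S)) :
    Run (ofNBP B) x q (ofPath w) ↔ Seg B x q w B.acc := by
  induction w generalizing q with
  | nil => exact Iff.rfl
  | cons a w ih =>
    obtain ⟨l, s⟩ := a
    rw [ofPath_cons]
    change (B.edge q l s ∧ Passes x l ∧ Run (ofNBP B) x s (ofPath w)) ↔
      (B.edge q l s ∧ Passes x l ∧ Seg B x s w B.acc)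
    rw [ih s]

theorem treads_ofPath (w : List (Option (E × Set K) × S)) : treads (ofPath w) = reads w := by
  induction w with
  | nil =>
    ext e
    constructor
    · intro h
      exact h.elim
    · rintro ⟨P, s, h⟩
      exact absurd h List.not_mem_nil
  | cons a w ih =>
    obtain ⟨l, s⟩ := a
    rw [ofPath_cons]
    change lread l ∪ treads (ofPath w) = _
    rw [ih]
    ext e
    constructor
    · rintro (h | ⟨P, s', h⟩)
      · rcases l with _ | ⟨e', P⟩
        · exact h.elim
        · have h1 : e = e' := h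
          subst h1
          exact ⟨P, s, List.mem_cons_self⟩
      · exact ⟨P, s', List.mem_cons_of_mem _ h⟩
    · rintro ⟨P, s', h⟩
      rcases List.mem_cons.1 h with h1 | h1
      · obtain ⟨h2, h3⟩ := Prod.mk.inj h1
        subst h2
        exact Or.inl rfl
      · exact Or.inr ⟨P, s', h1⟩

theorem tsize_ofPath (w : List (Option (E × Set K) × S)) : tsize (ofPath w) = w.length := by
  induction w with
  | nil => rfl
  | cons a w ih =>
    rw [ofPath_cons, List.length_cons, ← ih]
    rfl

theorem ofPath_inj : Function.Injective (ofPath : List (Option (E × Set K) × S) → Tree E K S) := by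
  intro w
  induction w with
  | nil =>
    intro w' h
    cases w' with
    | nil => rfl
    | cons a w' => exact absurd h (by simp)
  | cons a w ih =>
    intro w' h
    cases w' with
    | nil => exact absurd h (by simp)
    | cons a' w' =>
      rw [ofPath_cons, ofPath_cons] at h
      obtain ⟨h1, h2, h3⟩ := Tree.step.inj h
      rw [ih h3, Prod.ext h1 h2]

theorem run_ofNBP (B : NBP E K S) (x : E → K) (q : S) (T : Tree E K S)
    (h : Run (ofNBP B) x q T) :
    ∃ w : List (Option (E × Set K) × S), T = ofPath w ∧ Seg B x q w B.acc := by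
  induction T generalizing q with
  | stop => exact ⟨[], rfl, h⟩
  | step l s T ih =>
    obtain ⟨h1, h2, h3⟩ := h
    obtain ⟨w, h4, h5⟩ := ih s h3
    exact ⟨(l, s) :: w, by rw [ofPath_cons, h4], h1, h2, h5⟩
  | fork s s' T T' _ _ => exact h.1.elim

theorem accTree_ofNBP (B : NBP E K S) (x : E → K) :
    {T | AccTree (ofNBP B) x T} = ofPath '' {w | AccPath B x w} := by
  ext T
  constructor
  · intro h
    obtain ⟨w, h1, h2⟩ := run_ofNBP B x _ T h
    exact ⟨w, h2, h1.symm⟩
  · rintro ⟨w, h, rfl⟩
    exact (run_ofPath B x _ w).2 h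

/-- A thrifty program without forks, with at most one accepting tree on each input. -/
theorem thrifty_tree (l w p : ℕ) [Fact p.Prime] (hw : 0 < w) :
    ∃ (S : Type) (_ : Fintype S) (B : Prog (Entry l w p) (ZMod p) S),
      Fintype.card S ≤ (l + 2) * (w + 1) * p ^ (2 * w) + 1 ∧
      (∀ x, {T | AccTree B x T}.encard ≤ 1) ∧ (∀ q s s', ¬ B.fork q s s') ∧
      ∀ x, (Yes x → ∃ T, AccTree B x T ∧ treads T ⊆ relevant x) ∧
        (¬ Yes x → ∀ T, ¬ AccTree B x T) := by
  obtain ⟨S, hS, B, h1, h2, h3⟩ := thrifty l w p hw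
  refine ⟨S, hS, ofNBP B, h1, fun x => ?_, fun _ _ _ h => h, fun x => ⟨fun hx => ?_, ?_⟩⟩
  · rw [accTree_ofNBP, ofPath_inj.encard_image]
    exact h2 x
  · obtain ⟨π, h4, h5⟩ := (h3 x).1 hx
    refine ⟨ofPath π, (run_ofPath B x _ π).2 h4, ?_⟩
    rw [treads_ofPath]
    exact h5
  · intro hx T hT
    obtain ⟨w, -, h4⟩ := run_ofNBP B x _ T hT
    exact (h3 x).2 hx w h4

end Pool.Agent.UW
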