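import Pool.Agent.UW.GDefs
import Pool.Agent.UW.TPath
import Pool.Agent.UW.Simple

/-!
Programs without forks (nondeterministic branching programs): accepting trees are paths, and some
accepting path has less steps than the program has states.
-/

set_option autoImplicit false

namespace Pool.Agent.UW

variable {E K S : Type}

/-- The edges of a program. -/
def toNBP (B : Prog E K S) : NBP E K S := ⟨B.start, B.acc, B.edge⟩

theorem run_of_seg (B : Prog E K S) (x : E → K) (q : S) (w : List (Option (E × Set K) × S)) :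
    Run B x q (ofPath w) ↔ Seg (toNBP B) x q w B.acc := by
  induction w generalizing q with
  | nil => exact Iff.rfl
  | cons a w ih =>
    obtain ⟨l, s⟩ := a
    rw [ofPath_cons]
    change (B.edge q l s ∧ Passes x l ∧ Run B x s (ofPath w)) ↔
      (B.edge q l s ∧ Passes x l ∧ Seg (toNBP B) x s w B.acc)
    rw [ih s]

theorem seg_of_run (B : Prog E K S) (hf : ∀ q s s', ¬ B.fork q s s') (x : E → K) (q : S)
    (T : Tree E K S) (h : Run B x q T) :
    ∃ w : List (Option (E × Set K) × S), T = ofPath w ∧ Seg (toNBP B) x q w B.acc := by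
  induction T generalizing q with
  | stop => exact ⟨[], rfl, h⟩
  | step l s T ih =>
    obtain ⟨h1, h2, h3⟩ := h
    obtain ⟨w, h4, h5⟩ := ih s h3
    exact ⟨(l, s) :: w, by rw [ofPath_cons, h4], h1, h2, h5⟩
  | fork s s' T T' _ _ => exact (hf _ _ _ h.1).elim

/-- Without forks an accepting tree can be replaced by one with less steps than there are states,
which reads nothing more. -/
theorem short_tree [Fintype S] (B : Prog E K S) (hf : ∀ q s s', ¬ B.fork q s s') (x : E → K)
    (T : Tree E K S) (hT : AccTree B x T) :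
    ∃ T', AccTree B x T' ∧ treads T' ⊆ treads T ∧ tsize T' < Fintype.card S := by
  obtain ⟨w, rfl, hw⟩ := seg_of_run B hf x _ T hT
  obtain ⟨w', h1, h2, h3⟩ := simple_path (toNBP B) x w hw
  refine ⟨ofPath w', (run_of_seg B x _ w').2 h1, ?_, ?_⟩
  · rw [treads_ofPath, treads_ofPath]
    exact h2
  · rw [tsize_ofPath]
    exact h3

/-- For programs without forks the bound on the trees is automatic. -/
theorem rightGen_noFork {n : ℕ} [Fintype S]
    (B : Prog (Fin (n + 2) × Fin (n + 2)) (Fin (n + 2)) S) (hf : ∀ q s s', ¬ B.fork q s s')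
    {r m : ℕ} (hS : Fintype.card S ≤ m) (g : Fin (n + 2) × Fin (n + 2) → Fin (n + 2)) :
    RightGen B r m g ↔
      ((Gen g 0 1 ∧ ∃ T, AccTree B g T ∧ (treads T ∩ useless g).encard ≤ r) ∨
        (¬ Gen g 0 1 ∧ ∀ T, ¬ AccTree B g T)) := by
  constructor
  · rintro (⟨h1, T, h2, -, h3⟩ | h)
    · exact Or.inl ⟨h1, T, h2, h3⟩
    · exact Or.inr h
  · rintro (⟨h1, T, h2, h3⟩ | h)
    · obtain ⟨T', h4, h5, h6⟩ := short_tree B hf g T h2
      exact Or.inl ⟨h1, T', h4, h6.trans_le hS,
        (Set.encard_le_encard (Set.inter_subset_inter_left _ h5)).trans h3⟩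
    · exact Or.inr h

end Pool.Agent.UW
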