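import Mathlib

/-!
The numbers of the embedding, the number `l` of levels separate from `t`.
-/

set_option autoImplicit false

namespace Pool.Agent.UW

theorem choose_params2 (l t R A r n : ℕ) (hl : 0 < l) (ht : 0 < t)
    (hn : 2 ^ 25 * l * (t + R) ^ 2 * (t + R + (A + 1) * (r + 1)) ≤ n + 2) :
    ∃ w p : ℕ, p.Prime ∧ 128 * (t + R) ≤ w ∧ 2 * w ≤ p ∧ 48 * ((A + 1) * (2 * r + 1)) < p ∧
      2 + w + (l + 2) * w * p + (l + 1) * w * w * p ≤ n + 2 := by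
  obtain ⟨q, hq⟩ : ∃ q, q = t + R := ⟨_, rfl⟩
  obtain ⟨d, hd⟩ : ∃ d, d = (A + 1) * (r + 1) := ⟨_, rfl⟩
  rw [← hq, ← hd] at hn
  rw [← hq]
  have hq1 : 1 ≤ q := by omega
  obtain ⟨p, hp, hp1, hp2⟩ := Nat.exists_prime_lt_and_le_two_mul (256 * q + 96 * d) (by omega)
  refine ⟨128 * q, p, hp, le_rfl, by omega, ?_, ?_⟩
  · have h1 : 48 * ((A + 1) * (2 * r + 1)) ≤ 96 * d := by
      rw [hd]
      nlinarith [Nat.zero_le (A + 1)]
    omega
  · have hp3 : p ≤ 512 * (q + d) := by omega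
    obtain ⟨Q, hQ⟩ : ∃ Q, Q = q + d := ⟨_, rfl⟩
    rw [← hQ] at hp3 hn
    have hQ1 : 1 ≤ Q := by omega
    have e0 : 2 ^ 25 * l * q ^ 2 * Q = 2 ^ 25 * (l * q ^ 2 * Q) := by ring
    rw [e0] at hn
    have e1 : (l + 1) * (128 * q) * (128 * q) * p ≤ 2 ^ 24 * (l * q ^ 2 * Q) := by
      calc (l + 1) * (128 * q) * (128 * q) * p
          ≤ (2 * l) * (128 * q) * (128 * q) * (512 * Q) := by gcongr; omega
        _ = _ := by ring
    have e2 : (l + 2) * (128 * q) * p ≤ 2 ^ 18 * (l * q ^ 2 * Q) := by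
      calc (l + 2) * (128 * q) * p ≤ (3 * l) * (128 * q) * (512 * Q) := by gcongr; omega
        _ = 196608 * (l * (q * 1) * Q) := by ring
        _ ≤ 196608 * (l * (q * q) * Q) := by gcongr
        _ ≤ 2 ^ 18 * (l * q ^ 2 * Q) := by rw [pow_two q]; gcongr; norm_num
    have e3 : 2 + 128 * q ≤ 2 ^ 8 * (l * q ^ 2 * Q) := by
      calc 2 + 128 * q ≤ 130 * (1 * (q * 1) * 1) := by omega
        _ ≤ 130 * (l * (q * q) * Q) := by gcongr; omega
        _ ≤ 2 ^ 8 * (l * q ^ 2 * Q) := by rw [pow_two q]; gcongr; norm_num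
    have e4 : 2 ^ 24 * (l * q ^ 2 * Q) + 2 ^ 18 * (l * q ^ 2 * Q) + 2 ^ 8 * (l * q ^ 2 * Q) ≤
        2 ^ 25 * (l * q ^ 2 * Q) := by
      rw [← Nat.add_mul, ← Nat.add_mul]
      exact Nat.mul_le_mul_right _ (by norm_num)
    omega

end Pool.Agent.UW
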