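import Pool.Agent.UW.GDefs

/-!
Circuits: programs without cycles, their depth, and a circuit of polynomial size for GEN which reads
no useless pair.
-/

set_option autoImplicit false

namespace Pool.Agent.UW

/-- The program `B` is a circuit of depth at most `d`: it has no cycles, and the longest way along
edges and forks from the start has length at most `d`. -/
def HasDepth {E K S : Type} (B : Prog E K S) (d : ℕ) : Prop :=
  ∃ rk : S → ℕ, rk B.start ≤ d ∧ (∀ q l s, B.edge q l s → rk s < rk q) ∧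
    ∀ q s s', B.fork q s s' → rk s < rk q ∧ rk s' < rk q

theorem tsize_lt_rank {E K S : Type} (B : Prog E K S) (rk : S → ℕ)
    (he : ∀ q l s, B.edge q l s → rk s < rk q)
    (hf : ∀ q s s', B.fork q s s' → rk s < rk q ∧ rk s' < rk q) (x : E → K) (T : Tree E K S) :
    ∀ q, Run B x q T → tsize T < 2 ^ rk q := by
  induction T with
  | stop =>
    intro q _
    exact Nat.pos_of_ne_zero (by positivity)
  | step l s T ih =>
    intro q h
    obtain ⟨h1, -, h3⟩ := h
    have h4 := ih s h3
    have h5 : 2 ^ (rk s + 1) ≤ 2 ^ rk q := Nat.pow_le_pow_right (by norm_num) (he q l s h1)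
    have h6 : 2 ^ (rk s + 1) = 2 * 2 ^ rk s := by rw [pow_succ, mul_comm]
    show tsize T + 1 < _
    omega
  | fork s s' T T' ih ih' =>
    intro q h
    obtain ⟨h1, h2, h3⟩ := h
    have h4 := ih s h2
    have h5 := ih' s' h3
    obtain ⟨h6, h7⟩ := hf q s s' h1
    have h8 : 2 ^ rk s ≤ 2 ^ (rk q - 1) := Nat.pow_le_pow_right (by norm_num) (by omega)
    have h9 : 2 ^ rk s' ≤ 2 ^ (rk q - 1) := Nat.pow_le_pow_right (by norm_num) (by omega)
    have h10 : 2 ^ rk q = 2 * 2 ^ (rk q - 1) := by
      rw [← pow_succ']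
      congr 1
      omega
    show tsize T + tsize T' + 1 < _
    omega

/-- In circuits of depth at most `t` the bound `< 2 ^ t` on the accepting trees is automatic. -/
theorem rightGen_depth {n : ℕ} {S : Type} (B : Prog (Fin (n + 2) × Fin (n + 2)) (Fin (n + 2)) S)
    {t r : ℕ} (h : HasDepth B t) (g : Fin (n + 2) × Fin (n + 2) → Fin (n + 2)) :
    RightGen B r (2 ^ t) g ↔
      ((Gen g 0 1 ∧ ∃ T, AccTree B g T ∧ (treads T ∩ useless g).encard ≤ r) ∨
        (¬ Gen g 0 1 ∧ ∀ T, ¬ AccTree B g T)) := by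
  obtain ⟨rk, h1, h2, h3⟩ := h
  constructor
  · rintro (⟨h4, T, h5, -, h6⟩ | h4)
    · exact Or.inl ⟨h4, T, h5, h6⟩
    · exact Or.inr h4
  · rintro (⟨h4, T, h5, h6⟩ | h4)
    · exact Or.inl ⟨h4, T, h5, (tsize_lt_rank B rk h2 h3 g T _ h5).trans_le
        (Nat.pow_le_pow_right (by norm_num) h1), h6⟩
    · exact Or.inr h4

/-! ### The circuit -/

variable {X : Type}

/-- The elements generated in `i` stages. -/
def stg (g : X × X → X) (o : X) : ℕ → Set X
  | 0 => {o}
  | i + 1 => stg g o i ∪ {z | ∃ x y, x ∈ stg g o i ∧ y ∈ stg g o i ∧ g (x, y) = z}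

theorem stg_succ (g : X × X → X) (o : X) (i : ℕ) : stg g o i ⊆ stg g o (i + 1) :=
  Set.subset_union_left

theorem stg_mono (g : X × X → X) (o : X) : Monotone (stg g o) :=
  monotone_nat_of_le_succ (stg_succ g o)

theorem gen_stg (g : X × X → X) (o : X) (j : ℕ) (h : stg g o j = stg g o (j + 1)) (z : X)
    (hz : Gen g o z) : z ∈ stg g o j := by
  induction hz with
  | base => exact stg_mono g o (Nat.zero_le j) rfl
  | op x y _ _ ihx ihy =>
    rw [h]
    exact Or.inr ⟨x, y, ihx, ihy, rfl⟩

theorem stg_card [Fintype X] (g : X × X → X) (o : X) (i : ℕ) :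
    i + 1 ≤ (stg g o i).ncard ∨ ∃ j ≤ i, stg g o j = stg g o (j + 1) := by
  induction i with
  | zero =>
    left
    show 1 ≤ ({o} : Set X).ncard
    rw [Set.ncard_singleton]
  | succ i ih =>
    rcases ih with ih | ⟨j, h1, h2⟩
    · by_cases h : stg g o i = stg g o (i + 1)
      · exact Or.inr ⟨i, Nat.le_succ i, h⟩
      · left
        have h1 := Set.ncard_lt_ncard (ssubset_of_subset_of_ne (stg_succ g o i) h)
          (Set.toFinite _)
        omega
    · exact Or.inr ⟨j, h1.trans (Nat.le_succ i), h2⟩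

theorem gen_stages [Fintype X] (g : X × X → X) (o z : X) (hz : Gen g o z) (N : ℕ)
    (hN : Fintype.card X ≤ N + 1) : z ∈ stg g o N := by
  rcases stg_card g o N with h | ⟨j, h1, h2⟩
  · have h1 : stg g o N = Set.univ := by
      refine Set.eq_of_subset_of_ncard_le (Set.subset_univ _) ?_ (Set.toFinite _)
      rw [Set.ncard_univ, Nat.card_eq_fintype_card]
      omega
    rw [h1]
    exact Set.mem_univ z
  · exact stg_mono g o h1 (gen_stg g o j h2 z hz)

/-- States of the circuit: accepted; an element at a stage; a pair at a stage. -/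
abbrev CirS (X : Type) (m : ℕ) : Type := Option (Fin m × (X ⊕ (X × X)))

/-- Its edges. -/
def cirEdge (o : X) {m : ℕ} : CirS X m → Option ((X × X) × Set X) → CirS X m → Prop
  | some (i, Sum.inl z), l, s => (l = none ∧ z = o ∧ s = none) ∨
      ∃ (x y : X) (j : Fin m), (j : ℕ) + 1 = i ∧ l = some ((x, y), {z}) ∧
        s = some (j, Sum.inr (x, y))
  | some (_, Sum.inr _), _, _ => False
  | none, _, _ => False

/-- Its forks. -/
def cirFork {m : ℕ} : CirS X m → CirS X m → CirS X m → Prop
  | some (i, Sum.inr e), s, s' => s = some (i, Sum.inl e.1) ∧ s' = some (i, Sum.inl e.2)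
  | some (_, Sum.inl _), _, _ => False
  | none, _, _ => False

/-- The circuit: is `T` generated from `o`? -/
def cirProg (o T : X) (m : ℕ) : Prog (X × X) X (CirS X (m + 1)) where
  start := some (Fin.last m, Sum.inl T)
  acc := none
  edge := cirEdge o
  fork := cirFork

/-- The rank of a state. -/
def cirRk {m : ℕ} : CirS X m → ℕ
  | none => 0
  | some (i, Sum.inl _) => 2 * i + 1
  | some (i, Sum.inr _) => 2 * i + 2

/-- What acceptance from a state means. -/
def CirInv {m : ℕ} (g : X × X → X) (o : X) : CirS X m → Prop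
  | none => True
  | some (_, Sum.inl z) => Gen g o z
  | some (_, Sum.inr e) => Gen g o e.1 ∧ Gen g o e.2

theorem cir_sound (g : X × X → X) (o T : X) (m : ℕ) (π : Tree (X × X) X (CirS X (m + 1))) :
    ∀ q, Run (cirProg o T m) g q π →
      CirInv g o q ∧ treads π ⊆ {e | Gen g o e.1 ∧ Gen g o e.2} := by
  induction π with
  | stop =>
    intro q h
    have h1 : q = none := h
    subst h1
    exact ⟨trivial, fun _ h => h.elim⟩
  | step l s π ih =>
    intro q h
    obtain ⟨h1, h2, h3⟩ := h
    obtain ⟨h4, h5⟩ := ih s h3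
    match q, h1 with
    | some (i, Sum.inl z), Or.inl ⟨h6, h7, h8⟩ =>
      subst h6
      subst h7
      exact ⟨Gen.base, Set.union_subset (fun _ h => h.elim) h5⟩
    | some (i, Sum.inl z), Or.inr ⟨x, y, j, _, h6, h7⟩ =>
      subst h6
      subst h7
      have h8 : g (x, y) = z := h2
      refine ⟨?_, Set.union_subset ?_ h5⟩
      · show Gen g o z
        rw [← h8]
        exact Gen.op x y h4.1 h4.2
      · intro e he
        have h9 : e = (x, y) := he
        rw [h9]
        exact h4
    | some (i, Sum.inr e), h1 => exact h1.elim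
    | none, h1 => exact h1.elim
  | fork s s' π π' ih ih' =>
    intro q h
    obtain ⟨h1, h2, h3⟩ := h
    obtain ⟨h4, h5⟩ := ih s h2
    obtain ⟨h6, h7⟩ := ih' s' h3
    match q, h1 with
    | some (i, Sum.inr e), ⟨h8, h9⟩ =>
      subst h8
      subst h9
      exact ⟨⟨h4, h6⟩, Set.union_subset h5 h7⟩
    | some (i, Sum.inl z), h1 => exact h1.elim
    | none, h1 => exact h1.elim

theorem cir_complete (g : X × X → X) (o T : X) (m : ℕ) (i : ℕ) :
    ∀ z ∈ stg g o i, ∀ j : Fin (m + 1), i ≤ j →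
      ∃ π, Run (cirProg o T m) g (some (j, Sum.inl z)) π := by
  induction i with
  | zero =>
    intro z hz j _
    have h1 : z = o := hz
    exact ⟨Tree.step none none Tree.stop, Or.inl ⟨rfl, h1, rfl⟩, trivial, rfl⟩
  | succ i ih =>
    intro z hz j hj
    rcases hz with hz | ⟨x, y, hx, hy, hxy⟩
    · exact ih z hz j (by omega)
    · have hj' : (j : ℕ) - 1 < m + 1 := by have := j.isLt; omega
      obtain ⟨π, hπ⟩ := ih x hx ⟨(j : ℕ) - 1, hj'⟩ (by show i ≤ (j : ℕ) - 1; omega)
      obtain ⟨π', hπ'⟩ := ih y hy ⟨(j : ℕ) - 1, hj'⟩ (by show i ≤ (j : ℕ) - 1; omega)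
      refine ⟨Tree.step (some ((x, y), {z})) (some (⟨(j : ℕ) - 1, hj'⟩, Sum.inr (x, y)))
        (Tree.fork (some (⟨(j : ℕ) - 1, hj'⟩, Sum.inl x)) (some (⟨(j : ℕ) - 1, hj'⟩, Sum.inl y))
          π π'), ?_, ?_, ?_, ?_, ?_⟩
      · exact Or.inr ⟨x, y, ⟨(j : ℕ) - 1, hj'⟩, by show (j : ℕ) - 1 + 1 = j; omega, rfl, rfl⟩
      · exact hxy
      · exact ⟨rfl, rfl⟩
      · exact hπ
      · exact hπ'

/-- A circuit of depth less than `2 N` with at most `(N + 1) ^ 3` gates for GEN on `N = n + 2`
elements, all of whose accepting trees read only pairs of generated elements. -/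
theorem gen_circ (n : ℕ) :
    ∃ (S : Type) (_ : Fintype S) (B : Prog (Fin (n + 2) × Fin (n + 2)) (Fin (n + 2)) S),
      Fintype.card S ≤ (n + 3) ^ 3 ∧ HasDepth B (2 * (n + 2)) ∧ FewUseless B 0 0 ∧
      ∀ g, RightGen B 0 (2 ^ (2 * (n + 2))) g := by
  have hd : HasDepth (cirProg (0 : Fin (n + 2)) 1 (n + 1)) (2 * (n + 2)) := by
    refine ⟨cirRk, ?_, ?_, ?_⟩
    · show 2 * ((Fin.last (n + 1) : Fin (n + 2)) : ℕ) + 1 ≤ _
      rw [Fin.val_last]
      omega
    · intro q l s h
      match q, h with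
      | some (i, Sum.inl z), Or.inl ⟨_, _, h8⟩ =>
        subst h8
        show 0 < 2 * (i : ℕ) + 1
        omega
      | some (i, Sum.inl z), Or.inr ⟨x, y, j, h5, _, h7⟩ =>
        subst h7
        show 2 * (j : ℕ) + 2 < 2 * (i : ℕ) + 1
        omega
      | some (i, Sum.inr e), h1 => exact h1.elim
      | none, h1 => exact h1.elim
    · intro q s s' h
      match q, h with
      | some (i, Sum.inr e), ⟨h8, h9⟩ =>
        subst h8
        subst h9
        exact ⟨Nat.lt_succ_self _, Nat.lt_succ_self _⟩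
      | some (i, Sum.inl z), h1 => exact h1.elim
      | none, h1 => exact h1.elim
  have hr : ∀ (g : Fin (n + 2) × Fin (n + 2) → Fin (n + 2)) T,
      AccTree (cirProg (0 : Fin (n + 2)) 1 (n + 1)) g T → treads T ∩ useless g = ∅ := by
    intro g T hT
    ext q
    constructor
    · rintro ⟨h1, h2⟩
      exact h2 ((cir_sound g 0 1 (n + 1) T _ hT).2 h1)
    · intro h1
      exact h1.elim
  refine ⟨CirS (Fin (n + 2)) (n + 1 + 1), inferInstance, cirProg 0 1 (n + 1), ?_, hd, ?_, ?_⟩
  · rw [Fintype.card_option, Fintype.card_prod, Fintype.card_sum, Fintype.card_prod,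
      Fintype.card_fin]
    nlinarith [Nat.zero_le n, Nat.zero_le (n ^ 2), Nat.zero_le (n ^ 3)]
  · intro g
    have h : {T | AccTree (cirProg (0 : Fin (n + 2)) 1 (n + 1)) g T ∧
        ((0 : ℕ) : ℕ∞) < (treads T ∩ useless g).encard} = ∅ := by
      ext T
      constructor
      · rintro ⟨h1, h2⟩
        rw [hr g T h1, Set.encard_empty] at h2
        exact absurd h2 (by simp)
      · intro h1
        exact h1.elim
    rw [h, Set.encard_empty]
    exact zero_le
  · intro g
    rw [rightGen_depth _ hd]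
    by_cases hg : Gen g 0 1
    · left
      obtain ⟨T, hT⟩ := cir_complete g 0 1 (n + 1) (n + 1) 1
        (gen_stages g 0 1 hg (n + 1) (by rw [Fintype.card_fin])) (Fin.last (n + 1))
        (by rw [Fin.val_last])
      refine ⟨hg, T, hT, ?_⟩
      rw [hr g T hT, Set.encard_empty]
      exact zero_le
    · right
      exact ⟨hg, fun T hT => hg (cir_sound g 0 1 (n + 1) T _ hT).1⟩

end Pool.Agent.UW
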