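import Pool.Agent.UW.GDefs

/-!
A program with forks for GEN which reads no useless pair, of size `N ^ 2 + N + 1` for `N` elements.
-/

set_option autoImplicit false

namespace Pool.Agent.UW

/-- The pairs of generated elements. -/
def upPairs {X : Type} (g : X × X → X) (o : X) : Set (X × X) :=
  {e | Gen g o e.1 ∧ Gen g o e.2}

/-- States of the program: accepted, an element, a pair. -/
abbrev UpS (X : Type) : Type := Option (X ⊕ (X × X))

/-- Its edges. -/
def upEdge {X : Type} (o : X) : UpS X → Option ((X × X) × Set X) → UpS X → Prop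
  | some (Sum.inl z), l, s => (l = none ∧ z = o ∧ s = none) ∨
      ∃ x y, l = some ((x, y), {z}) ∧ s = some (Sum.inr (x, y))
  | some (Sum.inr _), _, _ => False
  | none, _, _ => False

/-- Its forks. -/
def upFork {X : Type} : UpS X → UpS X → UpS X → Prop
  | some (Sum.inr e), s, s' => s = some (Sum.inl e.1) ∧ s' = some (Sum.inl e.2)
  | some (Sum.inl _), _, _ => False
  | none, _, _ => False

/-- The program: is `T` generated from `o`? -/
def upProg {X : Type} (o T : X) : Prog (X × X) X (UpS X) where
  start := some (Sum.inl T)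
  acc := none
  edge := upEdge o
  fork := upFork

/-- What acceptance from a state means. -/
def UpInv {X : Type} (g : X × X → X) (o : X) : UpS X → Prop
  | none => True
  | some (Sum.inl z) => Gen g o z
  | some (Sum.inr e) => Gen g o e.1 ∧ Gen g o e.2

theorem up_sound {X : Type} (g : X × X → X) (o T : X) (π : Tree (X × X) X (UpS X)) :
    ∀ q, Run (upProg o T) g q π → UpInv g o q ∧ treads π ⊆ upPairs g o := by
  induction π with
  | stop =>
    intro q h
    have h1 : q = none := h
    subst h1
    exact ⟨trivial, fun _ h => h.elim⟩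
  | step l s π ih =>
    intro q h
    obtain ⟨h1, h2, h3⟩ := h
    obtain ⟨h4, h5⟩ := ih s h3
    match q, h1 with
    | some (Sum.inl z), Or.inl ⟨h6, h7, h8⟩ =>
      subst h6
      subst h7
      exact ⟨Gen.base, Set.union_subset (fun _ h => h.elim) h5⟩
    | some (Sum.inl z), Or.inr ⟨x, y, h6, h7⟩ =>
      subst h6
      subst h7
      have h8 : g (x, y) = z := h2
      refine ⟨?_, Set.union_subset ?_ h5⟩
      · rw [← h8]
        exact Gen.op x y h4.1 h4.2
      · intro e he
        have h9 : e = (x, y) := he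
        rw [h9]
        exact h4
    | some (Sum.inr e), h1 => exact h1.elim
    | none, h1 => exact h1.elim
  | fork s s' π π' ih ih' =>
    intro q h
    obtain ⟨h1, h2, h3⟩ := h
    obtain ⟨h4, h5⟩ := ih s h2
    obtain ⟨h6, h7⟩ := ih' s' h3
    match q, h1 with
    | some (Sum.inr e), ⟨h8, h9⟩ =>
      subst h8
      subst h9
      exact ⟨⟨h4, h6⟩, Set.union_subset h5 h7⟩
    | some (Sum.inl z), h1 => exact h1.elim
    | none, h1 => exact h1.elim

theorem up_complete {X : Type} (g : X × X → X) (o T z : X) (h : Gen g o z) :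
    ∃ π, Run (upProg o T) g (some (Sum.inl z)) π := by
  induction h with
  | base =>
    exact ⟨Tree.step none none Tree.stop, Or.inl ⟨rfl, rfl, rfl⟩, trivial, rfl⟩
  | op x y _ _ ihx ihy =>
    obtain ⟨π, hπ⟩ := ihx
    obtain ⟨π', hπ'⟩ := ihy
    refine ⟨Tree.step (some ((x, y), {g (x, y)})) (some (Sum.inr (x, y)))
      (Tree.fork (some (Sum.inl x)) (some (Sum.inl y)) π π'), ?_, ?_, ?_, ?_, ?_⟩
    · exact Or.inr ⟨x, y, rfl, rfl⟩
    · exact rfl
    · exact ⟨rfl, rfl⟩
    · exact hπ
    · exact hπ'

/-- A program with forks and `N ^ 2 + N + 1` states for GEN on `N = n + 2` elements: no accepting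
tree reads a useless pair, and it is right on all inputs (by large trees). -/
theorem gen_up (n : ℕ) :
    ∃ (S : Type) (_ : Fintype S) (B : Prog (Fin (n + 2) × Fin (n + 2)) (Fin (n + 2)) S),
      Fintype.card S ≤ (n + 2) ^ 2 + (n + 2) + 1 ∧ FewUseless B 0 0 ∧
      ∃ m, ∀ g, RightGen B 0 m g := by
  have key : ∀ (g : Fin (n + 2) × Fin (n + 2) → Fin (n + 2)) (π : Tree _ _ _),
      AccTree (upProg 0 1) g π → (treads π ∩ useless g).encard = 0 := by
    intro g π hπ
    rw [Set.encard_eq_zero]
    ext q
    constructor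
    · rintro ⟨h1, h2⟩
      exact h2 ((up_sound g 0 1 π _ hπ).2 h1)
    · intro h1
      exact h1.elim
  refine ⟨UpS (Fin (n + 2)), inferInstance, upProg 0 1, ?_, fun g => ?_, ?_⟩
  · rw [Fintype.card_option, Fintype.card_sum, Fintype.card_prod, Fintype.card_fin]
    nlinarith
  · have h : {T | AccTree (upProg (0 : Fin (n + 2)) 1) g T ∧
        ((0 : ℕ) : ℕ∞) < (treads T ∩ useless g).encard} = ∅ := by
      ext T
      constructor
      · rintro ⟨h1, h2⟩
        rw [key g T h1] at h2
        exact absurd h2 (by simp)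
      · intro h1
        exact h1.elim
    rw [h, Set.encard_empty]
    exact zero_le
  · have h : ∀ g : Fin (n + 2) × Fin (n + 2) → Fin (n + 2), ∃ m, Gen g 0 1 →
        ∃ T, AccTree (upProg (0 : Fin (n + 2)) 1) g T ∧ tsize T < m := by
      intro g
      by_cases hg : Gen g 0 1
      · obtain ⟨T, hT⟩ := up_complete g 0 1 1 hg
        exact ⟨tsize T + 1, fun _ => ⟨T, hT, Nat.lt_succ_self _⟩⟩
      · exact ⟨0, fun h => absurd h hg⟩
    choose m hm using h
    refine ⟨∑ g, m g, fun g => ?_⟩
    by_cases hg : Gen g 0 1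
    · obtain ⟨T, hT, h1⟩ := hm g hg
      refine Or.inl ⟨hg, T, hT, h1.trans_le (Finset.single_le_sum (f := m)
        (fun _ _ => Nat.zero_le _) (Finset.mem_univ g)), ?_⟩
      rw [key g T hT]
      exact zero_le
    · exact Or.inr ⟨hg, fun T hT => hg (up_sound g 0 1 T _ hT).1⟩

end Pool.Agent.UW
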