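import Pool.Agent.UW.Seg

namespace Pool.Agent.UW

variable {E K S : Type}

theorem seg_end (B : NBP E K S) (x : E → K) (q : S) (w : List (Option (E × Set K) × S)) (q1 q2 : S)
    (h1 : Seg B x q w q1) (h2 : Seg B x q w q2) : q1 = q2 := by
  induction w generalizing q with
  | nil =>
    have h3 : q = q1 := h1
    have h4 : q = q2 := h2
    rw [← h3, ← h4]
  | cons a w ih =>
    obtain ⟨l, s⟩ := a
    exact ih s h1.2.2 h2.2.2

theorem seg_pump (B : NBP E K S) (x : E → K) (m : S) (v : List (Option (E × Set K) × S))
    (h : Seg B x m v m) (k : ℕ) : Seg B x m (List.replicate k v).flatten m := by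
  induction k with
  | zero => exact rfl
  | succ k ih =>
    rw [List.replicate_succ, List.flatten_cons]
    exact (seg_append B x m v _ m).2 ⟨m, h, ih⟩

theorem short_path [Fintype S] (B : NBP E K S) (A : ℕ) (hB : FewPaths B A) (x : E → K)
    (w : List (Option (E × Set K) × S)) (hw : AccPath B x w) : w.length < Fintype.card S := by
  by_contra hlen
  have hlen : Fintype.card S ≤ w.length := not_lt.1 hlen
  have hex : ∀ k : Fin (w.length + 1), ∃ m, Seg B x B.start (w.take k) m ∧
      Seg B x m (w.drop k) B.acc := by
    intro k
    refine (seg_append B x B.start _ _ B.acc).1 ?_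
    rw [List.take_append_drop]
    exact hw
  choose m h1 h2 using hex
  obtain ⟨i, j, hij, hm⟩ := Fintype.exists_ne_map_eq_of_card_lt m (by
    rw [Fintype.card_fin]
    omega)
  -- the ordered case
  have key : ∀ i j : Fin (w.length + 1), i < j → m i = m j → False := by
    intro i j hij hm
    have hij' : (i : ℕ) < j := hij
    have hj : (j : ℕ) ≤ w.length := Nat.lt_succ_iff.1 j.2
    have hsplit : w.take j = w.take i ++ (w.drop i).take (j - i) := by
      have h3 : (j : ℕ) = i + (j - i) := by omega
      conv_lhs => rw [h3]
      rw [List.take_add]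
    have h3 := h1 j
    rw [hsplit] at h3
    obtain ⟨m', h4, h5⟩ := (seg_append B x B.start _ _ _).1 h3
    have h6 : m' = m i := seg_end B x _ _ _ _ h4 (h1 i)
    rw [h6, ← hm] at h5
    have hvlen : 0 < ((w.drop i).take (j - i)).length := by
      rw [List.length_take, List.length_drop]
      omega
    have hz := h2 j
    rw [← hm] at hz
    have hall : ∀ k : ℕ, AccPath B x (w.take i ++
        ((List.replicate k ((w.drop i).take (j - i))).flatten ++ w.drop j)) := by
      intro k
      refine (seg_append B x _ _ _ _).2 ⟨m i, h1 i, ?_⟩
      exact (seg_append B x _ _ _ _).2 ⟨m i, seg_pump B x _ _ h5 k, hz⟩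
    have hinj : Function.Injective fun k : ℕ => (w.take i ++
        ((List.replicate k ((w.drop i).take (j - i))).flatten ++ w.drop j)) := by
      intro k k' hk
      have h7 := congrArg List.length hk
      simp only [List.length_append, List.length_flatten, List.map_replicate,
        List.sum_replicate, smul_eq_mul] at h7
      have h8 : k * ((w.drop i).take (j - i)).length = k' * ((w.drop i).take (j - i)).length := by
        omega
      exact Nat.eq_of_mul_eq_mul_right hvlen h8
    have hinf : {w | AccPath B x w}.Infinite := Set.infinite_of_injective_forall_mem hinj hall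
    have h9 := hB x
    rw [hinf.encard_eq, top_le_iff] at h9
    exact absurd h9 (ENat.natCast_ne_top A)
  rcases lt_or_gt_of_ne hij with h | h
  · exact key i j h hm
  · exact key j i h hm.symm

end Pool.Agent.UW
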