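import Pool.Agent.UW.Defs

/-!
Window lemma: a short list which reads many nodes of the level `l` has a window which reads many
nodes of a level `i + 1` but misses many nodes of the level `i`.
-/

namespace Pool.Agent.UW

/-- `c a = some (i, v)`: step `a` reads node `v` of level `i`. -/
noncomputable def seen {α : Type} {W : ℕ} (c : α → Option (ℕ × Fin W)) (i : ℕ) (s : List α) :
    Finset (Fin W) :=
  by classical exact Finset.univ.filter (fun v => ∃ a ∈ s, c a = some (i, v))

theorem mem_seen {α : Type} {W : ℕ} (c : α → Option (ℕ × Fin W)) (i : ℕ) (s : List α) (v : Fin W) :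
    v ∈ seen c i s ↔ ∃ a ∈ s, c a = some (i, v) := by
  classical
  simp [seen]

theorem seen_append {α : Type} {W : ℕ} (c : α → Option (ℕ × Fin W)) (i : ℕ) (s t : List α) :
    seen c i (s ++ t) = seen c i s ∪ seen c i t := by
  ext v
  simp only [mem_seen, Finset.mem_union, List.mem_append]
  constructor
  · rintro ⟨a, ha | ha, h⟩
    · exact Or.inl ⟨a, ha, h⟩
    · exact Or.inr ⟨a, ha, h⟩
  · rintro (⟨a, ha, h⟩ | ⟨a, ha, h⟩)
    · exact ⟨a, Or.inl ha, h⟩
    · exact ⟨a, Or.inr ha, h⟩

theorem seen_nil {α : Type} {W : ℕ} (c : α → Option (ℕ × Fin W)) (i : ℕ) :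
    seen c i ([] : List α) = ∅ := by
  ext v
  simp [mem_seen]

theorem seen_single {α : Type} {W : ℕ} (c : α → Option (ℕ × Fin W)) (i : ℕ) (a : α) :
    (seen c i [a]).card ≤ 1 := by
  refine Finset.card_le_one.2 fun v hv u hu => ?_
  rw [mem_seen] at hv hu
  obtain ⟨b, hb, h⟩ := hv
  obtain ⟨b', hb', h'⟩ := hu
  have e1 : b = a := by simpa using hb
  have e2 : b' = a := by simpa using hb'
  subst e1
  subst e2
  rw [h] at h'
  simpa using h'

/-- A list which sees at least `t` nodes has a head part which sees exactly `t` of them. -/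
theorem exists_head {α : Type} {W : ℕ} (c : α → Option (ℕ × Fin W)) (i t : ℕ) (s : List α)
    (h : t ≤ (seen c i s).card) : ∃ s1 s2, s = s1 ++ s2 ∧ (seen c i s1).card = t := by
  induction s using List.reverseRecOn with
  | nil =>
    refine ⟨[], [], rfl, ?_⟩
    rw [seen_nil] at h ⊢
    simp at h ⊢
    omega
  | append_singleton r a ih =>
    by_cases hr : t ≤ (seen c i r).card
    · obtain ⟨s1, s2, e, h1⟩ := ih hr
      exact ⟨s1, s2 ++ [a], by rw [e, List.append_assoc], h1⟩
    · refine ⟨r ++ [a], [], by simp, ?_⟩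
      have h1 : (seen c i (r ++ [a])).card ≤ (seen c i r).card + (seen c i [a]).card := by
        rw [seen_append]
        exact Finset.card_union_le _ _
      have h2 := seen_single c i a
      omega

theorem exists_split {α : Type} {W : ℕ} (c : α → Option (ℕ × Fin W)) (i t : ℕ) (s : List α)
    (h : 2 * t ≤ (seen c i s).card) :
    ∃ s1 s2, s = s1 ++ s2 ∧ t ≤ (seen c i s1).card ∧ t ≤ (seen c i s2).card := by
  obtain ⟨s1, s2, e, h1⟩ := exists_head c i t s (by omega)
  refine ⟨s1, s2, e, h1.ge, ?_⟩
  have h2 : (seen c i s).card ≤ (seen c i s1).card + (seen c i s2).card := by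
    rw [e, seen_append]
    exact Finset.card_union_le _ _
  omega

theorem window {α : Type} {W : ℕ} (c : α → Option (ℕ × Fin W)) (t l : ℕ) (ht : 0 < t)
    (hW : 3 * t ≤ W) (s : List α) (hs : 2 * t ≤ (seen c l s).card) (hlen : s.length < 2 ^ l) :
    ∃ i < l, ∃ s1 s2 s3, s = s1 ++ s2 ++ s3 ∧ t ≤ (seen c (i + 1) s2).card ∧
      (seen c i s2).card ≤ W - t := by
  induction l generalizing s with
  | zero =>
    exfalso
    have : s = [] := by
      have : s.length = 0 := by simpa using hlen
      exact List.length_eq_zero_iff.1 this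
    rw [this, seen_nil] at hs
    simp at hs
    omega
  | succ l ih =>
    obtain ⟨a, b, e, ha, hb⟩ := exists_split c (l + 1) t s hs
    by_cases h1 : (seen c l a).card ≤ W - t
    · exact ⟨l, Nat.lt_succ_self l, [], a, b, by rw [e]; simp, ha, h1⟩
    by_cases h2 : (seen c l b).card ≤ W - t
    · exact ⟨l, Nat.lt_succ_self l, a, b, [], by rw [e]; simp, hb, h2⟩
    have hl : a.length + b.length < 2 ^ (l + 1) := by
      rw [← List.length_append, ← e]
      exact hlen
    have h2l : 2 ^ (l + 1) = 2 ^ l + 2 ^ l := by ring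
    by_cases h3 : a.length < 2 ^ l
    · obtain ⟨i, hi, s1, s2, s3, e', h4, h5⟩ := ih a (by omega) h3
      refine ⟨i, by omega, s1, s2, s3 ++ b, ?_, h4, h5⟩
      rw [e, e']
      simp [List.append_assoc]
    · obtain ⟨i, hi, s1, s2, s3, e', h4, h5⟩ := ih b (by omega) (by omega)
      refine ⟨i, by omega, a ++ s1, s2, s3, ?_, h4, h5⟩
      rw [e, e']
      simp [List.append_assoc]

end Pool.Agent.UW
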