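import Pool.Agent.UW.TFinal

/-!
The lower bound with separate bounds: number of states (space) and size of the trees (time).
-/

set_option autoImplicit false

namespace Pool.Agent.UW

open Finset

/-- The heavy labelings are at most a `2 ^ (-t)` part. -/
theorem heavy_small_l {l t R W A r p s : ℕ} [Fact p.Prime] {S : Type} [Fintype S]
    (ht : 0 < t) (hW : 128 * (t + R) ≤ W) (hp : 2 * W ≤ p)
    (hs : s ^ 2 * l * (6 * ((A + 1) * (2 * r + 1))) ^ t ≤ (p - 1) ^ t)
    (B : Prog (Entry l W p) (ZMod p) S) (hS : Fintype.card S ≤ s)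
    (hB : FewWastefulTrees B A R)
    (G : Finset (Lab l W p)) (hG : ∀ D ∈ G, THeavy B r (2 ^ l) (2 * t + R) D) :
    2 ^ t * G.card ≤ Fintype.card (Lab l W p) := by
  have h := theavy_card hp B A R r t ht (by omega) hB G hG
  have hpp : 0 < p - 1 := by
    have := (Fact.out : p.Prime).one_lt
    omega
  rw [card_lab]
  have h3 : (2 ^ t * G.card) * (p - 1) ^ t ≤ (p - 1) ^ ((l + 2) * W) * (p - 1) ^ t := by
    calc (2 ^ t * G.card) * (p - 1) ^ t = 2 ^ t * (G.card * (p - 1) ^ t) := by ring
      _ ≤ 2 ^ t * (3 ^ t * ((Fintype.card S) ^ 2 * l * ((A + 1) * (2 * r + 1)) ^ t *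
            (p - 1) ^ ((l + 2) * W))) := Nat.mul_le_mul_left _ h
      _ ≤ 2 ^ t * (3 ^ t * (s ^ 2 * l * ((A + 1) * (2 * r + 1)) ^ t *
            (p - 1) ^ ((l + 2) * W))) := by
          gcongr
      _ = (s ^ 2 * l * (6 * ((A + 1) * (2 * r + 1))) ^ t) * (p - 1) ^ ((l + 2) * W) := by
          have : 6 * ((A + 1) * (2 * r + 1)) = 2 * 3 * ((A + 1) * (2 * r + 1)) := by ring
          rw [this]
          simp only [mul_pow]
          ring
      _ ≤ (p - 1) ^ t * (p - 1) ^ ((l + 2) * W) := Nat.mul_le_mul_right _ hs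
      _ = _ := by ring
  exact Nat.le_of_mul_le_mul_right h3 (pow_pos hpp t)

theorem low {l t R W A r p s : ℕ} [Fact p.Prime] {S : Type} [Fintype S]
    (ht : 0 < t) (hW : 128 * (t + R) ≤ W) (hp : 2 * W ≤ p)
    (hs : s ^ 2 * l * (6 * ((A + 1) * (2 * r + 1))) ^ t ≤ (p - 1) ^ t)
    (B : Prog (Entry l W p) (ZMod p) S) (hS : Fintype.card S ≤ s)
    (hB : FewWastefulTrees B A R) :
    (({ω : Lab l W p × Fin W × Bool |
        RightTree B r (2 ^ l) (if ω.2.2 then inp ω.1 else bad ω.1 ω.2.1)}.ncard : ℕ) : ℝ) ≤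
      (1 / 2 + 1 / 128 + 1 / 2 ^ (t + 1)) *
        Nat.card (Lab l W p × Fin W × Bool) ∧
    ((∀ x, ¬ Yes x → ∀ T, ¬ AccTree B x T) →
      (({D : Lab l W p | ∃ T, AccTree B (inp D) T ∧ tsize T < 2 ^ l ∧
        (treads T \ relevant (inp D)).encard ≤ r}.ncard : ℕ) : ℝ) ≤
      1 / 2 ^ t * Nat.card (Lab l W p)) := by
  classical
  have hp0 : NeZero p := ⟨(Fact.out : p.Prime).ne_zero⟩
  have hw : 0 < W := by omega
  set acc : Finset (Lab l W p) := univ.filter (fun D => TFrugal B r (2 ^ l) D) with hacc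
  set hv : Finset (Lab l W p) := univ.filter (fun D => THeavy B r (2 ^ l) (2 * t + R) D) with hhv
  set lt : Finset (Lab l W p) := acc \ hv with hlt
  have hheavy : 2 ^ t * hv.card ≤ Fintype.card (Lab l W p) :=
    heavy_small_l ht hW hp hs B hS hB hv (fun D hD => (mem_filter.1 hD).2)
  -- light labelings: the zeroed inputs are accepted
  have hlight : ∀ D ∈ lt, (univ.filter (fun v : Fin W => ∀ T, ¬ AccTree B (bad D v) T)).card ≤
      2 * (t + R) := by
    intro D hD
    obtain ⟨hD1, hD2⟩ := mem_sdiff.1 hD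
    obtain ⟨T, hT, hlen, hTr⟩ := (mem_filter.1 hD1).2
    have h1 : (treadAt D T).card < 2 * t + R := by
      by_contra hcon
      exact hD2 (mem_filter.2 ⟨mem_univ _, T, hT, hTr, hlen, not_lt.1 hcon⟩)
    refine le_trans (card_le_card ?_) (show (treadAt D T).card ≤ 2 * (t + R) by omega)
    intro v hvv
    by_contra hvn
    exact (mem_filter.1 hvv).2 T (tacc_bad B D T hT v hvn)
  constructor
  · -- count
    have hset : {ω : Lab l W p × Fin W × Bool |
        RightTree B r (2 ^ l) (if ω.2.2 then inp ω.1 else bad ω.1 ω.2.1)} =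
        ↑(univ.filter (fun ω : Lab l W p × Fin W × Bool =>
          RightTree B r (2 ^ l) (if ω.2.2 then inp ω.1 else bad ω.1 ω.2.1))) := by
      ext ω; simp
    rw [hset, Set.ncard_coe_finset]
    set R1 : Finset (Lab l W p × Fin W × Bool) := (acc ×ˢ (univ : Finset (Fin W))).image
      (fun q => (q.1, q.2, true)) with hR1
    set R2 : Finset (Lab l W p × Fin W × Bool) := (ltᶜ ×ˢ (univ : Finset (Fin W))).image
      (fun q => (q.1, q.2, false)) with hR2
    set R3 : Finset (Lab l W p × Fin W × Bool) := (lt.sigma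
      (fun D => univ.filter (fun v : Fin W => ∀ T, ¬ AccTree B (bad D v) T))).image
      (fun q => (q.1, q.2, false)) with hR3
    have hsub : (univ.filter (fun ω : Lab l W p × Fin W × Bool =>
          RightTree B r (2 ^ l) (if ω.2.2 then inp ω.1 else bad ω.1 ω.2.1))) ⊆ R1 ∪ R2 ∪ R3 := by
      rintro ⟨D, v, b⟩ hω
      have hR := (mem_filter.1 hω).2
      cases b with
      | true =>
        simp only [if_true] at hR
        refine mem_union_left _ (mem_union_left _ (mem_image.2 ⟨(D, v),
          mem_product.2 ⟨?_, mem_univ _⟩, rfl⟩))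
        rcases hR with ⟨_, h⟩ | ⟨h, _⟩
        · exact mem_filter.2 ⟨mem_univ _, h⟩
        · exact absurd (yes_inp hw D) h
      | false =>
        simp only [Bool.false_eq_true, if_false] at hR
        have hR' : ∀ T, ¬ AccTree B (bad D v) T := by
          rcases hR with ⟨h, _⟩ | ⟨_, h⟩
          · exact absurd h (not_yes_bad (by omega) D v)
          · exact h
        by_cases hDl : D ∈ lt
        · exact mem_union_right _ (mem_image.2 ⟨⟨D, v⟩,
            mem_sigma.2 ⟨hDl, mem_filter.2 ⟨mem_univ _, hR'⟩⟩, rfl⟩)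
        · exact mem_union_left _ (mem_union_right _ (mem_image.2 ⟨(D, v),
            mem_product.2 ⟨mem_compl.2 hDl, mem_univ _⟩, rfl⟩))
    have hc := card_le_card hsub
    have hc1 : R1.card ≤ acc.card * W := by
      refine card_image_le.trans ?_
      rw [card_product, card_univ, Fintype.card_fin]
    have hc2 : R2.card ≤ (Fintype.card (Lab l W p) - lt.card) * W := by
      refine card_image_le.trans ?_
      rw [card_product, card_univ, Fintype.card_fin, card_compl]
    have hc3 : R3.card ≤ lt.card * (2 * (t + R)) := by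
      refine card_image_le.trans ?_
      rw [card_sigma]
      exact (sum_le_card_nsmul _ _ _ hlight)
    have hc4 := (card_union_le (R1 ∪ R2) R3).trans (Nat.add_le_add_right (card_union_le R1 R2) _)
    have hacc2 : acc.card ≤ hv.card + lt.card := by
      have h1 : acc ⊆ hv ∪ lt := by
        intro D hD
        by_cases h : D ∈ hv
        · exact mem_union_left _ h
        · exact mem_union_right _ (mem_sdiff.2 ⟨hD, h⟩)
      exact (card_le_card h1).trans (card_union_le _ _)
    have hltle : lt.card ≤ Fintype.card (Lab l W p) := card_le_univ lt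
    have htot : Nat.card (Lab l W p × Fin W × Bool) = Fintype.card (Lab l W p) * (W * 2) := by
      rw [Nat.card_eq_fintype_card, Fintype.card_prod, Fintype.card_prod, Fintype.card_fin,
        Fintype.card_bool]
    rw [htot]
    set N := Fintype.card (Lab l W p) with hN
    set F := univ.filter (fun ω : Lab l W p × Fin W × Bool =>
          RightTree B r (2 ^ l) (if ω.2.2 then inp ω.1 else bad ω.1 ω.2.1)) with hF
    have hnat : F.card ≤ (hv.card + lt.card) * W + (N - lt.card) * W + lt.card * (2 * (t + R)) := by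
      calc F.card ≤ R1.card + R2.card + R3.card := hc.trans hc4
        _ ≤ acc.card * W + (N - lt.card) * W + lt.card * (2 * (t + R)) := by omega
        _ ≤ _ := by gcongr
    have hnat2 : F.card ≤ hv.card * W + N * W + N * (2 * (t + R)) := by
      have h5 : (hv.card + lt.card) * W + (N - lt.card) * W = hv.card * W + N * W := by
        have : N = (N - lt.card) + lt.card := by omega
        calc (hv.card + lt.card) * W + (N - lt.card) * W =
            hv.card * W + ((N - lt.card) + lt.card) * W := by ring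
          _ = _ := by rw [← this]
      have h6 : lt.card * (2 * (t + R)) ≤ N * (2 * (t + R)) := Nat.mul_le_mul_right _ hltle
      omega
    have hreal : (F.card : ℝ) ≤ hv.card * W + N * W + N * (2 * (t + R)) := by exact_mod_cast hnat2
    have hhr : (2 : ℝ) ^ t * hv.card ≤ N := by exact_mod_cast hheavy
    have hWr : (128 : ℝ) * (t + R) ≤ W := by exact_mod_cast hW
    have h2t : (0 : ℝ) < 2 ^ t := by positivity
    have hhr' : (hv.card : ℝ) ≤ N / 2 ^ t := by
      rw [le_div_iff₀ h2t]; linarith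
    have htr : (0 : ℝ) ≤ t := by positivity
    have hfin : (hv.card : ℝ) * W ≤ N / 2 ^ t * W := by
      exact mul_le_mul_of_nonneg_right hhr' (by positivity)
    calc (F.card : ℝ) ≤ hv.card * W + N * W + N * (2 * (t + R)) := hreal
      _ ≤ N / 2 ^ t * W + N * W + N * (2 * (t + R)) := by linarith
      _ ≤ N / 2 ^ t * W + N * W + N * (2 * (W / 128)) := by
        have hN0 : (0 : ℝ) ≤ N := by positivity
        have : (t + R : ℝ) ≤ W / 128 := by linarith
        nlinarith
      _ = (1 / 2 + 1 / 128 + 1 / 2 ^ (t + 1)) * ((N * (W * 2) : ℕ) : ℝ) := by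
        push_cast
        rw [pow_succ]
        field_simp
        ring
  · intro hsound
    have hset : {D : Lab l W p | ∃ T, AccTree B (inp D) T ∧ tsize T < 2 ^ l ∧
        (treads T \ relevant (inp D)).encard ≤ r} ⊆ ↑hv := by
      rintro D ⟨T, hT, hlen, hTr⟩
      refine mem_coe.2 (mem_filter.2 ⟨mem_univ _, T, hT, hTr, hlen, ?_⟩)
      have : treadAt D T = univ := by
        rw [eq_univ_iff_forall]
        intro v
        by_contra hvn
        exact hsound _ (not_yes_bad (by omega) D v) T (tacc_bad B D T hT v hvn)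
      rw [this, card_univ, Fintype.card_fin]
      omega
    have h1 : ({D : Lab l W p | ∃ T, AccTree B (inp D) T ∧ tsize T < 2 ^ l ∧
        (treads T \ relevant (inp D)).encard ≤ r}.ncard : ℕ) ≤ hv.card := by
      have := Set.ncard_le_ncard hset (Set.toFinite _)
      rwa [Set.ncard_coe_finset] at this
    have hhr : (2 : ℝ) ^ t * hv.card ≤ Fintype.card (Lab l W p) := by exact_mod_cast hheavy
    have h2t : (0 : ℝ) < 2 ^ t := by positivity
    rw [Nat.card_eq_fintype_card, one_div, inv_mul_eq_div, le_div_iff₀ h2t]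
    have h1r : (({D : Lab l W p | ∃ T, AccTree B (inp D) T ∧ tsize T < 2 ^ l ∧
        (treads T \ relevant (inp D)).encard ≤ r}.ncard : ℕ) : ℝ) ≤ hv.card := by
      exact_mod_cast h1
    nlinarith

/-- The form with `2 ^ t` states: `l ≤ 2 ^ t`, trees of size `< 2 ^ l`. -/
theorem tmain_l {l t R W A r p : ℕ} [Fact p.Prime] {S : Type} [Fintype S]
    (ht : 0 < t) (hl : l ≤ 2 ^ t) (hW : 128 * (t + R) ≤ W) (hp : 2 * W ≤ p)
    (hr : 48 * ((A + 1) * (2 * r + 1)) < p)
    (B : Prog (Entry l W p) (ZMod p) S) (hS : Fintype.card S ≤ 2 ^ t)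
    (hB : FewWastefulTrees B A R) :
    (({ω : Lab l W p × Fin W × Bool |
        RightTree B r (2 ^ l) (if ω.2.2 then inp ω.1 else bad ω.1 ω.2.1)}.ncard : ℕ) : ℝ) ≤
      (1 / 2 + 1 / 128 + 1 / 2 ^ (t + 1)) *
        Nat.card (Lab l W p × Fin W × Bool) ∧
    ((∀ x, ¬ Yes x → ∀ T, ¬ AccTree B x T) →
      (({D : Lab l W p | ∃ T, AccTree B (inp D) T ∧ tsize T < 2 ^ l ∧
        (treads T \ relevant (inp D)).encard ≤ r}.ncard : ℕ) : ℝ) ≤
      1 / 2 ^ t * Nat.card (Lab l W p)) := by
  refine low (s := 2 ^ t) ht hW hp ?_ B hS hB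
  calc (2 ^ t) ^ 2 * l * (6 * ((A + 1) * (2 * r + 1))) ^ t
      ≤ (2 ^ t) ^ 2 * 2 ^ t * (6 * ((A + 1) * (2 * r + 1))) ^ t := by gcongr
    _ = (48 * ((A + 1) * (2 * r + 1))) ^ t := by
        have h1 : 48 * ((A + 1) * (2 * r + 1)) = 8 * (6 * ((A + 1) * (2 * r + 1))) := by ring
        have h2 : (2 ^ t) ^ 2 * 2 ^ t = 8 ^ t := by
          calc (2 ^ t) ^ 2 * 2 ^ t = (2 ^ t) ^ 3 := by ring
            _ = (2 ^ 3) ^ t := by rw [← pow_mul, ← pow_mul, mul_comm]
            _ = 8 ^ t := by norm_num
        rw [h1, h2, ← mul_pow]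
    _ ≤ (p - 1) ^ t := Nat.pow_le_pow_left (by omega) t

end Pool.Agent.UW
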