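import Pool.Agent.UW.Defs

namespace Pool.Agent.UW

variable {E K S : Type}

theorem seg_append (B : NBP E K S) (x : E → K) (q : S) (w1 w2 : List (Option (E × Set K) × S)) (q' : S) :
    Seg B x q (w1 ++ w2) q' ↔ ∃ m, Seg B x q w1 m ∧ Seg B x m w2 q' := by
  induction w1 generalizing q with
  | nil =>
    constructor
    · intro h; exact ⟨q, rfl, h⟩
    · rintro ⟨m, h1, h2⟩
      have : q = m := h1
      subst this
      exact h2
  | cons a w1 ih =>
    obtain ⟨l, s⟩ := a
    constructor
    · rintro ⟨he, hp, h⟩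
      obtain ⟨m, h1, h2⟩ := (ih s).1 h
      exact ⟨m, ⟨he, hp, h1⟩, h2⟩
    · rintro ⟨m, ⟨he, hp, h1⟩, h2⟩
      exact ⟨he, hp, (ih s).2 ⟨m, h1, h2⟩⟩

theorem seg_congr (B : NBP E K S) (x y : E → K) (q : S) (w : List (Option (E × Set K) × S)) (q' : S)
    (h : Seg B x q w q') (hxy : ∀ e ∈ reads w, x e = y e) : Seg B y q w q' := by
  induction w generalizing q with
  | nil => exact h
  | cons a w ih =>
    obtain ⟨l, s⟩ := a
    obtain ⟨he, hp, h⟩ := h
    refine ⟨he, ?_, ih s h ?_⟩
    · cases l with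
      | none => trivial
      | some l =>
        obtain ⟨e, z⟩ := l
        have h1 : x e ∈ z := hp
        have h2 : x e = y e := hxy e ⟨z, s, List.mem_cons_self⟩
        show y e ∈ z
        rw [← h2]
        exact h1
    · rintro e ⟨z, s', hm⟩
      exact hxy e ⟨z, s', List.mem_cons_of_mem _ hm⟩

theorem seg_label (B : NBP E K S) (x : E → K) (q : S) (w : List (Option (E × Set K) × S)) (q' : S)
    (h : Seg B x q w q') {e : E} {P : Set K} {s : S} (hm : (some (e, P), s) ∈ w) : x e ∈ P := by
  induction w generalizing q with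
  | nil => simp at hm
  | cons a w ih =>
    obtain ⟨l, s'⟩ := a
    obtain ⟨he, hp, h⟩ := h
    rcases List.mem_cons.1 hm with h1 | h1
    · have : l = some (e, P) := (congrArg Prod.fst h1).symm
      subst this
      exact hp
    · exact ih s' h h1

/-- The entries read by a concatenation. -/
theorem reads_append (w1 w2 : List (Option (E × Set K) × S)) : reads (w1 ++ w2) = reads w1 ∪ reads w2 := by
  ext e
  constructor
  · rintro ⟨z, s, h⟩
    rcases List.mem_append.1 h with h | h
    · exact Or.inl ⟨z, s, h⟩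
    · exact Or.inr ⟨z, s, h⟩
  · rintro (⟨z, s, h⟩ | ⟨z, s, h⟩)
    · exact ⟨z, s, List.mem_append.2 (Or.inl h)⟩
    · exact ⟨z, s, List.mem_append.2 (Or.inr h)⟩

end Pool.Agent.UW
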