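import Pool.Agent.UW.TWaste
import Pool.Agent.UW.Class

/-!
The class bound and the class count for programs with forks.
-/

set_option autoImplicit false

namespace Pool.Agent.UW

open Finset

variable {S : Type}

/-- The irrelevant entries of level `j` which a tree reads. -/
noncomputable def tirr {l w p : ℕ} [NeZero p] (D : Lab l w p) (j : Fin (l + 2))
    (T : Tree (Entry l w p) (ZMod p) S) : Finset (Fin w × ZMod p) := by
  classical
  exact univ.filter (fun vb => (j, vb.1, vb.2) ∈ treads T \ relevant (inp D))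

theorem tirr_card {l w p : ℕ} [NeZero p] (D : Lab l w p) (j : Fin (l + 2))
    (T : Tree (Entry l w p) (ZMod p) S) (r : ℕ)
    (h : (treads T \ relevant (inp D)).encard ≤ r) : (tirr D j T).card ≤ r := by
  classical
  have h1 : ((fun vb : Fin w × ZMod p => ((j, vb.1, vb.2) : Entry l w p)) ''
      (↑(tirr D j T) : Set (Fin w × ZMod p))) ⊆ treads T \ relevant (inp D) := by
    rintro e ⟨vb, hvb, rfl⟩
    have : vb ∈ tirr D j T := hvb
    unfold tirr at this
    exact (mem_filter.1 this).2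
  have hinj : Function.Injective (fun vb : Fin w × ZMod p => ((j, vb.1, vb.2) : Entry l w p)) := by
    rintro ⟨a, b⟩ ⟨a', b'⟩ h
    simp only [Prod.mk.injEq] at h
    exact Prod.ext h.2.1 h.2.2
  have h2 := (Set.encard_le_encard h1).trans h
  rw [hinj.encard_image, Set.encard_coe_eq_coe_finsetCard] at h2
  exact_mod_cast h2

/-- One class has at most `((A + 1) (2 r + 1)) ^ t` labelings. -/
theorem tclass_card {l w p : ℕ} [Fact p.Prime] (hp : 2 * w ≤ p) (B : Prog (Entry l w p) (ZMod p) S)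
    (A R r t : ℕ) (ht : t ≤ w) (hB : FewWastefulTrees B A R) (q1 q2 : S) (i : Fin l) (Y : Finset (Fin w))
    (hY : Y.card = t)
    (C : Finset (Lab l w p)) (w1 w2 : Lab l w p → List (Frame (Entry l w p) (ZMod p) S))
    (w3 : Lab l w p → Tree (Entry l w p) (ZMod p) S)
    (hD : ∀ D ∈ C, ∀ D' ∈ C, ∀ j v, (j = i.castSucc.castSucc → v ∉ Y) → D j v = D' j v)
    (h1 : ∀ D ∈ C, CRun B (inp D) B.start (w1 D) q1) (h2 : ∀ D ∈ C, CRun B (inp D) q1 (w2 D) q2)
    (h3 : ∀ D ∈ C, Run B (inp D) q2 (w3 D))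
    (hr : ∀ D ∈ C, (treads (whole (w1 D) (w2 D) (w3 D)) \ relevant (inp D)).encard ≤ r)
    (hX : ∀ D ∈ C, ∃ T : Finset (Fin w), T.card = 2 * t + R ∧ ∀ v ∈ T,
      ((i.succ.castSucc, v, argD D i.succ.castSucc v) : Entry l w p) ∈ creads (w2 D))
    (hYn : ∀ D ∈ C, ∀ v ∈ Y,
      ((i.castSucc.castSucc, v, argD D i.castSucc.castSucc v) : Entry l w p) ∉ creads (w2 D)) :
    C.card ≤ ((A + 1) * (2 * r + 1)) ^ t := by
  classical
  have hp0 : NeZero p := ⟨(Fact.out : p.Prime).ne_zero⟩
  have hlvl : i.succ.castSucc ≠ Fin.last (l + 1) := by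
    intro h
    exact absurd h (Fin.castSucc_lt_last _).ne
  -- injectivity from the arguments of `t` nodes
  have hinj : ∀ D ∈ C, ∀ D' ∈ C, ∀ T : Finset (Fin w), T.card = t →
      (∀ v ∈ T, argD D i.succ.castSucc v = argD D' i.succ.castSucc v) → D = D' := by
    intro D hDC D' hDC' T hT h
    have harg : ∀ (D : Lab l w p) v, argD D i.succ.castSucc v =
        ∑ u, M w p v u * (D i.castSucc.castSucc u : ZMod p) := fun D v => rfl
    have hc := cauchy hp T Y (by rw [hY, hT])
      (fun u => (D i.castSucc.castSucc u : ZMod p) - (D' i.castSucc.castSucc u : ZMod p)) (by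
        intro u hu
        rw [hD D hDC D' hDC' _ u (fun _ => hu), sub_self]) (by
        intro v hv
        have := h v hv
        rw [harg, harg] at this
        simp only [mul_sub, sum_sub_distrib, this, sub_self])
    funext j v
    by_cases hjv : j = i.castSucc.castSucc ∧ v ∈ Y
    · obtain ⟨rfl, hv⟩ := hjv
      have := congrFun hc v
      simp only [Pi.zero_apply, sub_eq_zero] at this
      exact Units.ext this
    · exact hD D hDC D' hDC' j v (fun hj hv => hjv ⟨hj, hv⟩)
  have hrel : ∀ (D : Lab l w p) (v : Fin w) (b : ZMod p),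
      ((i.succ.castSucc, v, b) : Entry l w p) ∈ relevant (inp D) ↔ b = argD D i.succ.castSucc v := by
    intro D v b
    constructor
    · rintro ⟨h, _⟩
      rw [← arg_inp D]
      exact h
    · intro h
      refine ⟨?_, fun h' => absurd h' hlvl⟩
      show b = arg (inp D) i.succ.castSucc v
      rw [arg_inp, h]
  refine greedy C (fun D v => argD D i.succ.castSucc v)
    (fun D => tirr D i.succ.castSucc (whole (w1 D) (w2 D) (w3 D))) r (A + 1) t (Nat.succ_pos A) (by simpa using ht)
    (fun D hDC => tirr_card D _ _ r (hr D hDC)) ?_ hinj ?_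
  · intro D hDC v hv
    unfold tirr at hv
    exact (mem_filter.1 hv).2.2 ((hrel D v _).2 rfl)
  · intro I hIC hI
    refine thybrid_waste B A R t hB q1 q2 i Y I w1 w2 w3
      (fun D h D' h' => hD D (hIC h) D' (hIC h')) (fun D h => h1 D (hIC h))
      (fun D h => h2 D (hIC h)) (fun D h => h3 D (hIC h)) (fun D h => hX D (hIC h))
      (fun D h => hYn D (hIC h)) (fun D h D' h' => hinj D (hIC h) D' (hIC h')) ?_
    · intro D hDI D' hDI' hne e he he'
      by_contra hdiff
      rcases differ D D' i Y (hD D (hIC hDI) D' (hIC hDI')) e hdiff with ⟨ha, hb, hc⟩ | ⟨ha, hb, hc | hc⟩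
      · obtain ⟨e1, e2, e3⟩ := e
        simp only at ha hb hc
        subst ha
        subst hc
        exact hYn D (hIC hDI) e2 hb he
      · obtain ⟨e1, e2, e3⟩ := e
        simp only at ha hb hc
        subst ha
        subst hc
        refine hI D' hDI' D hDI (Ne.symm hne) e2 ?_
        unfold tirr
        refine mem_filter.2 ⟨mem_univ _, he', fun h => hb ((hrel D' e2 _).1 h)⟩
      · obtain ⟨e1, e2, e3⟩ := e
        simp only at ha hb hc
        subst ha
        subst hc
        refine hI D hDI D' hDI' hne e2 ?_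
        unfold tirr
        refine mem_filter.2 ⟨mem_univ _, ?_, fun h => hb ((hrel D e2 _).1 h).symm⟩
        rw [treads_whole]
        exact Or.inr (Or.inl he)



theorem tclass_count {l w p : ℕ} [Fact p.Prime] {S : Type} [Fintype S] (hp : 2 * w ≤ p)
    (B : Prog (Entry l w p) (ZMod p) S)
    (A R r t : ℕ) (ht : t ≤ w) (hB : FewWastefulTrees B A R) (Y : Finset (Fin w)) (hY : Y.card = t)
    (G : Finset (Lab l w p)) (w1 w2 : Lab l w p → List (Frame (Entry l w p) (ZMod p) S))
    (w3 : Lab l w p → Tree (Entry l w p) (ZMod p) S)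
    (q1 q2 : Lab l w p → S) (i : Lab l w p → Fin l)
    (h1 : ∀ D ∈ G, CRun B (inp D) B.start (w1 D) (q1 D))
    (h2 : ∀ D ∈ G, CRun B (inp D) (q1 D) (w2 D) (q2 D))
    (h3 : ∀ D ∈ G, Run B (inp D) (q2 D) (w3 D))
    (hr : ∀ D ∈ G, (treads (whole (w1 D) (w2 D) (w3 D)) \ relevant (inp D)).encard ≤ r)
    (hX : ∀ D ∈ G, ∃ T : Finset (Fin w), T.card = 2 * t + R ∧ ∀ v ∈ T,
      (((i D).succ.castSucc, v, argD D (i D).succ.castSucc v) : Entry l w p) ∈ creads (w2 D))
    (hYn : ∀ D ∈ G, ∀ v ∈ Y,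
      (((i D).castSucc.castSucc, v, argD D (i D).castSucc.castSucc v) : Entry l w p) ∉ creads (w2 D)) :
    G.card * (p - 1) ^ t ≤
      (Fintype.card S) ^ 2 * l * ((A + 1) * (2 * r + 1)) ^ t * (p - 1) ^ ((l + 2) * w) := by
  classical
  set T1 : Finset ((_ : Fin l) × Lab l w p) := (univ : Finset (Fin l)).sigma
    (fun j => univ.filter (fun D : Lab l w p => ∀ v ∈ Y, D j.castSucc.castSucc v = 1)) with hT1
  set T : Finset ((S × S) × ((_ : Fin l) × Lab l w p)) := univ ×ˢ T1 with hT
  set f : Lab l w p → (S × S) × ((_ : Fin l) × Lab l w p) := fun D =>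
    ((q1 D, q2 D), ⟨i D, reset D (i D).castSucc.castSucc Y⟩) with hf
  have hmap : ∀ D ∈ G, f D ∈ T := by
    intro D hD
    refine mem_product.2 ⟨mem_univ _, mem_sigma.2 ⟨mem_univ _, ?_⟩⟩
    refine mem_filter.2 ⟨mem_univ _, fun v hv => ?_⟩
    show reset D (i D).castSucc.castSucc Y (i D).castSucc.castSucc v = 1
    unfold reset
    rw [if_pos ⟨rfl, hv⟩]
  have hfib : ∀ b ∈ T, (G.filter (fun D => f D = b)).card ≤ ((A + 1) * (2 * r + 1)) ^ t := by
    rintro ⟨⟨a1, a2⟩, ⟨j, D0⟩⟩ hb
    have key : ∀ D ∈ G.filter (fun D => f D = ((a1, a2), ⟨j, D0⟩)), D ∈ G ∧ q1 D = a1 ∧ q2 D = a2 ∧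
        i D = j ∧ reset D j.castSucc.castSucc Y = D0 := by
      intro D hD
      obtain ⟨hDG, hDf⟩ := mem_filter.1 hD
      have e1 : q1 D = a1 := congrArg (fun z => z.1.1) hDf
      have e2 : q2 D = a2 := congrArg (fun z => z.1.2) hDf
      have e3 : i D = j := congrArg (fun z => z.2.1) hDf
      have e5 : reset D (i D).castSucc.castSucc Y = D0 := congrArg (fun z => z.2.2) hDf
      rw [e3] at e5
      exact ⟨hDG, e1, e2, e3, e5⟩
    refine tclass_card hp B A R r t ht hB a1 a2 j Y hY _ w1 w2 w3 ?_ ?_ ?_ ?_ ?_ ?_ ?_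
    · intro D hD D' hD' k v hk
      obtain ⟨-, -, -, -, h⟩ := key D hD
      obtain ⟨-, -, -, -, h'⟩ := key D' hD'
      have := congrFun (congrFun (h.trans h'.symm) k) v
      unfold reset at this
      by_cases hkv : k = j.castSucc.castSucc ∧ v ∈ Y
      · exact absurd hkv.2 (hk hkv.1)
      · rwa [if_neg hkv, if_neg hkv] at this
    · intro D hD
      obtain ⟨hG, e1, e2, e3, -⟩ := key D hD
      rw [← e1]; exact h1 D hG
    · intro D hD
      obtain ⟨hG, e1, e2, e3, -⟩ := key D hD
      rw [← e1, ← e2]; exact h2 D hG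
    · intro D hD
      obtain ⟨hG, e1, e2, e3, -⟩ := key D hD
      rw [← e2]; exact h3 D hG
    · intro D hD
      exact hr D (key D hD).1
    · intro D hD
      obtain ⟨hG, e1, e2, e3, -⟩ := key D hD
      rw [← e3]; exact hX D hG
    · intro D hD
      obtain ⟨hG, e1, e2, e3, -⟩ := key D hD
      rw [← e3]; exact hYn D hG
  have hle := card_le_mul_card_image_of_maps_to hmap _ hfib
  have hT1c : T1.card * (p - 1) ^ t = l * (p - 1) ^ ((l + 2) * w) := by
    rw [hT1, card_sigma, sum_mul]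
    have : ∀ j ∈ (univ : Finset (Fin l)), (univ.filter (fun D : Lab l w p => ∀ v ∈ Y,
        D j.castSucc.castSucc v = 1)).card * (p - 1) ^ t = (p - 1) ^ ((l + 2) * w) := by
      intro j _
      have := card_resets (p := p) j.castSucc.castSucc Y
      rwa [hY] at this
    rw [sum_congr rfl this, sum_const, smul_eq_mul, card_univ, Fintype.card_fin]
  have hTc : T.card = (Fintype.card S) ^ 2 * T1.card := by
    rw [hT, card_product, card_univ, Fintype.card_prod, sq]
  calc G.card * (p - 1) ^ t ≤ (((A + 1) * (2 * r + 1)) ^ t * T.card) * (p - 1) ^ t :=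
        Nat.mul_le_mul_right _ hle
    _ = (Fintype.card S) ^ 2 * ((A + 1) * (2 * r + 1)) ^ t * (T1.card * (p - 1) ^ t) := by
        rw [hTc]; ring
    _ = _ := by rw [hT1c]; ring


end Pool.Agent.UW
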