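import Pool.Agent.UW.Defs

/-!
Programs that may also fork (semi-unbounded circuits, `LogCFL`), and their accepting trees.
-/

set_option autoImplicit false

namespace Pool.Agent.UW

/-- A program with states (gates) `S` on inputs `x : E → K`: an edge with label `none` is free, an
edge with label `some (e, P)` may be used if `x e ∈ P`; a fork `q → s, s'` asks for acceptance from
both `s` and `s'`. -/
structure Prog (E K S : Type) where
  start : S
  acc : S
  edge : S → Option (E × Set K) → S → Prop
  fork : S → S → S → Prop

/-- Computation trees: nothing more, a step along an edge, or a fork. -/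
inductive Tree (E K S : Type) : Type
  | stop : Tree E K S
  | step (l : Option (E × Set K)) (s : S) (T : Tree E K S) : Tree E K S
  | fork (s s' : S) (T T' : Tree E K S) : Tree E K S

variable {E K S : Type}

/-- `Run B x q T`: the tree `T` is an accepting computation of `B` from the state `q` on `x`. -/
def Run (B : Prog E K S) (x : E → K) : S → Tree E K S → Prop
  | q, .stop => q = B.acc
  | q, .step l s T => B.edge q l s ∧ Passes x l ∧ Run B x s T
  | q, .fork s s' T T' => B.fork q s s' ∧ Run B x s T ∧ Run B x s' T'

/-- `T` is an accepting tree on input `x`. -/
def AccTree (B : Prog E K S) (x : E → K) (T : Tree E K S) : Prop := Run B x B.start T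

/-- The entry read by a label. -/
def lread : Option (E × Set K) → Set E
  | none => ∅
  | some (e, _) => {e}

/-- The entries read by a tree. -/
def treads : Tree E K S → Set E
  | .stop => ∅
  | .step l _ T => lread l ∪ treads T
  | .fork _ _ T T' => treads T ∪ treads T'

/-- Number of steps and forks of a tree. -/
def tsize : Tree E K S → ℕ
  | .stop => 0
  | .step _ _ T => tsize T + 1
  | .fork _ _ T T' => tsize T + tsize T' + 1

/-- On each input at most `A` accepting trees read more than `R` different irrelevant entries. -/
def FewWastefulTrees {l w p : ℕ} (B : Prog (Entry l w p) (ZMod p) S) (A R : ℕ) : Prop :=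
  ∀ x : Entry l w p → ZMod p,
    {T | AccTree B x T ∧ (R : ℕ∞) < (treads T \ relevant x).encard}.encard ≤ A

/-- `B` is right on `x`: if the value is not `0`, some accepting tree with less than `m` steps and
forks reads at most `r` different irrelevant entries; if it is `0`, there is no accepting tree. -/
def RightTree {l w p : ℕ} (B : Prog (Entry l w p) (ZMod p) S) (r m : ℕ)
    (x : Entry l w p → ZMod p) : Prop :=
  (Yes x ∧ ∃ T, AccTree B x T ∧ tsize T < m ∧ (treads T \ relevant x).encard ≤ r) ∨
  (¬ Yes x ∧ ∀ T, ¬ AccTree B x T)

end Pool.Agent.UW
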