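import Pool.Agent.UW.TSeg

/-!
Window lemma for trees: a small tree which reads nodes of the level `l` has a window (a context inside
the tree) which reads many nodes of a level `i + 1` but few nodes of the level `i`.
-/

set_option autoImplicit false

namespace Pool.Agent.UW

variable {E K S : Type} {W : ℕ}

/-- The node, if it is a node of the level `i`. -/
def one (o : Option (ℕ × Fin W)) (i : ℕ) : Finset (Fin W) :=
  match o with
  | none => ∅
  | some (j, v) => if j = i then {v} else ∅

theorem one_card (o : Option (ℕ × Fin W)) (i : ℕ) : (one o i).card ≤ 1 := by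
  unfold one
  split
  · simp
  · split <;> simp

theorem mem_one (o : Option (ℕ × Fin W)) (i : ℕ) (v : Fin W) : v ∈ one o i ↔ o = some (i, v) := by
  cases o with
  | none => simp [one]
  | some o =>
    obtain ⟨j, u⟩ := o
    unfold one
    by_cases h : j = i
    · subst h
      simp [eq_comm]
    · simp [h]

/-- The nodes of the level `i` which the tree reads; `c l = some (i, v)`: a step with the label `l`
reads node `v` of level `i`. -/
def tseen (c : Option (E × Set K) → Option (ℕ × Fin W)) (i : ℕ) : Tree E K S → Finset (Fin W)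
  | .stop => ∅
  | .step l _ T => one (c l) i ∪ tseen c i T
  | .fork _ _ T T' => tseen c i T ∪ tseen c i T'

/-- The nodes of the level `i` which the frame reads. -/
def fseen (c : Option (E × Set K) → Option (ℕ × Fin W)) (i : ℕ) : Frame E K S → Finset (Fin W)
  | .step l _ => one (c l) i
  | .left _ _ T' => tseen c i T'
  | .right _ _ T => tseen c i T

/-- The nodes of the level `i` which the context reads. -/
def cseen (c : Option (E × Set K) → Option (ℕ × Fin W)) (i : ℕ) :
    List (Frame E K S) → Finset (Fin W)
  | [] => ∅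
  | f :: d => fseen c i f ∪ cseen c i d

/-- The number of steps and forks of a frame. -/
def fsize : Frame E K S → ℕ
  | .step _ _ => 1
  | .left _ _ T' => tsize T' + 1
  | .right _ _ T => tsize T + 1

/-- The number of steps and forks of a context. -/
def csize : List (Frame E K S) → ℕ
  | [] => 0
  | f :: d => fsize f + csize d

theorem tsize_fill1 (f : Frame E K S) (T : Tree E K S) : tsize (fill1 f T) = fsize f + tsize T := by
  cases f <;> simp only [fill1, tsize, fsize] <;> omega

theorem tsize_fill (d : List (Frame E K S)) (T : Tree E K S) :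
    tsize (fill d T) = csize d + tsize T := by
  induction d with
  | nil => simp [csize]
  | cons f d ih =>
    rw [fill_cons, tsize_fill1, ih]
    show fsize f + (csize d + tsize T) = fsize f + csize d + tsize T
    omega

theorem csize_append (d e : List (Frame E K S)) : csize (d ++ e) = csize d + csize e := by
  induction d with
  | nil => simp [csize]
  | cons f d ih =>
    show fsize f + csize (d ++ e) = fsize f + csize d + csize e
    rw [ih]
    omega

theorem cseen_append (c : Option (E × Set K) → Option (ℕ × Fin W)) (i : ℕ)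
    (d e : List (Frame E K S)) : cseen c i (d ++ e) = cseen c i d ∪ cseen c i e := by
  induction d with
  | nil => simp [cseen]
  | cons f d ih =>
    show fseen c i f ∪ cseen c i (d ++ e) = fseen c i f ∪ cseen c i d ∪ cseen c i e
    rw [ih, Finset.union_assoc]

theorem tseen_fill1 (c : Option (E × Set K) → Option (ℕ × Fin W)) (i : ℕ) (f : Frame E K S)
    (T : Tree E K S) : tseen c i (fill1 f T) = fseen c i f ∪ tseen c i T := by
  cases f with
  | step l s => rfl
  | left s s' T' => exact Finset.union_comm _ _
  | right s s' T' => rfl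

theorem tseen_fill (c : Option (E × Set K) → Option (ℕ × Fin W)) (i : ℕ)
    (d : List (Frame E K S)) (T : Tree E K S) :
    tseen c i (fill d T) = cseen c i d ∪ tseen c i T := by
  induction d with
  | nil => simp [cseen]
  | cons f d ih =>
    rw [fill_cons, tseen_fill1, ih]
    show fseen c i f ∪ (cseen c i d ∪ tseen c i T) = fseen c i f ∪ cseen c i d ∪ tseen c i T
    rw [Finset.union_assoc]

theorem tseen_fill_stop (c : Option (E × Set K) → Option (ℕ × Fin W)) (i : ℕ)
    (d : List (Frame E K S)) : tseen c i (fill d (.stop : Tree E K S)) = cseen c i d := by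
  rw [tseen_fill]
  simp [tseen]

theorem tsize_fill_stop (d : List (Frame E K S)) : tsize (fill d (.stop : Tree E K S)) = csize d := by
  rw [tsize_fill]
  simp [tsize]

/-- `d` is a segment of the context `e`. -/
def SubC (d e : List (Frame E K S)) : Prop := ∀ T, ∃ c1 T3, fill e T = fill c1 (fill d T3)

theorem SubC.trans {a b c : List (Frame E K S)} (h : SubC a b) (h' : SubC b c) : SubC a c := by
  intro T
  obtain ⟨c1, t1, e1⟩ := h' T
  obtain ⟨c2, t2, e2⟩ := h t1
  exact ⟨c1 ++ c2, t2, by rw [e1, e2, fill_append]⟩

theorem subC_left (a b : List (Frame E K S)) : SubC a (a ++ b) := by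
  intro T
  exact ⟨[], fill b T, by rw [fill_append, fill_nil]⟩

theorem subC_right (a b : List (Frame E K S)) : SubC b (a ++ b) := by
  intro T
  exact ⟨a, T, by rw [fill_append]⟩

/-- If every frame of a list reads fewer than `m` nodes and the list at least `t'`, it has an initial
part which reads at least `t'` and fewer than `t' + m` nodes. -/
theorem exists_cut (c : Option (E × Set K) → Option (ℕ × Fin W)) (i t' m : ℕ)
    (e : List (Frame E K S)) (hf : ∀ f ∈ e, (fseen c i f).card < m) (he : t' ≤ (cseen c i e).card)
    (ht' : 0 < t') : ∃ a b, e = a ++ b ∧ t' ≤ (cseen c i a).card ∧ (cseen c i a).card < t' + m := by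
  induction e using List.reverseRecOn with
  | nil =>
    exfalso
    simp [cseen] at he
    omega
  | append_singleton r f ih =>
    by_cases hr : t' ≤ (cseen c i r).card
    · obtain ⟨a, b, e1, h1, h2⟩ := ih (fun g hg => hf g (List.mem_append_left _ hg)) hr
      exact ⟨a, b ++ [f], by rw [e1, List.append_assoc], h1, h2⟩
    · refine ⟨r ++ [f], [], by simp, he, ?_⟩
      have h1 : (cseen c i (r ++ [f])).card ≤ (cseen c i r).card + (fseen c i f).card := by
        rw [cseen_append]
        refine (Finset.card_union_le _ _).trans ?_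
        have : cseen c i [f] = fseen c i f := by simp [cseen]
        rw [this]
      have h2 := hf f (List.mem_append_right _ List.mem_cons_self)
      omega

/-- Either the tree has a fork both of whose subtrees read at least `t'` nodes, or it is a spine with
light frames. -/
theorem spine (c : Option (E × Set K) → Option (ℕ × Fin W)) (i t' : ℕ) (ht' : 0 < t')
    (T : Tree E K S) :
    (∃ (c1 : List (Frame E K S)) (s s' : S) (T1 T2 : Tree E K S), T = fill c1 (.fork s s' T1 T2) ∧
      t' ≤ (tseen c i T1).card ∧ t' ≤ (tseen c i T2).card) ∨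
    ∃ e : List (Frame E K S), T = fill e .stop ∧ ∀ f ∈ e, (fseen c i f).card < t' + 1 := by
  induction T with
  | stop => exact Or.inr ⟨[], rfl, by simp⟩
  | step l s T ih =>
    rcases ih with ⟨c1, a, b, T1, T2, h, h1, h2⟩ | ⟨e, h, he⟩
    · exact Or.inl ⟨.step l s :: c1, a, b, T1, T2, by rw [h]; rfl, h1, h2⟩
    · refine Or.inr ⟨.step l s :: e, by rw [h]; rfl, ?_⟩
      intro f hf
      rcases List.mem_cons.1 hf with rfl | hf
      · have := one_card (c l) i
        show (one (c l) i).card < t' + 1
        omega
      · exact he f hf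
  | fork s s' T1 T2 ih1 ih2 =>
    by_cases h1 : t' ≤ (tseen c i T1).card
    · by_cases h2 : t' ≤ (tseen c i T2).card
      · exact Or.inl ⟨[], s, s', T1, T2, rfl, h1, h2⟩
      · rcases ih1 with ⟨c1, a, b, r1, r2, h, h3, h4⟩ | ⟨e, h, he⟩
        · exact Or.inl ⟨.left s s' T2 :: c1, a, b, r1, r2, by rw [h]; rfl, h3, h4⟩
        · refine Or.inr ⟨.left s s' T2 :: e, by rw [h]; rfl, ?_⟩
          intro f hf
          rcases List.mem_cons.1 hf with rfl | hf
          · show (tseen c i T2).card < t' + 1
            omega
          · exact he f hf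
    · rcases ih2 with ⟨c1, a, b, r1, r2, h, h3, h4⟩ | ⟨e, h, he⟩
      · exact Or.inl ⟨.right s s' T1 :: c1, a, b, r1, r2, by rw [h]; rfl, h3, h4⟩
      · refine Or.inr ⟨.right s s' T1 :: e, by rw [h]; rfl, ?_⟩
        intro f hf
        rcases List.mem_cons.1 hf with rfl | hf
        · show (tseen c i T1).card < t' + 1
          omega
        · exact he f hf

/-- Every tree is a context with `stop` in its hole. -/
theorem exists_spine (T : Tree E K S) : ∃ e : List (Frame E K S), T = fill e .stop := by
  induction T with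
  | stop => exact ⟨[], rfl⟩
  | step l s T ih =>
    obtain ⟨e, h⟩ := ih
    exact ⟨.step l s :: e, by rw [h]; rfl⟩
  | fork s s' T1 T2 ih1 ih2 =>
    obtain ⟨e, h⟩ := ih2
    exact ⟨.right s s' T1 :: e, by rw [h]; rfl⟩

/-- The side tree of a frame of a context is a subtree. -/
theorem side_sub (e : List (Frame E K S)) (f : Frame E K S) (hf : f ∈ e) (T0 : Tree E K S)
    (hs : (∃ s s', f = .left s s' T0) ∨ ∃ s s', f = .right s s' T0) :
    (∀ T, ∃ c1, fill e T = fill c1 T0) ∧ tsize T0 ≤ csize e := by
  obtain ⟨e1, e2, he⟩ := List.append_of_mem hf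
  subst he
  constructor
  · intro T
    rcases hs with ⟨s, s', rfl⟩ | ⟨s, s', rfl⟩
    · exact ⟨e1 ++ [.right s s' (fill e2 T)], by rw [fill_append, fill_append]; rfl⟩
    · exact ⟨e1 ++ [.left s s' (fill e2 T)], by rw [fill_append, fill_append]; rfl⟩
  · rw [csize_append]
    show tsize T0 ≤ csize e1 + (fsize f + csize e2)
    rcases hs with ⟨s, s', rfl⟩ | ⟨s, s', rfl⟩ <;> simp only [fsize] <;> omega

/-- Two disjoint segments. -/
theorem exists_two (c : Option (E × Set K) → Option (ℕ × Fin W)) (i t' : ℕ) (ht' : 0 < t')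
    (e : List (Frame E K S)) (he : 5 * t' ≤ (cseen c i e).card) :
    ∃ a b : List (Frame E K S), SubC a e ∧ SubC b e ∧ csize a + csize b ≤ csize e ∧
      t' ≤ (cseen c i a).card ∧ t' ≤ (cseen c i b).card := by
  by_cases h : ∀ f ∈ e, (fseen c i f).card < 3 * t'
  · obtain ⟨a, b, e1, h1, h2⟩ := exists_cut c i t' (3 * t') e h (by omega) ht'
    subst e1
    refine ⟨a, b, subC_left a b, subC_right a b, (csize_append a b).ge, h1, ?_⟩
    have h3 : (cseen c i (a ++ b)).card ≤ (cseen c i a).card + (cseen c i b).card := by
      rw [cseen_append]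
      exact Finset.card_union_le _ _
    omega
  · push Not at h
    obtain ⟨f, hf, h3⟩ := h
    obtain ⟨T0, hs, h4⟩ : ∃ T0 : Tree E K S,
        ((∃ s s', f = .left s s' T0) ∨ ∃ s s', f = .right s s' T0) ∧
        3 * t' ≤ (tseen c i T0).card := by
      cases f with
      | step l s =>
        exfalso
        have := one_card (c l) i
        have h5 : 3 * t' ≤ (one (c l) i).card := h3
        omega
      | left s s' T0 => exact ⟨T0, Or.inl ⟨s, s', rfl⟩, h3⟩
      | right s s' T0 => exact ⟨T0, Or.inr ⟨s, s', rfl⟩, h3⟩
    obtain ⟨hsub, hsz⟩ := side_sub e f hf T0 hs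
    rcases spine c i t' ht' T0 with ⟨c1, s, s', T1, T2, h5, h6, h7⟩ | ⟨d, h5, h6⟩
    · obtain ⟨e1, h8⟩ := exists_spine T1
      obtain ⟨e2, h9⟩ := exists_spine T2
      refine ⟨e1, e2, ?_, ?_, ?_, ?_, ?_⟩
      · intro T
        obtain ⟨c0, h10⟩ := hsub T
        refine ⟨c0 ++ c1 ++ [.left s s' T2], .stop, ?_⟩
        rw [h10, h5, fill_append, fill_append, ← h8]
        rfl
      · intro T
        obtain ⟨c0, h10⟩ := hsub T
        refine ⟨c0 ++ c1 ++ [.right s s' T1], .stop, ?_⟩
        rw [h10, h5, fill_append, fill_append, ← h9]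
        rfl
      · have h11 : tsize T0 = csize c1 + (tsize T1 + tsize T2 + 1) := by
          rw [h5, tsize_fill]
          rfl
        have h12 : tsize T1 = csize e1 := by rw [h8, tsize_fill_stop]
        have h13 : tsize T2 = csize e2 := by rw [h9, tsize_fill_stop]
        omega
      · rw [← tseen_fill_stop c i e1, ← h8]
        exact h6
      · rw [← tseen_fill_stop c i e2, ← h9]
        exact h7
    · rw [h5, tseen_fill_stop] at h4
      obtain ⟨a, b, e1, h8, h9⟩ := exists_cut c i t' (t' + 1) d h6 (by omega) ht'
      subst e1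
      have h10 : (cseen c i (a ++ b)).card ≤ (cseen c i a).card + (cseen c i b).card := by
        rw [cseen_append]
        exact Finset.card_union_le _ _
      refine ⟨a, b, ?_, ?_, ?_, h8, by omega⟩
      · intro T
        obtain ⟨c0, h11⟩ := hsub T
        refine ⟨c0, fill b .stop, ?_⟩
        rw [h11, h5, fill_append]
      · intro T
        obtain ⟨c0, h11⟩ := hsub T
        refine ⟨c0 ++ a, .stop, ?_⟩
        rw [h11, h5, fill_append, fill_append]
      · have h11 : tsize T0 = csize (a ++ b) := by rw [h5, tsize_fill_stop]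
        rw [csize_append] at h11
        omega

/-- The window lemma for contexts. -/
theorem window_ctx (c : Option (E × Set K) → Option (ℕ × Fin W)) (t' u l : ℕ) (ht' : 0 < t')
    (hu : 5 * t' ≤ u + 1) (e : List (Frame E K S)) (he : t' ≤ (cseen c l e).card)
    (hlen : csize e < 2 ^ l) :
    ∃ i < l, ∃ d, SubC d e ∧ t' ≤ (cseen c (i + 1) d).card ∧ (cseen c i d).card ≤ u := by
  induction l generalizing e with
  | zero =>
    exfalso
    cases e with
    | nil =>
      simp [cseen] at he
      omega
    | cons f e =>
      have h1 : 0 < fsize f := by cases f <;> simp [fsize]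
      have h2 : fsize f + csize e < 1 := by simpa [csize] using hlen
      omega
  | succ l ih =>
    by_cases h0 : (cseen c l e).card ≤ u
    · exact ⟨l, Nat.lt_succ_self l, e, fun T => ⟨[], T, rfl⟩, he, h0⟩
    · obtain ⟨a, b, ha, hb, hsz, h1, h2⟩ := exists_two c l t' ht' e (by omega)
      have h2l : 2 ^ (l + 1) = 2 ^ l + 2 ^ l := by ring
      by_cases h5 : csize a < 2 ^ l
      · obtain ⟨i, hi, d, h6, h7, h8⟩ := ih a h1 h5
        exact ⟨i, by omega, d, h6.trans ha, h7, h8⟩
      · obtain ⟨i, hi, d, h6, h7, h8⟩ := ih b h2 (by omega)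
        exact ⟨i, by omega, d, h6.trans hb, h7, h8⟩

/-- **The window lemma for trees.** -/
theorem window_tree (c : Option (E × Set K) → Option (ℕ × Fin W)) (t' u l : ℕ) (ht' : 0 < t')
    (hu : 5 * t' ≤ u + 1) (T : Tree E K S) (hs : t' ≤ (tseen c l T).card)
    (hlen : tsize T < 2 ^ l) :
    ∃ i < l, ∃ c1 c2 t3, T = fill c1 (fill c2 t3) ∧ t' ≤ (cseen c (i + 1) c2).card ∧
      (cseen c i c2).card ≤ u := by
  obtain ⟨e, h⟩ := exists_spine T
  rw [h, tseen_fill_stop] at hs
  rw [h, tsize_fill_stop] at hlen
  obtain ⟨i, hi, d, h3, h4, h5⟩ := window_ctx c t' u l ht' hu e hs hlen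
  obtain ⟨c1, t3, h6⟩ := h3 .stop
  exact ⟨i, hi, c1, d, t3, by rw [h, h6], h4, h5⟩

/-! ### The colour of a labeling -/

/-- The node which a label reads, if the entry is the one of a node at its argument for the labeling
`D`. -/
def tcol {l w p : ℕ} (D : Lab l w p) : Option (Entry l w p × Set (ZMod p)) → Option (ℕ × Fin w)
  | none => none
  | some (e, _) => if e.2.2 = argD D e.1 e.2.1 then some ((e.1 : ℕ), e.2.1) else none

theorem tcol_eq {l w p : ℕ} (D : Lab l w p) (j : Fin (l + 2)) (v : Fin w)
    (m : Option (Entry l w p × Set (ZMod p))) :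
    tcol D m = some ((j : ℕ), v) ↔ ((j, v, argD D j v) : Entry l w p) ∈ lread m := by
  cases m with
  | none => simp [tcol, lread]
  | some m =>
    obtain ⟨⟨j', v', a⟩, P⟩ := m
    unfold tcol lread
    by_cases h : a = argD D j' v'
    · simp only [h, if_true, Option.some.injEq, Prod.mk.injEq, Set.mem_singleton_iff]
      constructor
      · rintro ⟨h1, h2⟩
        have h3 : j' = j := Fin.ext h1
        subst h3
        subst h2
        exact ⟨rfl, rfl, rfl⟩
      · rintro ⟨h1, h2, _⟩
        subst h1
        subst h2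
        exact ⟨rfl, rfl⟩
    · simp only [h, if_false, Set.mem_singleton_iff, Prod.mk.injEq, false_iff, reduceCtorEq]
      rintro ⟨h1, h2, h3⟩
      subst h1
      subst h2
      exact h h3.symm

theorem mem_tseen_tcol {l w p : ℕ} (D : Lab l w p) (j : Fin (l + 2)) (v : Fin w)
    (T : Tree (Entry l w p) (ZMod p) S) :
    v ∈ tseen (tcol D) (j : ℕ) T ↔ ((j, v, argD D j v) : Entry l w p) ∈ treads T := by
  induction T with
  | stop => simp [tseen, treads]
  | step m s T ih =>
    simp only [tseen, treads, Finset.mem_union, Set.mem_union, mem_one, ih, tcol_eq]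
  | fork s s' T T' ih ih' =>
    simp only [tseen, treads, Finset.mem_union, Set.mem_union, ih, ih']

theorem mem_fseen_tcol {l w p : ℕ} (D : Lab l w p) (j : Fin (l + 2)) (v : Fin w)
    (f : Frame (Entry l w p) (ZMod p) S) :
    v ∈ fseen (tcol D) (j : ℕ) f ↔ ((j, v, argD D j v) : Entry l w p) ∈ fread f := by
  cases f with
  | step m s => simp only [fseen, fread, mem_one, tcol_eq]
  | left s s' T => exact mem_tseen_tcol D j v T
  | right s s' T => exact mem_tseen_tcol D j v T

theorem mem_cseen_tcol {l w p : ℕ} (D : Lab l w p) (j : Fin (l + 2)) (v : Fin w)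
    (d : List (Frame (Entry l w p) (ZMod p) S)) :
    v ∈ cseen (tcol D) (j : ℕ) d ↔ ((j, v, argD D j v) : Entry l w p) ∈ creads d := by
  induction d with
  | nil => simp [cseen]
  | cons f d ih =>
    rw [creads_cons]
    simp only [cseen, Finset.mem_union, Set.mem_union, mem_fseen_tcol, ih]

end Pool.Agent.UW
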