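import Pool.Agent.UW.TCount
import Pool.Agent.UW.TWin
import Pool.Agent.UW.Final3

/-!
Heavy labelings for programs with forks.
-/

set_option autoImplicit false

namespace Pool.Agent.UW

open Finset

/-- The nodes of level `l` (below the root) whose relevant entry is read by a tree. -/
noncomputable def treadAt {l w p : ℕ} {S : Type} (D : Lab l w p)
    (T : Tree (Entry l w p) (ZMod p) S) : Finset (Fin w) := by
  classical
  exact univ.filter (fun v =>
    (((Fin.last l).castSucc, v, argD D (Fin.last l).castSucc v) : Entry l w p) ∈ treads T)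

/-- Accepted by a tree of size `< m` which reads `≤ r` irrelevant entries and `≥ t'` nodes of level
`l`. -/
def THeavy {l w p : ℕ} {S : Type} (B : Prog (Entry l w p) (ZMod p) S) (r m t' : ℕ)
    (D : Lab l w p) : Prop :=
  ∃ T, AccTree B (inp D) T ∧ (treads T \ relevant (inp D)).encard ≤ r ∧ tsize T < m ∧
    t' ≤ (treadAt D T).card

theorem theavy_split {l w p : ℕ} [Fact p.Prime] {S : Type}
    (B : Prog (Entry l w p) (ZMod p) S) (R r t : ℕ) (ht : 0 < t) (hw : 32 * (t + R) ≤ w)
    (D : Lab l w p) (hD : THeavy B r (2 ^ l) (2 * t + R) D) :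
    ∃ (w1 w2 : List (Frame (Entry l w p) (ZMod p) S)) (w3 : Tree (Entry l w p) (ZMod p) S)
      (q1 q2 : S) (i : Fin l) (U : Finset (Fin w)), w ≤ 2 * U.card + 1 ∧
      CRun B (inp D) B.start w1 q1 ∧ CRun B (inp D) q1 w2 q2 ∧ Run B (inp D) q2 w3 ∧
      (treads (whole w1 w2 w3) \ relevant (inp D)).encard ≤ r ∧
      (∃ T : Finset (Fin w), T.card = 2 * t + R ∧ ∀ v ∈ T,
        ((i.succ.castSucc, v, argD D i.succ.castSucc v) : Entry l w p) ∈ creads w2) ∧
      (∀ v ∈ U, ((i.castSucc.castSucc, v, argD D i.castSucc.castSucc v) : Entry l w p) ∉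
        creads w2) := by
  classical
  obtain ⟨T, hacc, hr, hlen, hrd⟩ := hD
  have hseen : tseen (tcol D) l T = treadAt D T := by
    ext v
    have := mem_tseen_tcol D (Fin.last l).castSucc v T
    have hl : (((Fin.last l).castSucc : Fin (l + 2)) : ℕ) = l := rfl
    rw [hl] at this
    rw [this]
    unfold treadAt
    simp
  obtain ⟨i, hil, c1, c2, t3, hs, h1, h2⟩ := window_tree (tcol D) (2 * t + R) (w - w / 2) l
    (by omega) (by omega) T (by rw [hseen]; exact hrd) hlen
  subst hs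
  obtain ⟨q1, hs1, h23⟩ := (run_fill B (inp D) _ _ _).1 hacc
  obtain ⟨q2, hs2, h3⟩ := (run_fill B (inp D) _ _ _).1 h23
  obtain ⟨X, hX, hXc⟩ := exists_subset_card_eq h1
  refine ⟨c1, c2, t3, q1, q2, ⟨i, hil⟩, (cseen (tcol D) i c2)ᶜ, ?_, hs1, hs2, h3, hr,
    ⟨X, hXc, fun v hv => ?_⟩, fun v hv hm => ?_⟩
  · rw [card_compl, Fintype.card_fin]
    omega
  · exact (mem_cseen_tcol D (Fin.succ ⟨i, hil⟩).castSucc v c2).1 (hX hv)
  · have := (mem_cseen_tcol D (Fin.castSucc ⟨i, hil⟩).castSucc v c2).2 hm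
    exact (mem_compl.1 hv) this

theorem theavy_card {l w p : ℕ} [Fact p.Prime] {S : Type} [Fintype S] (hp : 2 * w ≤ p)
    (B : Prog (Entry l w p) (ZMod p) S) (A R r t : ℕ) (ht : 0 < t) (hw : 32 * (t + R) ≤ w)
    (hB : FewWastefulTrees B A R) (G : Finset (Lab l w p))
    (hG : ∀ D ∈ G, THeavy B r (2 ^ l) (2 * t + R) D) :
    G.card * (p - 1) ^ t ≤
      3 ^ t * ((Fintype.card S) ^ 2 * l * ((A + 1) * (2 * r + 1)) ^ t * (p - 1) ^ ((l + 2) * w)) := by
  classical
  rcases G.eq_empty_or_nonempty with h0 | ⟨D0, hD0⟩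
  · simp [h0]
  have key := fun D (hD : D ∈ G) => theavy_split B R r t ht hw D (hG D hD)
  obtain ⟨a1, a2, a3, b1, b2, i0, U0, -⟩ := key D0 hD0
  have : Nonempty S := ⟨b1⟩
  have : Nonempty (Fin l) := ⟨i0⟩
  have : Nonempty (Tree (Entry l w p) (ZMod p) S) := ⟨a3⟩
  choose! w1 w2 w3 q1 q2 i U hh using key
  set X := (Fintype.card S) ^ 2 * l * ((A + 1) * (2 * r + 1)) ^ t * (p - 1) ^ ((l + 2) * w) with hX
  set w' := w / 2 with hw'
  -- each set of `t` nodes
  have hone : ∀ Y ∈ powersetCard t (univ : Finset (Fin w)),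
      (G.filter (fun D => Y ⊆ U D)).card * (p - 1) ^ t ≤ X := by
    intro Y hY
    have hYc := (mem_powersetCard.1 hY).2
    refine tclass_count hp B A R r t (by omega) hB Y hYc _ w1 w2 w3 q1 q2 i ?_ ?_ ?_ ?_ ?_ ?_
    · intro D hD; exact (hh D (mem_filter.1 hD).1).2.1
    · intro D hD; exact (hh D (mem_filter.1 hD).1).2.2.1
    · intro D hD; exact (hh D (mem_filter.1 hD).1).2.2.2.1
    · intro D hD; exact (hh D (mem_filter.1 hD).1).2.2.2.2.1
    · intro D hD; exact (hh D (mem_filter.1 hD).1).2.2.2.2.2.1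
    · intro D hD v hv
      exact (hh D (mem_filter.1 hD).1).2.2.2.2.2.2 v ((mem_filter.1 hD).2 hv)
  -- double counting
  have hdc : ∑ Y ∈ powersetCard t (univ : Finset (Fin w)), (G.filter (fun D => Y ⊆ U D)).card =
      ∑ D ∈ G, ((powersetCard t (univ : Finset (Fin w))).filter (fun Y => Y ⊆ U D)).card :=
    sum_card_bipartiteAbove_eq_sum_card_bipartiteBelow _
  have hlow : ∀ D ∈ G, w'.choose t ≤
      ((powersetCard t (univ : Finset (Fin w))).filter (fun Y => Y ⊆ U D)).card := by
    intro D hD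
    have h1 : ((powersetCard t (univ : Finset (Fin w))).filter (fun Y => Y ⊆ U D)) =
        powersetCard t (U D) := by
      ext Y
      simp only [mem_filter, mem_powersetCard]
      constructor
      · rintro ⟨⟨_, h⟩, h'⟩; exact ⟨h', h⟩
      · rintro ⟨h, h'⟩; exact ⟨⟨subset_univ _, h'⟩, h⟩
    rw [h1, card_powersetCard]
    have h2 := (hh D hD).1
    exact Nat.choose_le_choose t (by omega)
  have h1 : G.card * w'.choose t * (p - 1) ^ t ≤ w.choose t * X := by
    calc G.card * w'.choose t * (p - 1) ^ t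
        ≤ (∑ D ∈ G, ((powersetCard t (univ : Finset (Fin w))).filter (fun Y => Y ⊆ U D)).card) *
            (p - 1) ^ t := by
          refine Nat.mul_le_mul_right _ ?_
          rw [← smul_eq_mul, ← sum_const]
          exact sum_le_sum hlow
      _ = ∑ Y ∈ powersetCard t (univ : Finset (Fin w)),
            (G.filter (fun D => Y ⊆ U D)).card * (p - 1) ^ t := by
          rw [← hdc, sum_mul]
      _ ≤ ∑ Y ∈ powersetCard t (univ : Finset (Fin w)), X := sum_le_sum hone
      _ = w.choose t * X := by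
          rw [sum_const, card_powersetCard, card_univ, Fintype.card_fin, smul_eq_mul]
  have h2 := choose_half w w' t (by omega) (by omega)
  have hpos : 0 < w'.choose t := Nat.choose_pos (by omega)
  have h3 : w'.choose t * (G.card * (p - 1) ^ t) ≤ w'.choose t * (3 ^ t * X) := by
    calc w'.choose t * (G.card * (p - 1) ^ t) = G.card * w'.choose t * (p - 1) ^ t := by ring
      _ ≤ w.choose t * X := h1
      _ ≤ (3 ^ t * w'.choose t) * X := Nat.mul_le_mul_right _ h2
      _ = _ := by ring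
  exact Nat.le_of_mul_le_mul_left h3 hpos

/-- The heavy labelings are at most a `2 ^ (-t)` part. -/
theorem theavy_small {t R W A r p : ℕ} [Fact p.Prime] {S : Type} [Fintype S]
    (ht : 0 < t) (hW : 128 * (t + R) ≤ W) (hp : 2 * W ≤ p)
    (hr : 48 * ((A + 1) * (2 * r + 1)) < p)
    (B : Prog (Entry t W p) (ZMod p) S) (hS : Fintype.card S ≤ 2 ^ t)
    (hB : FewWastefulTrees B A R)
    (G : Finset (Lab t W p)) (hG : ∀ D ∈ G, THeavy B r (2 ^ t) (2 * t + R) D) :
    2 ^ t * G.card ≤ Fintype.card (Lab t W p) := by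
  have h := theavy_card hp B A R r t ht (by omega) hB G hG
  have hpp : 0 < p - 1 := by
    have := (Fact.out : p.Prime).one_lt
    omega
  have ht2 : t ≤ 2 ^ t := Nat.lt_two_pow_self.le
  rw [card_lab]
  have h3 : (2 ^ t * G.card) * (p - 1) ^ t ≤ (p - 1) ^ ((t + 2) * W) * (p - 1) ^ t := by
    calc (2 ^ t * G.card) * (p - 1) ^ t = 2 ^ t * (G.card * (p - 1) ^ t) := by ring
      _ ≤ 2 ^ t * (3 ^ t * ((Fintype.card S) ^ 2 * t * ((A + 1) * (2 * r + 1)) ^ t *
            (p - 1) ^ ((t + 2) * W))) := Nat.mul_le_mul_left _ h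
      _ ≤ 2 ^ t * (3 ^ t * ((2 ^ t) ^ 2 * 2 ^ t * ((A + 1) * (2 * r + 1)) ^ t *
            (p - 1) ^ ((t + 2) * W))) := by
          gcongr
      _ = (48 * ((A + 1) * (2 * r + 1))) ^ t * (p - 1) ^ ((t + 2) * W) := by
          have : 48 * ((A + 1) * (2 * r + 1)) = 2 * 3 * (2 * 2) * 2 * ((A + 1) * (2 * r + 1)) := by ring
          rw [this]
          simp only [mul_pow]
          ring
      _ ≤ (p - 1) ^ t * (p - 1) ^ ((t + 2) * W) :=
          Nat.mul_le_mul_right _ (Nat.pow_le_pow_left (by omega) t)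
      _ = _ := by ring
  exact Nat.le_of_mul_le_mul_right h3 (pow_pos hpp t)

/-- A tree which does not read the relevant entry of node `v` of level `l` accepts `bad D v`. -/
theorem tacc_bad {l w p : ℕ} {S : Type} (B : Prog (Entry l w p) (ZMod p) S) (D : Lab l w p)
    (T : Tree (Entry l w p) (ZMod p) S) (hacc : AccTree B (inp D) T) (v : Fin w)
    (hv : v ∉ treadAt D T) : AccTree B (bad D v) T := by
  classical
  refine run_congr B (inp D) (bad D v) _ _ hacc (fun e he => ?_)
  unfold bad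
  split_ifs with hif
  · obtain ⟨e1, e2, e3⟩ := e
    simp only at hif
    obtain ⟨h1, h2⟩ := hif
    subst h1
    subst h2
    unfold inp
    rw [if_neg]
    intro h3
    apply hv
    unfold treadAt
    refine mem_filter.2 ⟨mem_univ _, ?_⟩
    simp only at h3
    rw [← h3]
    exact he
  · rfl

end Pool.Agent.UW
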