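import Pool.Agent.UW.TDefs
import Pool.Agent.UW.Values

/-! # A small thrifty program with forks and large trees -/

set_option autoImplicit false

namespace Pool.Agent.UW

/-- states: start, accepting state, `node (i, v) has value z`, `the sum over u < k for node
(j + 1, v) is a` -/
private abbrev TS (l w p : ℕ) : Type :=
  Option (Option ((Fin (l + 2) × Fin w × ZMod p) ⊕ (Fin (l + 1) × Fin w × Fin (w + 1) × ZMod p)))

variable {l w p : ℕ}

private abbrev sAcc : TS l w p := some none

private abbrev sN (i : Fin (l + 2)) (v : Fin w) (z : ZMod p) : TS l w p :=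
  some (some (Sum.inl (i, v, z)))

private abbrev sQ (j : Fin (l + 1)) (v : Fin w) (k : Fin (w + 1)) (a : ZMod p) : TS l w p :=
  some (some (Sum.inr (j, v, k, a)))

private def tEdge (q : TS l w p) (b : Option (Entry l w p × Set (ZMod p))) (s : TS l w p) : Prop :=
  match q with
  | none => b = none ∧ ∃ (v : Fin w) (z : ZMod p), (v : ℕ) = 0 ∧ z ≠ 0 ∧ s = sN (Fin.last (l + 1)) v z
  | some none => False
  | some (some (Sum.inl (i, v, z))) => (i = 0 ∧ b = some ((0, v, 0), {z}) ∧ s = sAcc) ∨
      ∃ (j : Fin (l + 1)) (a : ZMod p), i = j.succ ∧ b = some ((j.succ, v, a), {z}) ∧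
        s = sQ j v (Fin.last w) a
  | some (some (Sum.inr (_, _, k, a))) => k = 0 ∧ a = 0 ∧ b = none ∧ s = sAcc

private def tFork (q s s' : TS l w p) : Prop :=
  match q with
  | some (some (Sum.inr (j, v, k, a))) => ∃ (k' : Fin w) (z : ZMod p), k = k'.succ ∧
      s = sQ j v k'.castSucc (a - M w p v k' * z) ∧ s' = sN j.castSucc k' z
  | _ => False

private def tB (l w p : ℕ) : Prog (Entry l w p) (ZMod p) (TS l w p) :=
  ⟨none, sAcc, tEdge, tFork⟩

private theorem run_acc (x : Entry l w p → ZMod p) (T : Tree (Entry l w p) (ZMod p) (TS l w p)) :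
    Run (tB l w p) x sAcc T ↔ T = .stop := by
  cases T with
  | stop => exact ⟨fun _ => rfl, fun _ => rfl⟩
  | step b s T => exact ⟨fun h => h.1.elim, fun h => by cases h⟩
  | fork s s' T T' => exact ⟨fun h => h.1.elim, fun h => by cases h⟩

private theorem run_bot (x : Entry l w p → ZMod p) (v : Fin w) (z : ZMod p)
    (T : Tree (Entry l w p) (ZMod p) (TS l w p)) :
    Run (tB l w p) x (sN 0 v z) T ↔ z = out x 0 v ∧
      T = .step (some ((0, v, 0), {out x 0 v})) sAcc .stop := by
  have h0 : out x 0 v = x (0, v, 0) := rfl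
  cases T with
  | stop => exact ⟨fun h => (by cases h), fun h => (by cases h.2)⟩
  | step b s T =>
    constructor
    · rintro ⟨h1, h2, h3⟩
      rcases h1 with ⟨-, rfl, rfl⟩ | ⟨j, a, hj, -⟩
      · have h4 : x (0, v, 0) = z := h2
        rw [run_acc] at h3
        subst h3
        rw [h0, h4]
        exact ⟨rfl, rfl⟩
      · exact absurd hj.symm (Fin.succ_ne_zero j)
    · rintro ⟨rfl, h⟩
      cases h
      exact ⟨Or.inl ⟨rfl, rfl, rfl⟩, rfl, (run_acc x _).2 rfl⟩
  | fork s s' T T' => exact ⟨fun h => h.1.elim, fun h => by cases h.2⟩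

/-- the sum over `u < k` -/
private def psum (x : Entry l w p → ZMod p) (j : Fin (l + 1)) (v : Fin w) (k : ℕ) : ZMod p :=
  ∑ u ∈ Finset.univ.filter (fun u : Fin w => (u : ℕ) < k), M w p v u * out x j.castSucc u

private theorem psum_succ (x : Entry l w p → ZMod p) (j : Fin (l + 1)) (v k : Fin w) :
    psum x j v ((k : ℕ) + 1) = psum x j v k + M w p v k * out x j.castSucc k := by
  unfold psum
  have h : Finset.univ.filter (fun u : Fin w => (u : ℕ) < (k : ℕ) + 1) =
      insert k (Finset.univ.filter (fun u : Fin w => (u : ℕ) < k)) := by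
    ext u
    simp only [Finset.mem_filter, Finset.mem_univ, true_and, Finset.mem_insert, Fin.ext_iff]
    omega
  rw [h, Finset.sum_insert (by simp), add_comm]

private theorem psum_last (x : Entry l w p → ZMod p) (j : Fin (l + 1)) (v : Fin w) :
    psum x j v w = arg x j.succ v := by
  unfold psum
  rw [Finset.filter_true_of_mem fun u _ => u.2]
  rfl

/-- the canonical tree of a node -/
private def NodeOk (x : Entry l w p → ZMod p) (i : Fin (l + 2)) (v : Fin w) : Prop :=
  ∃ T0 : Tree (Entry l w p) (ZMod p) (TS l w p),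
    (∀ z T, Run (tB l w p) x (sN i v z) T ↔ z = out x i v ∧ T = T0) ∧
    (∀ e ∈ treads T0, e.2.2 = arg x e.1 e.2.1 ∧ (e.1 < i ∨ e = (i, v, arg x i v))) ∧
    tsize T0 + 1 ≤ (w + 3) ^ ((i : ℕ) + 1)

private theorem sumOk (x : Entry l w p → ZMod p) (j : Fin (l + 1))
    (h : ∀ v, NodeOk x j.castSucc v) (v : Fin w) : ∀ k : Fin (w + 1),
      ∃ T0 : Tree (Entry l w p) (ZMod p) (TS l w p),
        (∀ a T, Run (tB l w p) x (sQ j v k a) T ↔ a = psum x j v k ∧ T = T0) ∧
        (∀ e ∈ treads T0, e.2.2 = arg x e.1 e.2.1 ∧ e.1 ≤ j.castSucc) ∧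
        tsize T0 ≤ 1 + k * (w + 3) ^ ((j : ℕ) + 1) := by
  intro k
  induction k using Fin.induction with
  | zero =>
    refine ⟨.step none sAcc .stop, fun a T => ?_, fun e he => ?_, ?_⟩
    · have h0 : psum x j v ((0 : Fin (w + 1)) : ℕ) = 0 := by simp [psum]
      rw [h0]
      cases T with
      | stop => exact ⟨fun h => (by cases h), fun h => (by cases h.2)⟩
      | step b s T =>
        constructor
        · rintro ⟨⟨-, rfl, rfl, rfl⟩, -, h3⟩
          rw [run_acc] at h3
          subst h3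
          exact ⟨rfl, rfl⟩
        · rintro ⟨rfl, h⟩
          cases h
          exact ⟨⟨rfl, rfl, rfl, rfl⟩, trivial, (run_acc x _).2 rfl⟩
      | fork s s' T T' =>
        constructor
        · rintro ⟨⟨k', z, hk, -⟩, -⟩
          exact absurd hk.symm (Fin.succ_ne_zero k')
        · rintro ⟨-, h⟩
          cases h
    · simp [treads, lread] at he
    · simp [tsize]
  | succ k ih =>
    obtain ⟨T1, h1, h2, h3⟩ := ih
    obtain ⟨T2, h4, h5, h6⟩ := h k
    refine ⟨.fork (sQ j v k.castSucc (psum x j v k)) (sN j.castSucc k (out x j.castSucc k)) T1 T2,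
      fun a T => ?_, fun e he => ?_, ?_⟩
    · have hs : psum x j v ((k.succ : Fin (w + 1)) : ℕ) =
          psum x j v k + M w p v k * out x j.castSucc k := psum_succ x j v k
      rw [hs]
      cases T with
      | stop => exact ⟨fun h => (by cases h), fun h => (by cases h.2)⟩
      | step b s T =>
        constructor
        · rintro ⟨⟨hk, -⟩, -⟩
          exact absurd hk (Fin.succ_ne_zero k)
        · rintro ⟨-, h⟩
          cases h
      | fork s s' T T' =>
        constructor
        · rintro ⟨⟨k', z, hk, rfl, rfl⟩, h7, h8⟩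
          obtain rfl := Fin.succ_injective _ hk
          obtain ⟨h9, rfl⟩ := (h1 _ _).1 h7
          obtain ⟨rfl, rfl⟩ := (h4 _ _).1 h8
          have h10 : a - M w p v k * out x j.castSucc k = psum x j v k := h9
          rw [h10]
          exact ⟨by rw [← h10]; ring, rfl⟩
        · rintro ⟨rfl, h⟩
          cases h
          refine ⟨⟨k, out x j.castSucc k, rfl, ?_, rfl⟩, (h1 _ _).2 ⟨rfl, rfl⟩, (h4 _ _).2 ⟨rfl, rfl⟩⟩
          rw [add_sub_cancel_right]
    · rcases he with he | he
      · exact h2 e he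
      · obtain ⟨h7, h8⟩ := h5 e he
        refine ⟨h7, ?_⟩
        rcases h8 with h8 | h8
        · exact h8.le
        · rw [h8]
    · have h7 : tsize T1 ≤ 1 + (k : ℕ) * (w + 3) ^ ((j : ℕ) + 1) := h3
      have h8 : tsize T2 + 1 ≤ (w + 3) ^ ((j : ℕ) + 1) := h6
      have h9 : ((k.succ : Fin (w + 1)) : ℕ) = (k : ℕ) + 1 := rfl
      rw [h9]
      simp only [tsize]
      rw [add_mul, one_mul]
      omega

private theorem nodeOk (x : Entry l w p → ZMod p) : ∀ (i : Fin (l + 2)) (v : Fin w),
    NodeOk x i v := by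
  intro i
  induction i using Fin.induction with
  | zero =>
    intro v
    refine ⟨.step (some ((0, v, 0), {out x 0 v})) sAcc .stop, fun z T => run_bot x v z T,
      fun e he => ?_, ?_⟩
    · have he' : e = (0, v, 0) := by simpa [treads, lread] using he
      rw [he']
      exact ⟨rfl, Or.inr rfl⟩
    · simp only [tsize, Fin.val_zero, zero_add, pow_one]
      omega
  | succ j ih =>
    intro v
    obtain ⟨T1, h1, h2, h3⟩ := sumOk x j ih v (Fin.last w)
    rw [show ((Fin.last w : Fin (w + 1)) : ℕ) = w from rfl] at h3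
    refine ⟨.step (some ((j.succ, v, arg x j.succ v), {out x j.succ v}))
      (sQ j v (Fin.last w) (arg x j.succ v)) T1, fun z T => ?_, fun e he => ?_, ?_⟩
    · have hs : psum x j v ((Fin.last w : Fin (w + 1)) : ℕ) = arg x j.succ v := psum_last x j v
      cases T with
      | stop => exact ⟨fun h => (by cases h), fun h => (by cases h.2)⟩
      | step b s T =>
        constructor
        · rintro ⟨h4, h5, h6⟩
          rcases h4 with ⟨h0, -⟩ | ⟨j', a, hj, rfl, rfl⟩
          · exact absurd h0 (Fin.succ_ne_zero j)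
          · obtain rfl := Fin.succ_injective _ hj
            obtain ⟨h7, rfl⟩ := (h1 _ _).1 h6
            rw [hs] at h7
            subst h7
            have h8 : x (j.succ, v, arg x j.succ v) = z := h5
            rw [out_eq, h8]
            exact ⟨rfl, rfl⟩
        · rintro ⟨rfl, h⟩
          cases h
          refine ⟨Or.inr ⟨j, _, rfl, rfl, rfl⟩, ?_, (h1 _ _).2 ⟨hs.symm, rfl⟩⟩
          exact (out_eq x j.succ v).symm
      | fork s s' T T' => exact ⟨fun h => h.1.elim, fun h => by cases h.2⟩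
    · rcases he with he | he
      · have he' : e = (j.succ, v, arg x j.succ v) := by simpa [lread] using he
        rw [he']
        exact ⟨rfl, Or.inr rfl⟩
      · obtain ⟨h7, h8⟩ := h2 e he
        exact ⟨h7, Or.inl (lt_of_le_of_lt h8 (Fin.castSucc_lt_succ))⟩
    · have h4 : ((j.succ : Fin (l + 2)) : ℕ) = (j : ℕ) + 1 := rfl
      rw [h4]
      simp only [tsize]
      have h5 : 1 ≤ (w + 3) ^ ((j : ℕ) + 1) := Nat.one_le_pow _ _ (by omega)
      have h6 : (w + 3) ^ ((j : ℕ) + 1 + 1) = (w + 3) ^ ((j : ℕ) + 1) * w +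
          (w + 3) ^ ((j : ℕ) + 1) * 3 := by
        rw [pow_succ, mul_add]
      rw [h6, mul_comm _ w]
      omega

/-- With forks and large trees a small program suffices: it has one accepting tree, which reads
relevant entries only, on every input with value not `0`, and none on the others. -/
theorem poly_tree (l w p : ℕ) [Fact p.Prime] :
    ∃ (S : Type) (_ : Fintype S) (B : Prog (Entry l w p) (ZMod p) S),
      Fintype.card S ≤ (l + 2) * w * (w + 2) * p + 2 ∧ (∀ x, {T | AccTree B x T}.encard ≤ 1) ∧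
      ∀ x, (Yes x → ∃ T, AccTree B x T ∧ tsize T ≤ (w + 3) ^ (l + 2) ∧ treads T ⊆ relevant x) ∧
        (¬ Yes x → ∀ T, ¬ AccTree B x T) := by
  have hp0 : NeZero p := ⟨(Fact.out : p.Prime).ne_zero⟩
  have key : ∀ (x : Entry l w p → ZMod p) (T : Tree (Entry l w p) (ZMod p) (TS l w p)),
      AccTree (tB l w p) x T ↔ ∃ (v : Fin w) (T0 : Tree (Entry l w p) (ZMod p) (TS l w p)),
        (v : ℕ) = 0 ∧ out x (Fin.last (l + 1)) v ≠ 0 ∧
        T = .step none (sN (Fin.last (l + 1)) v (out x (Fin.last (l + 1)) v)) T0 ∧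
        Run (tB l w p) x (sN (Fin.last (l + 1)) v (out x (Fin.last (l + 1)) v)) T0 := by
    intro x T
    constructor
    · intro h
      cases T with
      | stop => cases h
      | step b s T =>
        obtain ⟨⟨rfl, v, z, hv, hz, rfl⟩, -, h3⟩ := h
        obtain ⟨T0, h4, -, -⟩ := nodeOk x (Fin.last (l + 1)) v
        obtain ⟨rfl, rfl⟩ := (h4 _ _).1 h3
        exact ⟨v, _, hv, hz, rfl, h3⟩
      | fork s s' T T' => exact h.1.elim
    · rintro ⟨v, T0, hv, hz, rfl, h⟩
      exact ⟨⟨rfl, v, _, hv, hz, rfl⟩, trivial, h⟩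
  refine ⟨TS l w p, inferInstance, tB l w p, ?_, fun x => ?_, fun x => ⟨?_, ?_⟩⟩
  · simp only [Fintype.card_option, Fintype.card_sum, Fintype.card_prod, Fintype.card_fin,
      ZMod.card]
    nlinarith [Nat.zero_le (w * (w + 1) * p)]
  · rw [Set.encard_le_one_iff]
    intro T T' hT hT'
    obtain ⟨v, T0, hv, -, rfl, h1⟩ := (key x T).1 hT
    obtain ⟨v', T0', hv', -, rfl, h1'⟩ := (key x T').1 hT'
    obtain rfl : v = v' := Fin.ext (hv.trans hv'.symm)
    obtain ⟨T1, h2, -, -⟩ := nodeOk x (Fin.last (l + 1)) v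
    rw [((h2 _ _).1 h1).2, ((h2 _ _).1 h1').2]
  · rintro ⟨v, hv, hz⟩
    obtain ⟨T0, h1, h2, h3⟩ := nodeOk x (Fin.last (l + 1)) v
    refine ⟨.step none (sN (Fin.last (l + 1)) v (out x (Fin.last (l + 1)) v)) T0,
      (key x _).2 ⟨v, T0, hv, hz, rfl, (h1 _ _).2 ⟨rfl, rfl⟩⟩, ?_, ?_⟩
    · simpa [tsize] using h3
    · intro e he
      have he' : e ∈ treads T0 := by simpa [treads, lread] using he
      obtain ⟨h4, h5⟩ := h2 e he'
      refine ⟨h4, fun h6 => ?_⟩
      rcases h5 with h5 | h5
      · rw [h6] at h5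
        exact absurd h5 (lt_irrefl _)
      · rw [h5]
        exact hv
  · intro hno T hT
    obtain ⟨v, T0, hv, hz, -, -⟩ := (key x T).1 hT
    exact hno ⟨v, hv, hz⟩

end Pool.Agent.UW
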