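import Pool.Agent.UW.TDefs

/-!
Contexts (trees with one hole) as lists of frames.
-/

set_option autoImplicit false

namespace Pool.Agent.UW

variable {E K S : Type}

/-- A frame: a step, or a fork with the hole on the left (and a side tree on the right), or with
the hole on the right. -/
inductive Frame (E K S : Type) : Type
  | step (l : Option (E × Set K)) (s : S) : Frame E K S
  | left (s s' : S) (T' : Tree E K S) : Frame E K S
  | right (s s' : S) (T : Tree E K S) : Frame E K S

/-- A tree put into one frame. -/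
def fill1 : Frame E K S → Tree E K S → Tree E K S
  | .step l s, T => .step l s T
  | .left s s' T', T => .fork s s' T T'
  | .right s s' T, T' => .fork s s' T T'

/-- A tree put into a context. -/
def fill (c : List (Frame E K S)) (T : Tree E K S) : Tree E K S := c.foldr fill1 T

@[simp] theorem fill_nil (T : Tree E K S) : fill [] T = T := rfl

@[simp] theorem fill_cons (f : Frame E K S) (c : List (Frame E K S)) (T : Tree E K S) :
    fill (f :: c) T = fill1 f (fill c T) := rfl

theorem fill_append (c c' : List (Frame E K S)) (T : Tree E K S) :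
    fill (c ++ c') T = fill c (fill c' T) := by
  unfold fill
  rw [List.foldr_append]

/-- `FRun B x q f q'`: the frame leads from `q` to the state `q'` of its hole. -/
def FRun (B : Prog E K S) (x : E → K) : S → Frame E K S → S → Prop
  | q, .step l s, q' => B.edge q l s ∧ Passes x l ∧ q' = s
  | q, .left s s' T', q' => B.fork q s s' ∧ Run B x s' T' ∧ q' = s
  | q, .right s s' T, q' => B.fork q s s' ∧ Run B x s T ∧ q' = s'

/-- `CRun B x q c q'`: the context leads from `q` to the state `q'` of its hole. -/
def CRun (B : Prog E K S) (x : E → K) : S → List (Frame E K S) → S → Prop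
  | q, [], q' => q = q'
  | q, f :: c, q' => ∃ m, FRun B x q f m ∧ CRun B x m c q'

theorem run_fill1 (B : Prog E K S) (x : E → K) (q : S) (f : Frame E K S) (T : Tree E K S) :
    Run B x q (fill1 f T) ↔ ∃ m, FRun B x q f m ∧ Run B x m T := by
  cases f with
  | step l s =>
    constructor
    · rintro ⟨h1, h2, h3⟩
      exact ⟨s, ⟨h1, h2, rfl⟩, h3⟩
    · rintro ⟨m, ⟨h1, h2, rfl⟩, h3⟩
      exact ⟨h1, h2, h3⟩
  | left s s' T' =>
    constructor
    · rintro ⟨h1, h2, h3⟩
      exact ⟨s, ⟨h1, h3, rfl⟩, h2⟩
    · rintro ⟨m, ⟨h1, h2, rfl⟩, h3⟩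
      exact ⟨h1, h3, h2⟩
  | right s s' T' =>
    constructor
    · rintro ⟨h1, h2, h3⟩
      exact ⟨s', ⟨h1, h2, rfl⟩, h3⟩
    · rintro ⟨m, ⟨h1, h2, rfl⟩, h3⟩
      exact ⟨h1, h2, h3⟩

theorem run_fill (B : Prog E K S) (x : E → K) (q : S) (c : List (Frame E K S)) (T : Tree E K S) :
    Run B x q (fill c T) ↔ ∃ m, CRun B x q c m ∧ Run B x m T := by
  induction c generalizing q with
  | nil =>
    constructor
    · intro h
      exact ⟨q, rfl, h⟩
    · rintro ⟨m, h1, h2⟩
      have h3 : q = m := h1
      rw [h3]
      exact h2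
  | cons f c ih =>
    rw [fill_cons, run_fill1]
    constructor
    · rintro ⟨m, h1, h2⟩
      obtain ⟨m', h3, h4⟩ := (ih m).1 h2
      exact ⟨m', ⟨m, h1, h3⟩, h4⟩
    · rintro ⟨m', ⟨m, h1, h3⟩, h4⟩
      exact ⟨m, h1, (ih m).2 ⟨m', h3, h4⟩⟩

/-- The entries read by a frame. -/
def fread : Frame E K S → Set E
  | .step l _ => lread l
  | .left _ _ T' => treads T'
  | .right _ _ T => treads T

/-- The entries read by a context. -/
def creads (c : List (Frame E K S)) : Set E := {e | ∃ f ∈ c, e ∈ fread f}

@[simp] theorem creads_nil : creads ([] : List (Frame E K S)) = ∅ := by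
  ext e
  simp [creads]

theorem creads_cons (f : Frame E K S) (c : List (Frame E K S)) :
    creads (f :: c) = fread f ∪ creads c := by
  ext e
  simp [creads]

theorem creads_append (c c' : List (Frame E K S)) : creads (c ++ c') = creads c ∪ creads c' := by
  ext e
  simp only [creads, List.mem_append, Set.mem_ofPred_eq, Set.mem_union]
  constructor
  · rintro ⟨f, hf | hf, he⟩
    · exact Or.inl ⟨f, hf, he⟩
    · exact Or.inr ⟨f, hf, he⟩
  · rintro (⟨f, hf, he⟩ | ⟨f, hf, he⟩)
    · exact ⟨f, Or.inl hf, he⟩
    · exact ⟨f, Or.inr hf, he⟩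

theorem treads_fill1 (f : Frame E K S) (T : Tree E K S) :
    treads (fill1 f T) = fread f ∪ treads T := by
  cases f with
  | step l s => rfl
  | left s s' T' => exact Set.union_comm _ _
  | right s s' T' => rfl

theorem treads_fill (c : List (Frame E K S)) (T : Tree E K S) :
    treads (fill c T) = creads c ∪ treads T := by
  induction c with
  | nil => simp
  | cons f c ih => rw [fill_cons, treads_fill1, ih, creads_cons, Set.union_assoc]

theorem passes_congr (x y : E → K) (l : Option (E × Set K)) (h : Passes x l)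
    (hxy : ∀ e ∈ lread l, x e = y e) : Passes y l := by
  cases l with
  | none => trivial
  | some l =>
    obtain ⟨e, P⟩ := l
    have h1 : x e ∈ P := h
    have h2 : x e = y e := hxy e rfl
    change y e ∈ P
    rw [← h2]
    exact h1

theorem run_congr (B : Prog E K S) (x y : E → K) (q : S) (T : Tree E K S) (h : Run B x q T)
    (hxy : ∀ e ∈ treads T, x e = y e) : Run B y q T := by
  induction T generalizing q with
  | stop => exact h
  | step l s T ih =>
    exact ⟨h.1, passes_congr x y l h.2.1 fun e he => hxy e (Or.inl he),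
      ih s h.2.2 fun e he => hxy e (Or.inr he)⟩
  | fork s s' T T' ih ih' =>
    exact ⟨h.1, ih s h.2.1 fun e he => hxy e (Or.inl he),
      ih' s' h.2.2 fun e he => hxy e (Or.inr he)⟩

theorem frun_congr (B : Prog E K S) (x y : E → K) (q q' : S) (f : Frame E K S)
    (h : FRun B x q f q') (hxy : ∀ e ∈ fread f, x e = y e) : FRun B y q f q' := by
  cases f with
  | step l s => exact ⟨h.1, passes_congr x y l h.2.1 hxy, h.2.2⟩
  | left s s' T' => exact ⟨h.1, run_congr B x y s' T' h.2.1 hxy, h.2.2⟩
  | right s s' T => exact ⟨h.1, run_congr B x y s T h.2.1 hxy, h.2.2⟩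

theorem crun_congr (B : Prog E K S) (x y : E → K) (q q' : S) (c : List (Frame E K S))
    (h : CRun B x q c q') (hxy : ∀ e ∈ creads c, x e = y e) : CRun B y q c q' := by
  induction c generalizing q with
  | nil => exact h
  | cons f c ih =>
    obtain ⟨m, h1, h2⟩ := h
    rw [creads_cons] at hxy
    exact ⟨m, frun_congr B x y q m f h1 fun e he => hxy e (Or.inl he),
      ih m h2 fun e he => hxy e (Or.inr he)⟩

theorem crun_append (B : Prog E K S) (x : E → K) (q q' : S) (c c' : List (Frame E K S)) :
    CRun B x q (c ++ c') q' ↔ ∃ m, CRun B x q c m ∧ CRun B x m c' q' := by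
  induction c generalizing q with
  | nil =>
    constructor
    · intro h
      exact ⟨q, rfl, h⟩
    · rintro ⟨m, h1, h2⟩
      have h3 : q = m := h1
      rw [h3]
      exact h2
  | cons f c ih =>
    constructor
    · rintro ⟨m, h1, h2⟩
      obtain ⟨m', h3, h4⟩ := (ih m).1 h2
      exact ⟨m', ⟨m, h1, h3⟩, h4⟩
    · rintro ⟨m', ⟨m, h1, h3⟩, h4⟩
      exact ⟨m, h1, (ih m).2 ⟨m', h3, h4⟩⟩

theorem fill1_inj (f : Frame E K S) {T T' : Tree E K S} (h : fill1 f T = fill1 f T') : T = T' := by
  cases f with
  | step l s => exact (Tree.step.inj h).2.2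
  | left s s' T' => exact (Tree.fork.inj h).2.2.1
  | right s s' T' => exact (Tree.fork.inj h).2.2.2

theorem fill_inj (c : List (Frame E K S)) {T T' : Tree E K S} (h : fill c T = fill c T') :
    T = T' := by
  induction c with
  | nil => exact h
  | cons f c ih => exact ih (fill1_inj f h)

end Pool.Agent.UW
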