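import Pool.Agent.UW.Waste
import Pool.Agent.UW.TSeg

/-!
Cutting and pasting for trees: a conflict-free set of labelings of one class has at most `A + 1`
members.
-/

set_option autoImplicit false

namespace Pool.Agent.UW

open Finset

variable {S : Type}

/-- The whole tree of a labeling. -/
def whole {E K S : Type} (c c' : List (Frame E K S)) (T : Tree E K S) : Tree E K S :=
  fill c (fill c' T)

theorem treads_whole {E K S : Type} (c c' : List (Frame E K S)) (T : Tree E K S) :
    treads (whole c c' T) = creads c ∪ (creads c' ∪ treads T) := by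
  unfold whole
  rw [treads_fill, treads_fill]

theorem thybrid_waste {l w p : ℕ} [Fact p.Prime] (B : Prog (Entry l w p) (ZMod p) S)
    (A R t : ℕ) (hB : FewWastefulTrees B A R) (q1 q2 : S) (i : Fin l) (Y : Finset (Fin w))
    (C : Finset (Lab l w p)) (w1 w2 : Lab l w p → List (Frame (Entry l w p) (ZMod p) S))
    (w3 : Lab l w p → Tree (Entry l w p) (ZMod p) S)
    (hD : ∀ D ∈ C, ∀ D' ∈ C, ∀ j v, (j = i.castSucc.castSucc → v ∉ Y) → D j v = D' j v)
    (h1 : ∀ D ∈ C, CRun B (inp D) B.start (w1 D) q1) (h2 : ∀ D ∈ C, CRun B (inp D) q1 (w2 D) q2)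
    (h3 : ∀ D ∈ C, Run B (inp D) q2 (w3 D))
    (hX : ∀ D ∈ C, ∃ T : Finset (Fin w), T.card = 2 * t + R ∧ ∀ v ∈ T,
      ((i.succ.castSucc, v, argD D i.succ.castSucc v) : Entry l w p) ∈ creads (w2 D))
    (hYn : ∀ D ∈ C, ∀ v ∈ Y,
      ((i.castSucc.castSucc, v, argD D i.castSucc.castSucc v) : Entry l w p) ∉ creads (w2 D))
    (hinj : ∀ D ∈ C, ∀ D' ∈ C, ∀ T : Finset (Fin w), T.card = t →
      (∀ v ∈ T, argD D i.succ.castSucc v = argD D' i.succ.castSucc v) → D = D')
    (hno : ∀ D ∈ C, ∀ D' ∈ C, D ≠ D' → ∀ e ∈ creads (w2 D),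
      e ∈ treads (whole (w1 D') (w2 D') (w3 D')) → inp D e = inp D' e) : C.card ≤ A + 1 := by
  classical
  rcases C.eq_empty_or_nonempty with h0 | ⟨D0, hD0⟩
  · simp [h0]
  -- the joint input
  let J : Entry l w p → ZMod p := fun e =>
    if h : ∃ D ∈ C, e ∈ creads (w2 D) then inp h.choose e else inp D0 e
  have hJ : ∀ D ∈ C, ∀ e, e ∈ treads (whole (w1 D) (w2 D) (w3 D)) →
      (∃ D' ∈ C, e ∈ creads (w2 D')) → J e = inp D e := by
    intro D hD e he h
    have h' : J e = inp h.choose e := dif_pos h
    rw [h']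
    obtain ⟨hc1, hc2⟩ := h.choose_spec
    by_cases heq : h.choose = D
    · rw [heq]
    · exact hno _ hc1 D hD heq e hc2 he
  have hJ0 : ∀ e, e ∈ treads (whole (w1 D0) (w2 D0) (w3 D0)) → J e = inp D0 e := by
    intro e he
    by_cases h : ∃ D' ∈ C, e ∈ creads (w2 D')
    · exact hJ D0 hD0 e he h
    · exact dif_neg h
  have hacc : ∀ D ∈ C, AccTree B J (whole (w1 D0) (w2 D) (w3 D0)) := by
    intro D hD
    refine (run_fill B J _ _ _).2 ⟨q1, ?_, (run_fill B J _ _ _).2 ⟨q2, ?_, ?_⟩⟩
    · refine crun_congr B (inp D0) J _ _ _ (h1 D0 hD0) fun e he => (hJ0 e ?_).symm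
      rw [treads_whole]
      exact Or.inl he
    · refine crun_congr B (inp D) J _ _ _ (h2 D hD) fun e he => (hJ D hD e ?_ ⟨D, hD, he⟩).symm
      rw [treads_whole]
      exact Or.inr (Or.inl he)
    · refine run_congr B (inp D0) J _ _ (h3 D0 hD0) fun e he => (hJ0 e ?_).symm
      rw [treads_whole]
      exact Or.inr (Or.inr he)
  -- the joint input is `inp D0` at the relevant entries of `D0` up to level `i`
  have hlow : ∀ j v, j ≤ i.castSucc.castSucc → J (j, v, argD D0 j v) = D0 j v := by
    intro j v hj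
    by_cases h : ∃ D' ∈ C, ((j, v, argD D0 j v) : Entry l w p) ∈ creads (w2 D')
    · obtain ⟨D1, hc1, hc2, h'⟩ : ∃ D1 ∈ C, ((j, v, argD D0 j v) : Entry l w p) ∈
          creads (w2 D1) ∧ J (j, v, argD D0 j v) = inp D1 (j, v, argD D0 j v) :=
        ⟨h.choose, h.choose_spec.1, h.choose_spec.2, dif_pos h⟩
      rw [h', ← inp_self' D0 j v]
      by_contra hne
      rcases differ D1 D0 i Y (hD _ hc1 D0 hD0) _ hne with ⟨ha, hb, hc⟩ | ⟨ha, -, -⟩
      · simp only at ha hb hc
        subst ha
        rw [hc] at hc2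
        exact hYn _ hc1 v hb hc2
      · simp only at ha
        rw [ha] at hj
        exact absurd hj (not_le.2 (by
          rw [Fin.castSucc_lt_castSucc_iff]
          exact Fin.castSucc_lt_succ))
    · exact (dif_neg h).trans (inp_self' D0 j v)
  have hargJ : ∀ v, arg J i.succ.castSucc v = argD D0 i.succ.castSucc v := by
    intro v
    have e1 : arg J i.succ.castSucc v = ∑ u, M w p v u * out J i.castSucc.castSucc u := rfl
    have e2 : argD D0 i.succ.castSucc v =
        ∑ u, M w p v u * (D0 i.castSucc.castSucc u : ZMod p) := rfl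
    rw [e1, e2]
    exact Finset.sum_congr rfl fun u _ => by
      rw [out_agree J D0 i.castSucc.castSucc hlow i.castSucc.castSucc le_rfl u]
  -- different labelings agree in fewer than `t` arguments
  have hfew : ∀ D ∈ C, ∀ D' ∈ C, D ≠ D' → ∀ T : Finset (Fin w),
      (T.filter fun v => argD D i.succ.castSucc v = argD D' i.succ.castSucc v).card < t := by
    intro D hDC D' hDC' hne T
    by_contra hge
    push Not at hge
    obtain ⟨T2, hT2, hT2c⟩ := exists_subset_card_eq hge
    exact hne (hinj D hDC D' hDC' T2 hT2c fun v hv => (mem_filter.1 (hT2 hv)).2)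
  -- the pasted trees read more than `R` entries that are irrelevant for `J`
  have hwaste : ∀ D ∈ C, D ≠ D0 →
      (R : ℕ∞) < (treads (whole (w1 D0) (w2 D) (w3 D0)) \ relevant J).encard := by
    intro D hDC hne
    obtain ⟨T, hT, hTr⟩ := hX D hDC
    let T' : Finset (Fin w) := T.filter fun v =>
      ¬ argD D i.succ.castSucc v = argD D0 i.succ.castSucc v
    have hT' : R + 1 ≤ T'.card := by
      have h4 := card_filter_add_card_filter_not (s := T)
        (fun v => argD D i.succ.castSucc v = argD D0 i.succ.castSucc v)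
      have h5 := hfew D hDC D0 hD0 hne T
      have h6 : T'.card = (T.filter fun v =>
          ¬ argD D i.succ.castSucc v = argD D0 i.succ.castSucc v).card := rfl
      omega
    have hsub : ((fun v : Fin w => ((i.succ.castSucc, v, argD D i.succ.castSucc v) :
        Entry l w p)) '' (T' : Set (Fin w))) ⊆
        treads (whole (w1 D0) (w2 D) (w3 D0)) \ relevant J := by
      rintro e ⟨v, hv, rfl⟩
      obtain ⟨hvT, hvne⟩ := mem_filter.1 (mem_coe.1 hv)
      refine ⟨?_, fun hrel => hvne ?_⟩
      · rw [treads_whole]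
        exact Or.inr (Or.inl (hTr v hvT))
      · exact hrel.1.trans (hargJ v)
    have hinj' : Function.Injective (fun v : Fin w =>
        ((i.succ.castSucc, v, argD D i.succ.castSucc v) : Entry l w p)) := by
      intro v v' h
      simp only [Prod.mk.injEq] at h
      exact h.2.1
    have h7 := Set.encard_le_encard hsub
    rw [hinj'.encard_image, Set.encard_coe_eq_coe_finsetCard] at h7
    refine lt_of_lt_of_le ?_ h7
    exact_mod_cast hT'
  -- an entry of the window of `D` read by another tree has the same argument there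
  have hsame : ∀ D ∈ C, ∀ D' ∈ C, ∀ v : Fin w,
      ((i.succ.castSucc, v, argD D i.succ.castSucc v) : Entry l w p) ∈ creads (w2 D) →
      ((i.succ.castSucc, v, argD D i.succ.castSucc v) : Entry l w p) ∈
        treads (whole (w1 D') (w2 D') (w3 D')) →
      argD D i.succ.castSucc v = argD D' i.succ.castSucc v := by
    intro D hDC D' hDC' v hv hv'
    by_cases hne : D = D'
    · rw [hne]
    have h4 := hno D hDC D' hDC' hne _ hv hv'
    rw [inp_self'] at h4
    by_contra h5
    unfold inp at h4
    rw [if_neg h5] at h4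
    exact (D i.succ.castSucc v).ne_zero h4
  have hinjf : Set.InjOn (fun D => whole (w1 D0) (w2 D) (w3 D0)) (C.erase D0 : Finset _) := by
    intro D hD D' hD' h
    by_contra hne
    have hDC := mem_of_mem_erase hD
    have hDC' := mem_of_mem_erase hD'
    have hD00 := ne_of_mem_erase hD
    have h4 : treads (fill (w2 D) (w3 D0)) = treads (fill (w2 D') (w3 D0)) := by
      rw [fill_inj (w1 D0) h]
    rw [treads_fill, treads_fill] at h4
    obtain ⟨T, hT, hTr⟩ := hX D hDC
    have h5 : ∀ v ∈ T, argD D i.succ.castSucc v = argD D0 i.succ.castSucc v ∨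
        argD D i.succ.castSucc v = argD D' i.succ.castSucc v := by
      intro v hv
      have h6 : ((i.succ.castSucc, v, argD D i.succ.castSucc v) : Entry l w p) ∈
          creads (w2 D') ∪ treads (w3 D0) := h4 ▸ Or.inl (hTr v hv)
      rcases h6 with h6 | h6
      · refine Or.inr (hsame D hDC D' hDC' v (hTr v hv) ?_)
        rw [treads_whole]
        exact Or.inr (Or.inl h6)
      · refine Or.inl (hsame D hDC D0 hD0 v (hTr v hv) ?_)
        rw [treads_whole]
        exact Or.inr (Or.inr h6)
    have h7 := hfew D hDC D0 hD0 hD00 T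
    have h8 := hfew D hDC D' hDC' hne T
    have h9 : T ⊆ (T.filter fun v => argD D i.succ.castSucc v = argD D0 i.succ.castSucc v) ∪
        (T.filter fun v => argD D i.succ.castSucc v = argD D' i.succ.castSucc v) := by
      intro v hv
      rcases h5 v hv with h | h
      · exact mem_union_left _ (mem_filter.2 ⟨hv, h⟩)
      · exact mem_union_right _ (mem_filter.2 ⟨hv, h⟩)
    have h10 := (card_le_card h9).trans (card_union_le _ _)
    omega
  have hsub : (((C.erase D0).image fun D => whole (w1 D0) (w2 D) (w3 D0) : Finset _) : Set _) ⊆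
      {T | AccTree B J T ∧ (R : ℕ∞) < (treads T \ relevant J).encard} := by
    intro T hT
    obtain ⟨D, hD, rfl⟩ := mem_image.1 (mem_coe.1 hT)
    exact ⟨hacc D (mem_of_mem_erase hD), hwaste D (mem_of_mem_erase hD) (ne_of_mem_erase hD)⟩
  have h8 := (Set.encard_le_encard hsub).trans (hB J)
  rw [Set.encard_coe_eq_coe_finsetCard, card_image_of_injOn hinjf, card_erase_of_mem hD0] at h8
  have h9 : C.card - 1 ≤ A := by exact_mod_cast h8
  omega

end Pool.Agent.UW
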