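import Pool.Agent.UW.Class

/-!
Classes of labelings for programs with any number of accepting paths, of which at most `A` on each
input read more than `R` irrelevant entries.
-/

set_option autoImplicit false

namespace Pool.Agent.UW

open Finset

variable {S : Type}

theorem inp_self' {l w p : ℕ} (D : Lab l w p) (i : Fin (l + 2)) (v : Fin w) :
    inp D (i, v, argD D i v) = D i v := if_pos rfl

/-- An input that agrees with a labeling up to the level `k` has its values there. -/
theorem out_agree {l w p : ℕ} (x : Entry l w p → ZMod p) (D : Lab l w p) (k : Fin (l + 2))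
    (h : ∀ j v, j ≤ k → x (j, v, argD D j v) = D j v) (i : Fin (l + 2)) :
    i ≤ k → ∀ v, out x i v = D i v := by
  refine Fin.induction ?_ (fun i ih => ?_) i
  · intro h0 v
    exact h 0 v h0
  · intro h0 v
    have h1 : i.castSucc ≤ k := le_trans (le_of_lt (Fin.castSucc_lt_succ)) h0
    have h2 : ∑ u, M w p v u * out x i.castSucc u = argD D i.succ v :=
      Finset.sum_congr rfl fun u _ => by rw [ih h1 u]
    change x (i.succ, v, ∑ u, M w p v u * out x i.castSucc u) = _
    rw [h2]
    exact h i.succ v h0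

/-- A conflict-free set of labelings of one class has at most `A + 1` members. -/
theorem hybrid_waste {l w p : ℕ} [Fact p.Prime] (B : NBP (Entry l w p) (ZMod p) S)
    (A R t : ℕ) (hB : FewWasteful B A R) (q1 q2 : S) (i : Fin l) (Y : Finset (Fin w))
    (C : Finset (Lab l w p)) (w1 w2 w3 : Lab l w p → List (Option (Entry l w p × Set (ZMod p)) × S))
    (hD : ∀ D ∈ C, ∀ D' ∈ C, ∀ j v, (j = i.castSucc.castSucc → v ∉ Y) → D j v = D' j v)
    (h1 : ∀ D ∈ C, Seg B (inp D) B.start (w1 D) q1) (h2 : ∀ D ∈ C, Seg B (inp D) q1 (w2 D) q2)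
    (h3 : ∀ D ∈ C, Seg B (inp D) q2 (w3 D) B.acc)
    (hX : ∀ D ∈ C, ∃ T : Finset (Fin w), T.card = t + R ∧ ∀ v ∈ T,
      ((i.succ.castSucc, v, argD D i.succ.castSucc v) : Entry l w p) ∈ reads (w2 D))
    (hYn : ∀ D ∈ C, ∀ v ∈ Y,
      ((i.castSucc.castSucc, v, argD D i.castSucc.castSucc v) : Entry l w p) ∉ reads (w2 D))
    (hinj : ∀ D ∈ C, ∀ D' ∈ C, ∀ T : Finset (Fin w), T.card = t →
      (∀ v ∈ T, argD D i.succ.castSucc v = argD D' i.succ.castSucc v) → D = D')
    (hno : ∀ D ∈ C, ∀ D' ∈ C, D ≠ D' → ∀ e ∈ reads (w2 D), e ∈ reads (w1 D' ++ w2 D' ++ w3 D') →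
      inp D e = inp D' e) : C.card ≤ A + 1 := by
  classical
  rcases C.eq_empty_or_nonempty with h0 | ⟨D0, hD0⟩
  · simp [h0]
  -- the joint input
  let J : Entry l w p → ZMod p := fun e =>
    if h : ∃ D ∈ C, e ∈ reads (w2 D) then inp h.choose e else inp D0 e
  have hJ : ∀ D ∈ C, ∀ e, e ∈ reads (w1 D ++ w2 D ++ w3 D) → (∃ D' ∈ C, e ∈ reads (w2 D')) →
      J e = inp D e := by
    intro D hD e he h
    have h' : J e = inp h.choose e := dif_pos h
    rw [h']
    obtain ⟨hc1, hc2⟩ := h.choose_spec
    by_cases heq : h.choose = D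
    · rw [heq]
    · exact hno _ hc1 D hD heq e hc2 he
  have hJ0 : ∀ e, e ∈ reads (w1 D0 ++ w2 D0 ++ w3 D0) → J e = inp D0 e := by
    intro e he
    by_cases h : ∃ D' ∈ C, e ∈ reads (w2 D')
    · exact hJ D0 hD0 e he h
    · exact dif_neg h
  have hacc : ∀ D ∈ C, AccPath B J (w1 D0 ++ (w2 D ++ w3 D0)) := by
    intro D hD
    refine (seg_append B J _ _ _ _).2 ⟨q1, ?_, (seg_append B J _ _ _ _).2 ⟨q2, ?_, ?_⟩⟩
    · refine seg_congr B (inp D0) J _ _ _ (h1 D0 hD0) fun e he => (hJ0 e ?_).symm
      rw [reads_append, reads_append]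
      exact Or.inl (Or.inl he)
    · refine seg_congr B (inp D) J _ _ _ (h2 D hD) fun e he => (hJ D hD e ?_ ⟨D, hD, he⟩).symm
      rw [reads_append, reads_append]
      exact Or.inl (Or.inr he)
    · refine seg_congr B (inp D0) J _ _ _ (h3 D0 hD0) fun e he => (hJ0 e ?_).symm
      rw [reads_append, reads_append]
      exact Or.inr he
  -- the joint input is `inp D0` at the relevant entries of `D0` up to level `i`
  have hlow : ∀ j v, j ≤ i.castSucc.castSucc → J (j, v, argD D0 j v) = D0 j v := by
    intro j v hj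
    by_cases h : ∃ D' ∈ C, ((j, v, argD D0 j v) : Entry l w p) ∈ reads (w2 D')
    · obtain ⟨D1, hc1, hc2, h'⟩ : ∃ D1 ∈ C, ((j, v, argD D0 j v) : Entry l w p) ∈ reads (w2 D1) ∧
          J (j, v, argD D0 j v) = inp D1 (j, v, argD D0 j v) :=
        ⟨h.choose, h.choose_spec.1, h.choose_spec.2, dif_pos h⟩
      rw [h', ← inp_self' D0 j v]
      by_contra hne
      rcases differ D1 D0 i Y (hD _ hc1 D0 hD0) _ hne with ⟨ha, hb, hc⟩ | ⟨ha, -, -⟩
      · simp only at ha hb hc
        subst ha
        rw [hc] at hc2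
        exact hYn _ hc1 v hb hc2
      · simp only at ha
        rw [ha] at hj
        exact absurd hj (not_le.2 (by
          rw [Fin.castSucc_lt_castSucc_iff]
          exact Fin.castSucc_lt_succ))
    · exact (dif_neg h).trans (inp_self' D0 j v)
  have hargJ : ∀ v, arg J i.succ.castSucc v = argD D0 i.succ.castSucc v := by
    intro v
    have e1 : arg J i.succ.castSucc v = ∑ u, M w p v u * out J i.castSucc.castSucc u := rfl
    have e2 : argD D0 i.succ.castSucc v =
        ∑ u, M w p v u * (D0 i.castSucc.castSucc u : ZMod p) := rfl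
    rw [e1, e2]
    exact Finset.sum_congr rfl fun u _ => by
      rw [out_agree J D0 i.castSucc.castSucc hlow i.castSucc.castSucc le_rfl u]
  -- the pasted paths read more than `R` entries that are irrelevant for `J`
  have hwaste : ∀ D ∈ C, D ≠ D0 →
      (R : ℕ∞) < (reads (w1 D0 ++ (w2 D ++ w3 D0)) \ relevant J).encard := by
    intro D hDC hne
    obtain ⟨T, hT, hTr⟩ := hX D hDC
    let T' : Finset (Fin w) := T.filter fun v =>
      argD D i.succ.castSucc v ≠ argD D0 i.succ.castSucc v
    have hT' : R + 1 ≤ T'.card := by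
      have h4 := card_filter_add_card_filter_not (s := T)
        (fun v => argD D i.succ.castSucc v = argD D0 i.succ.castSucc v)
      have h5 : (T.filter fun v => argD D i.succ.castSucc v = argD D0 i.succ.castSucc v).card <
          t := by
        by_contra hge
        push Not at hge
        obtain ⟨T2, hT2, hT2c⟩ := exists_subset_card_eq hge
        exact hne (hinj D hDC D0 hD0 T2 hT2c fun v hv => (mem_filter.1 (hT2 hv)).2)
      have h6 : T'.card = (T.filter fun v =>
          ¬ argD D i.succ.castSucc v = argD D0 i.succ.castSucc v).card := rfl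
      omega
    have hsub : ((fun v : Fin w => ((i.succ.castSucc, v, argD D i.succ.castSucc v) :
        Entry l w p)) '' (T' : Set (Fin w))) ⊆
        reads (w1 D0 ++ (w2 D ++ w3 D0)) \ relevant J := by
      rintro e ⟨v, hv, rfl⟩
      obtain ⟨hvT, hvne⟩ := mem_filter.1 (mem_coe.1 hv)
      refine ⟨?_, fun hrel => hvne ?_⟩
      · rw [reads_append, reads_append]
        exact Or.inr (Or.inl (hTr v hvT))
      · exact hrel.1.trans (hargJ v)
    have hinj' : Function.Injective (fun v : Fin w =>
        ((i.succ.castSucc, v, argD D i.succ.castSucc v) : Entry l w p)) := by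
      intro v v' h
      simp only [Prod.mk.injEq] at h
      exact h.2.1
    have h7 := Set.encard_le_encard hsub
    rw [hinj'.encard_image, Set.encard_coe_eq_coe_finsetCard] at h7
    refine lt_of_lt_of_le ?_ h7
    exact_mod_cast hT'
  -- equal windows belong to equal labelings
  have hwin : ∀ D ∈ C, ∀ D' ∈ C, w2 D = w2 D' → D = D' := by
    intro D hDC D' hDC' heq
    by_contra hne
    obtain ⟨T, hT, hTr⟩ := hX D hDC
    obtain ⟨T2, hT2, hT2c⟩ := exists_subset_card_eq (show t ≤ T.card by omega)
    refine hne (hinj D hDC D' hDC' T2 hT2c fun v hv => ?_)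
    have hr := hTr v (hT2 hv)
    have h4 := hno D hDC D' hDC' hne _ hr (by
      rw [reads_append, reads_append]
      exact Or.inl (Or.inr (heq ▸ hr)))
    rw [inp_self'] at h4
    by_contra h5
    unfold inp at h4
    rw [if_neg h5] at h4
    exact (D i.succ.castSucc v).ne_zero h4
  have hinjf : Set.InjOn (fun D => w1 D0 ++ (w2 D ++ w3 D0)) (C.erase D0 : Finset _) := by
    intro D hD D' hD' h
    exact hwin D (mem_of_mem_erase hD) D' (mem_of_mem_erase hD')
      (List.append_cancel_right (List.append_cancel_left h))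
  have hsub : (((C.erase D0).image fun D => w1 D0 ++ (w2 D ++ w3 D0) : Finset _) : Set _) ⊆
      {π | AccPath B J π ∧ (R : ℕ∞) < (reads π \ relevant J).encard} := by
    intro π hπ
    obtain ⟨D, hD, rfl⟩ := mem_image.1 (mem_coe.1 hπ)
    exact ⟨hacc D (mem_of_mem_erase hD), hwaste D (mem_of_mem_erase hD) (ne_of_mem_erase hD)⟩
  have h8 := (Set.encard_le_encard hsub).trans (hB J)
  rw [Set.encard_coe_eq_coe_finsetCard, card_image_of_injOn hinjf, card_erase_of_mem hD0] at h8
  have h9 : C.card - 1 ≤ A := by exact_mod_cast h8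
  omega

end Pool.Agent.UW
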